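import Mathlib

/-!
# JOB ARITH: the final combinatorial argument

Suppose `R \ R0` is infinite. By pigeonhole an infinite subset `S` lies in one residue class mod `N` (both coordinates).
`S` contains elements with `K ≤ a + b`, so by `F2` and `F1` there is `(a1, b1) ∈ G` in this class. All `(a, b)` in the class with
`a1 ≤ a`, `b1 ≤ b`, `(a, b) ≠ (a1, b1)` are in `R0` (induction with `G1`, `G2`). So each element of `S` has `a < a1` or `b < b1` or is
`(a1, b1)`; hence infinitely many elements of `S` have the same first coordinate `a`, or infinitely many the same second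
coordinate `b`. First case: take such an element with `b ≥ K a`; by `F3` `(a, b + j N) ∈ T`, by `F1` `(a, b + (j+1) N) ∈ G`, by `G1`
`(a, b + i N) ∈ R0` for all `i ≥ j + 1`... so only finitely many elements of `S` with first coordinate `a`: contradiction. The second case is
symmetric.
-/

set_option autoImplicit false

namespace Pool.Agent.SymPoly

private theorem arith_up {N : ℕ} {R0 T G : Set (ℕ × ℕ)}
    (F1 : ∀ a b, (a, b) ∈ T → (a, b + N) ∈ G ∧ (a, b + N) ∈ R0) (hGT : G ⊆ T)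
    {a b : ℕ} (h : (a, b) ∈ T) (i : ℕ) :
    (a, b + (i + 1) * N) ∈ G ∧ (a, b + (i + 1) * N) ∈ R0 := by
  induction i with
  | zero => simpa using F1 a b h
  | succ i ih =>
    have h2 := F1 a _ (hGT ih.1)
    have e : b + (i + 1 + 1) * N = b + (i + 1) * N + N := by ring
    rw [e]; exact h2

private theorem arith_up' {N : ℕ} {R0 T' G : Set (ℕ × ℕ)}
    (F1' : ∀ a b, (a, b) ∈ T' → (a + N, b) ∈ G ∧ (a + N, b) ∈ R0) (hGT' : G ⊆ T')
    {a b : ℕ} (h : (a, b) ∈ T') (i : ℕ) :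
    (a + (i + 1) * N, b) ∈ G ∧ (a + (i + 1) * N, b) ∈ R0 := by
  induction i with
  | zero => simpa using F1' a b h
  | succ i ih =>
    have h2 := F1' _ b (hGT' ih.1)
    have e : a + (i + 1 + 1) * N = a + (i + 1) * N + N := by ring
    rw [e]; exact h2

private theorem modEq_le {N x y : ℕ} (h : x ≡ y [MOD N]) (hle : x ≤ y) : ∃ i, y = x + i * N := by
  obtain ⟨k, hk⟩ := (Nat.modEq_iff_dvd' hle).1 h
  exact ⟨k, by rw [mul_comm k N, ← hk]; omega⟩

private theorem modEq_lt {N x y : ℕ} (h : x ≡ y [MOD N]) (hlt : x < y) :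
    ∃ i, y = x + (i + 1) * N := by
  obtain ⟨i, hi⟩ := modEq_le h hlt.le
  cases i with
  | zero => exfalso; simp at hi; omega
  | succ i => exact ⟨i, hi⟩

private theorem fin_row {N : ℕ} (hN : 0 < N) {R R0 T G : Set (ℕ × ℕ)}
    (F1 : ∀ a b, (a, b) ∈ T → (a, b + N) ∈ G ∧ (a, b + N) ∈ R0) (hGT : G ⊆ T)
    (F3 : ∀ a, ∃ K : ℕ, ∀ b, K ≤ b → (a, b) ∈ R → ∃ j : ℕ, (a, b + j * N) ∈ T) (a s : ℕ) :
    {b | (a, b) ∈ R \ R0 ∧ b ≡ s [MOD N]}.Finite := by
  obtain ⟨K, hK⟩ := F3 a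
  by_cases hex : ∃ b0, K ≤ b0 ∧ (a, b0) ∈ R \ R0 ∧ b0 ≡ s [MOD N]
  · obtain ⟨b0, hb0, hR, hs⟩ := hex
    obtain ⟨j, hj⟩ := hK b0 hb0 hR.1
    apply (Set.finite_lt_nat (b0 + j * N + N)).subset
    rintro b ⟨hb, hbs⟩
    show b < b0 + j * N + N
    by_contra hcon
    have hcon : b0 + j * N + N ≤ b := not_lt.1 hcon
    have hmod : b0 + j * N ≡ b [MOD N] := by
      have h1 : b0 + j * N ≡ b0 [MOD N] := by
        have := (Nat.modEq_zero_iff_dvd.2 (Dvd.intro_left j rfl) : j * N ≡ 0 [MOD N])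
        simpa using (Nat.ModEq.refl b0).add this
      exact (h1.trans hs).trans hbs.symm
    obtain ⟨i, hi⟩ := modEq_lt hmod (by omega)
    have := (arith_up F1 hGT hj i).2
    rw [← hi] at this
    exact hb.2 this
  · apply (Set.finite_lt_nat K).subset
    rintro b ⟨hb, hbs⟩
    show b < K
    by_contra hcon
    exact hex ⟨b, not_lt.1 hcon, hb, hbs⟩

private theorem fin_class {N : ℕ} (hN : 0 < N) {R R0 T T' G : Set (ℕ × ℕ)}
    (F1 : ∀ a b, (a, b) ∈ T → (a, b + N) ∈ G ∧ (a, b + N) ∈ R0)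
    (F1' : ∀ a b, (a, b) ∈ T' → (a + N, b) ∈ G ∧ (a + N, b) ∈ R0)
    (hGT : G ⊆ T) (hGT' : G ⊆ T')
    (F2 : ∃ K : ℕ, ∀ a b, (a, b) ∈ R → K ≤ a + b →
      ∃ a' b', (a', b') ∈ T ∧ a' ≡ a [MOD N] ∧ b' ≡ b [MOD N])
    (F3 : ∀ a, ∃ K : ℕ, ∀ b, K ≤ b → (a, b) ∈ R → ∃ j : ℕ, (a, b + j * N) ∈ T)
    (F3' : ∀ b, ∃ K : ℕ, ∀ a, K ≤ a → (a, b) ∈ R → ∃ j : ℕ, (a + j * N, b) ∈ T')
    (r s : ℕ) :
    {p : ℕ × ℕ | p ∈ R \ R0 ∧ p.1 ≡ r [MOD N] ∧ p.2 ≡ s [MOD N]}.Finite := by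
  obtain ⟨K, hK⟩ := F2
  by_cases hex : ∃ a b, (a, b) ∈ R ∧ K ≤ a + b ∧ a ≡ r [MOD N] ∧ b ≡ s [MOD N]
  · obtain ⟨a, b, hab, hKab, har, hbs⟩ := hex
    obtain ⟨a', b', hT, ha', hb'⟩ := hK a b hab hKab
    have hG : (a', b' + N) ∈ G := (F1 a' b' hT).1
    have hmb : b' + N ≡ s [MOD N] := by
      have : b' + N ≡ b' [MOD N] := by simp [Nat.ModEq]
      exact (this.trans hb').trans hbs
    have hma : a' ≡ r [MOD N] := ha'.trans har
    obtain ⟨b1, hb1⟩ : ∃ b1, b1 = b' + N := ⟨_, rfl⟩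
    rw [← hb1] at hG hmb
    -- columns and rows
    have hrow : (⋃ x ∈ Finset.range a', (fun y => (x, y)) ''
        {y | (x, y) ∈ R \ R0 ∧ y ≡ s [MOD N]} : Set (ℕ × ℕ)).Finite := by
      apply Set.Finite.biUnion (Finset.finite_toSet _)
      intro x _
      exact (fin_row hN F1 hGT F3 x s).image _
    have hcol : (⋃ y ∈ Finset.range b1, (fun x => (x, y)) ''
        {x | (x, y) ∈ R \ R0 ∧ x ≡ r [MOD N]} : Set (ℕ × ℕ)).Finite := by
      apply Set.Finite.biUnion (Finset.finite_toSet _)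
      intro y _
      have := fin_row (R := Prod.swap '' R) (R0 := Prod.swap '' R0) (T := Prod.swap '' T')
        (G := Prod.swap '' G) hN
        (by
          intro a b h
          obtain ⟨⟨p, q⟩, hp, he⟩ := h
          simp only [Prod.swap_prod_mk, Prod.mk.injEq] at he
          obtain ⟨rfl, rfl⟩ := he
          have := F1' _ _ hp
          exact ⟨⟨_, this.1, rfl⟩, ⟨_, this.2, rfl⟩⟩)
        (Set.image_mono hGT')
        (by
          intro a
          obtain ⟨K, hK⟩ := F3' a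
          refine ⟨K, ?_⟩
          intro b hb h
          obtain ⟨⟨p, q⟩, hp, he⟩ := h
          simp only [Prod.swap_prod_mk, Prod.mk.injEq] at he
          obtain ⟨rfl, rfl⟩ := he
          obtain ⟨j, hj⟩ := hK _ hb hp
          exact ⟨j, _, hj, rfl⟩) y r
      apply Set.Finite.image
      refine this.subset ?_
      rintro x ⟨hx, hxr⟩
      refine ⟨⟨⟨_, hx.1, rfl⟩, ?_⟩, hxr⟩
      rintro ⟨⟨p, q⟩, hp, he⟩
      simp only [Prod.swap_prod_mk, Prod.mk.injEq] at he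
      obtain ⟨rfl, rfl⟩ := he
      exact hx.2 hp
    apply ((hrow.union hcol).union (Set.finite_singleton (a', b1))).subset
    rintro ⟨x, y⟩ ⟨hxy, hx, hy⟩
    simp only at hx hy
    by_cases hxa : x < a'
    · left; left
      simp only [Set.mem_iUnion]
      exact ⟨x, Finset.mem_range.2 hxa, y, ⟨hxy, hy⟩, rfl⟩
    by_cases hyb : y < b1
    · left; right
      simp only [Set.mem_iUnion]
      exact ⟨y, Finset.mem_range.2 hyb, x, ⟨hxy, hx⟩, rfl⟩
    right
    obtain ⟨i, hi⟩ := modEq_le (hma.trans hx.symm) (not_lt.1 hxa)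
    obtain ⟨j, hj⟩ := modEq_le (hmb.trans hy.symm) (not_lt.1 hyb)
    cases i with
    | zero =>
      simp only [zero_mul, add_zero] at hi
      subst hi
      cases j with
      | zero =>
        simp only [zero_mul, add_zero] at hj
        subst hj
        rfl
      | succ j =>
        exfalso
        have := (arith_up F1 hGT (hGT hG) j).2
        rw [← hj] at this
        exact hxy.2 this
    | succ i =>
      exfalso
      have h1 := arith_up' F1' hGT' (hGT' hG) i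
      rw [← hi] at h1
      cases j with
      | zero =>
        simp only [zero_mul, add_zero] at hj
        subst hj
        exact hxy.2 h1.2
      | succ j =>
        have := (arith_up F1 hGT (hGT h1.1) j).2
        rw [← hj] at this
        exact hxy.2 this
  · have hfin : ((Finset.range K ×ˢ Finset.range K : Finset (ℕ × ℕ)) : Set (ℕ × ℕ)).Finite :=
      Finset.finite_toSet _
    apply hfin.subset
    rintro ⟨x, y⟩ ⟨hxy, hx, hy⟩
    simp only [Finset.coe_product, Finset.coe_range, Set.mem_prod, Set.mem_Iio]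
    by_contra hcon
    apply hex
    refine ⟨x, y, hxy.1, ?_, hx, hy⟩
    by_contra h2
    apply hcon
    omega

theorem arith_main (N : ℕ) (hN : 0 < N) (R R0 T T' G : Set (ℕ × ℕ))
    (F1 : ∀ a b, (a, b) ∈ T → (a, b + N) ∈ G ∧ (a, b + N) ∈ R0)
    (F1' : ∀ a b, (a, b) ∈ T' → (a + N, b) ∈ G ∧ (a + N, b) ∈ R0)
    (hGT : G ⊆ T) (hGT' : G ⊆ T')
    (F2 : ∃ K : ℕ, ∀ a b, (a, b) ∈ R → K ≤ a + b →
      ∃ a' b', (a', b') ∈ T ∧ a' ≡ a [MOD N] ∧ b' ≡ b [MOD N])
    (F3 : ∀ a, ∃ K : ℕ, ∀ b, K ≤ b → (a, b) ∈ R → ∃ j : ℕ, (a, b + j * N) ∈ T)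
    (F3' : ∀ b, ∃ K : ℕ, ∀ a, K ≤ a → (a, b) ∈ R → ∃ j : ℕ, (a + j * N, b) ∈ T') :
    (R \ R0).Finite := by
  have hfin : (⋃ r ∈ Finset.range N, ⋃ s ∈ Finset.range N,
      {p : ℕ × ℕ | p ∈ R \ R0 ∧ p.1 ≡ r [MOD N] ∧ p.2 ≡ s [MOD N]}).Finite := by
    apply Set.Finite.biUnion (Finset.finite_toSet _)
    intro r _
    apply Set.Finite.biUnion (Finset.finite_toSet _)
    intro s _
    exact fin_class hN F1 F1' hGT hGT' F2 F3 F3' r s
  apply hfin.subset
  rintro ⟨x, y⟩ hxy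
  simp only [Set.mem_iUnion]
  exact ⟨x % N, Finset.mem_range.2 (Nat.mod_lt _ hN), y % N, Finset.mem_range.2 (Nat.mod_lt _ hN),
    hxy, (Nat.mod_modEq x N).symm, (Nat.mod_modEq y N).symm⟩

end Pool.Agent.SymPoly
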