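import Pool.Agent.Lib.MP_742c35_co.Defs

/-!
# The combinatorial model: a polytope with `0` in the interior and its polar

`V` = vertices, `L` = vertices of the polar body = facets (`l ∈ L` stands for the facet
`{x ∈ P | ⟪x, l⟫ = 1}`, whose vertices are `tight V l`). Everything is symmetric in `V` and `L`.
-/

set_option autoImplicit false

open Set Module
open scoped InnerProductSpace

namespace Pool.Agent.SymPoly

open Classical in
/-- The elements `a` of `A` with `⟪a, y⟫ = 1`. -/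
noncomputable def tight (A : Finset E3) (y : E3) : Finset E3 := A.filter fun a => ⟪a, y⟫_ℝ = 1

theorem mem_tight {A : Finset E3} {y a : E3} : a ∈ tight A y ↔ a ∈ A ∧ ⟪a, y⟫_ℝ = 1 := by
  simp [tight]

/-- `V` is the vertex set of a polytope with `0` in its interior, `L` that of its polar. -/
structure DPair (V L : Finset E3) : Prop where
  le : ∀ v ∈ V, ∀ l ∈ L, ⟪v, l⟫_ℝ ≤ 1
  spanV : ∀ l ∈ L, Submodule.span ℝ (tight V l : Set E3) = ⊤
  spanL : ∀ v ∈ V, Submodule.span ℝ (tight L v : Set E3) = ⊤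
  hullV : ∀ y : E3, (∀ l ∈ L, ⟪y, l⟫_ℝ ≤ 1) → y ∈ convexHull ℝ (V : Set E3)
  hullL : ∀ y : E3, (∀ v ∈ V, ⟪v, y⟫_ℝ ≤ 1) → y ∈ convexHull ℝ (L : Set E3)

theorem DPair.symm {V L : Finset E3} (h : DPair V L) : DPair L V where
  le := fun v hv l hl => by rw [real_inner_comm]; exact h.le l hl v hv
  spanV := h.spanL
  spanL := h.spanV
  hullV := fun y hy => h.hullL y fun v hv => by rw [real_inner_comm]; exact hy v hv
  hullL := fun y hy => h.hullV y fun v hv => by rw [real_inner_comm]; exact hy v hv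

/-- `α = ∑ (|F_l| - 3)`; the dual invariant `β` is `alpha L V`. -/
noncomputable def alpha (V L : Finset E3) : ℕ := ∑ l ∈ L, ((tight V l).card - 3)

/-- `A` is invariant under the group `Γ`. -/
def Inv (Γ : Subgroup (E3 ≃ₗᵢ[ℝ] E3)) (A : Finset E3) : Prop := ∀ g ∈ Γ, ∀ a ∈ A, g a ∈ A

/-- Only the identity of `Γ` fixes `y`. -/
def Free (Γ : Subgroup (E3 ≃ₗᵢ[ℝ] E3)) (y : E3) : Prop := ∀ g ∈ Γ, g y = y → g = 1

/-- There is at most one element of `Γ` different from the identity which fixes `y`. -/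
def Thin (Γ : Subgroup (E3 ≃ₗᵢ[ℝ] E3)) (y : E3) : Prop :=
  ∀ g ∈ Γ, ∀ h ∈ Γ, g y = y → h y = y → g ≠ 1 → h ≠ 1 → g = h

/-- A `Γ`-invariant polytope with its polar. -/
structure GPair (Γ : Subgroup (E3 ≃ₗᵢ[ℝ] E3)) (V L : Finset E3) : Prop where
  dpair : DPair V L
  invV : Inv Γ V
  invL : Inv Γ L

theorem GPair.symm {Γ : Subgroup (E3 ≃ₗᵢ[ℝ] E3)} {V L : Finset E3} (h : GPair Γ V L) :
    GPair Γ L V := ⟨h.dpair.symm, h.invL, h.invV⟩

/-- There is a triangular facet with trivial stabiliser. -/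
def HasTri (Γ : Subgroup (E3 ≃ₗᵢ[ℝ] E3)) (V L : Finset E3) : Prop :=
  ∃ l ∈ L, (tight V l).card = 3 ∧ Free Γ l

/-- The linear symmetry group of the convex hull of `V` is contained in `Γ`. -/
def Exact (Γ : Subgroup (E3 ≃ₗᵢ[ℝ] E3)) (V : Finset E3) : Prop :=
  ∀ A : E3 →ₗ[ℝ] E3, (fun x => A x) '' convexHull ℝ (V : Set E3) = convexHull ℝ (V : Set E3) →
    ∃ g ∈ Γ, ∀ x, A x = g x

end Pool.Agent.SymPoly
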