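import Pool.Agent.Lib.MP_742c35_co.Stack

/-!
# JOB BOOST: stacking over an invariant set of facets

`w l = (|F_l|)⁻¹ • ∑ v ∈ tight V l, v` (centroid), `X = {(1 + e) • w l : l ∈ M}`, `lam ((1 + e) • w l) = l` (`w` is injective on
`L`: `⟪w l, l'⟫ = 1` iff `tight V l ⊆ tight V l'` iff `l' = l`, otherwise `< 1`). `d` = half of the minimum of `1 - ⟪w l, l'⟫`,
`l ≠ l'`; `e` small. Apply `DPair.stack`. `V' = V ∪ X` is invariant since `g (w l) = w (g l)`, and `L'` is by `inv_of_inv`.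
`HasTri`: let `l0 ∈ M` be thin, `x0 = (1 + e) • w l0`. The `l' ∈ L'` tight at `x0` span (`spanL`). If `g ∈ Γ` fixes such an `l'` then
`g x0 ∈ X` is tight for `l'` so `g x0 = x0` and `g l0 = l0`. If all `l' ∈ tight L' x0` had a nontrivial stabiliser, by thinness of
`l0` they would all be fixed by the same `g ≠ 1`, so `g = 1` since they span.
-/

set_option autoImplicit false

open Set Module
open scoped InnerProductSpace

namespace Pool.Agent.SymPoly

/-- The centroid of the facet `l`. -/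
private noncomputable def cen (V : Finset E3) (l : E3) : E3 :=
  ((tight V l).card : ℝ)⁻¹ • ∑ v ∈ tight V l, v

private theorem inner_cen (V : Finset E3) (l y : E3) :
    ⟪cen V l, y⟫_ℝ = ((tight V l).card : ℝ)⁻¹ * ∑ v ∈ tight V l, ⟪v, y⟫_ℝ := by
  unfold cen
  rw [real_inner_smul_left, sum_inner]

private theorem card_pos_of_mem {V L : Finset E3} (h : DPair V L) {l : E3} (hl : l ∈ L) :
    (0 : ℝ) < ((tight V l).card : ℝ) := by
  have := h.three_le hl
  exact_mod_cast (by omega : 0 < (tight V l).card)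

private theorem inner_cen_self {V L : Finset E3} (h : DPair V L) {l : E3} (hl : l ∈ L) :
    ⟪cen V l, l⟫_ℝ = 1 := by
  have h0 := card_pos_of_mem h hl
  rw [inner_cen, Finset.sum_congr rfl (fun v hv => (mem_tight.1 hv).2)]
  simp only [Finset.sum_const, nsmul_eq_mul, mul_one]
  exact inv_mul_cancel₀ h0.ne'

private theorem inner_cen_lt {V L : Finset E3} (h : DPair V L) {l l' : E3} (hl : l ∈ L)
    (hl' : l' ∈ L) (hne : l' ≠ l) : ⟪cen V l, l'⟫_ℝ < 1 := by
  have h0 := card_pos_of_mem h hl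
  rw [inner_cen]
  have hlt : ∑ v ∈ tight V l, ⟪v, l'⟫_ℝ < ∑ v ∈ tight V l, (1 : ℝ) := by
    refine Finset.sum_lt_sum (fun v hv => h.le v (mem_tight.1 hv).1 l' hl') ?_
    by_contra hcon
    push Not at hcon
    apply hne
    refine DPair.eq_of_tight (h.spanV l hl) ?_
    intro a ha
    exact le_antisymm (h.le a (mem_tight.1 ha).1 l' hl') (hcon a ha)
  rw [Finset.sum_const, nsmul_eq_mul, mul_one] at hlt
  rw [inv_mul_lt_iff₀ h0, mul_one]
  exact hlt

private theorem inv_mem_of {Γ : Subgroup (E3 ≃ₗᵢ[ℝ] E3)} {V : Finset E3} (hV : Inv Γ V)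
    {g : E3 ≃ₗᵢ[ℝ] E3} (hg : g ∈ Γ) {a : E3} (ha : a ∈ V) : g.symm a ∈ V :=
  hV g⁻¹ (Γ.inv_mem hg) a ha

open Classical in
private theorem tight_map {Γ : Subgroup (E3 ≃ₗᵢ[ℝ] E3)} {V : Finset E3} (hV : Inv Γ V)
    {g : E3 ≃ₗᵢ[ℝ] E3} (hg : g ∈ Γ) (l : E3) : tight V (g l) = (tight V l).image g := by
  ext a
  rw [Finset.mem_image, mem_tight]
  constructor
  · rintro ⟨ha, h1⟩
    refine ⟨g.symm a, mem_tight.2 ⟨inv_mem_of hV hg ha, ?_⟩, g.apply_symm_apply a⟩
    rw [← h1, ← g.inner_map_map, g.apply_symm_apply]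
  · rintro ⟨b, hb, rfl⟩
    rw [mem_tight] at hb
    exact ⟨hV g hg b hb.1, by rw [g.inner_map_map]; exact hb.2⟩

open Classical in
private theorem map_cen {Γ : Subgroup (E3 ≃ₗᵢ[ℝ] E3)} {V : Finset E3} (hV : Inv Γ V)
    {g : E3 ≃ₗᵢ[ℝ] E3} (hg : g ∈ Γ) (l : E3) : g (cen V l) = cen V (g l) := by
  unfold cen
  rw [tight_map hV hg, Finset.card_image_of_injective _ g.injective,
    Finset.sum_image (fun a _ b _ hab => g.injective hab), map_smul, map_sum]

private theorem exists_gap {V L : Finset E3} (h : DPair V L) :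
    ∃ d : ℝ, 0 < d ∧ ∀ l ∈ L, ∀ l' ∈ L, l' ≠ l → ⟪cen V l, l'⟫_ℝ ≤ 1 - 2 * d := by
  classical
  have key : ∀ S : Finset (E3 × E3), (∀ p ∈ S, ⟪cen V p.1, p.2⟫_ℝ < 1) →
      ∃ d : ℝ, 0 < d ∧ ∀ p ∈ S, ⟪cen V p.1, p.2⟫_ℝ ≤ 1 - 2 * d := by
    intro S
    induction S using Finset.induction_on with
    | empty => intro _; exact ⟨1, one_pos, by simp⟩
    | insert a S ha ih =>
      intro hS
      obtain ⟨d, hd, hd'⟩ := ih fun p hp => hS p (Finset.mem_insert_of_mem hp)
      have h1 := hS a (Finset.mem_insert_self _ _)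
      refine ⟨min d ((1 - ⟪cen V a.1, a.2⟫_ℝ) / 2), lt_min hd (by linarith), ?_⟩
      intro p hp
      rcases Finset.mem_insert.1 hp with rfl | hp
      · have := min_le_right d ((1 - ⟪cen V p.1, p.2⟫_ℝ) / 2)
        linarith
      · have := min_le_left d ((1 - ⟪cen V a.1, a.2⟫_ℝ) / 2)
        have := hd' p hp
        linarith
  obtain ⟨d, hd, hd'⟩ := key ((L ×ˢ L).filter fun p => p.2 ≠ p.1) (by
    intro p hp
    rw [Finset.mem_filter, Finset.mem_product] at hp
    exact inner_cen_lt h hp.1.1 hp.1.2 hp.2)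
  refine ⟨d, hd, fun l hl l' hl' hne => hd' (l, l') ?_⟩
  rw [Finset.mem_filter, Finset.mem_product]
  exact ⟨⟨hl, hl'⟩, hne⟩

theorem boost {Γ : Subgroup (E3 ≃ₗᵢ[ℝ] E3)} [Finite Γ] {V L : Finset E3} (h : GPair Γ V L)
    {M : Finset E3} (hM : M ⊆ L) (hinv : Inv Γ M) (hthin : ∃ l ∈ M, Thin Γ l) :
    ∃ V' L' : Finset E3, GPair Γ V' L' ∧ HasTri Γ V' L' ∧ V'.card = V.card + M.card ∧
      alpha V' L' + ∑ l ∈ M, ((tight V l).card - 3) = alpha V L := by
  classical
  obtain ⟨hD, hV, hL⟩ := h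
  obtain ⟨d, hd, hgap⟩ := exists_gap hD
  set e : ℝ := d / 2 with he
  have he0 : 0 < 1 + e := by positivity
  set f : E3 → E3 := fun l => (1 + e) • cen V l with hf
  have hfself : ∀ l ∈ L, ⟪f l, l⟫_ℝ = 1 + e := by
    intro l hl
    rw [hf]
    simp only
    rw [real_inner_smul_left, inner_cen_self hD hl, mul_one]
  have hfother : ∀ l ∈ L, ∀ l' ∈ L, l' ≠ l → ⟪f l, l'⟫_ℝ ≤ 1 - d := by
    intro l hl l' hl' hne
    rw [hf]
    simp only
    rw [real_inner_smul_left]
    have h1 := hgap l hl l' hl' hne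
    nlinarith
  have hfinj : ∀ l ∈ L, ∀ l' ∈ L, f l = f l' → l = l' := by
    intro l hl l' hl' hEq
    by_contra hne
    have h1 := hfself l hl
    have h2 := hfother l' hl' l hl hne
    rw [hEq] at h1
    linarith
  have hInj : Set.InjOn f (M : Set E3) := fun l hl l' hl' hEq => hfinj l (hM hl) l' (hM hl') hEq
  set lam : E3 → E3 := Function.invFunOn f (M : Set E3) with hlam
  have hlamf : ∀ l ∈ M, lam (f l) = l := fun l hl => hInj.leftInvOn_invFunOn hl
  obtain ⟨L', hD', hdisj, halpha, htri⟩ := hD.stack (M.image f) lam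
    (by
      intro x hx
      obtain ⟨l, hl, rfl⟩ := Finset.mem_image.1 hx
      rw [hlamf l hl]; exact hM hl)
    (by
      intro x hx y hy hxy
      obtain ⟨l, hl, rfl⟩ := Finset.mem_image.1 hx
      obtain ⟨l', hl', rfl⟩ := Finset.mem_image.1 hy
      rw [hlamf l hl, hlamf l' hl'] at hxy
      rw [hxy])
    (d := d)
    (by
      intro x hx
      obtain ⟨l, hl, rfl⟩ := Finset.mem_image.1 hx
      rw [hlamf l hl, hfself l (hM hl)]; linarith)
    (by
      intro x hx
      obtain ⟨l, hl, rfl⟩ := Finset.mem_image.1 hx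
      rw [hlamf l hl, hfself l (hM hl)]; linarith)
    (by
      intro x hx l' hl' hne
      obtain ⟨l, hl, rfl⟩ := Finset.mem_image.1 hx
      rw [hlamf l hl] at hne
      exact hfother l (hM hl) l' hl' hne)
  have hmapf : ∀ g ∈ Γ, ∀ l, g (f l) = f (g l) := by
    intro g hg l
    rw [hf]
    simp only
    rw [map_smul, map_cen hV hg]
  have hXinv : ∀ g ∈ Γ, ∀ x ∈ M.image f, g x ∈ M.image f := by
    intro g hg x hx
    obtain ⟨l, hl, rfl⟩ := Finset.mem_image.1 hx
    rw [hmapf g hg]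
    exact Finset.mem_image_of_mem f (hinv g hg l hl)
  have hV'inv : Inv Γ (V ∪ M.image f) := by
    intro g hg a ha
    rcases Finset.mem_union.1 ha with ha | ha
    · exact Finset.mem_union_left _ (hV g hg a ha)
    · exact Finset.mem_union_right _ (hXinv g hg a ha)
  refine ⟨V ∪ M.image f, L', ⟨hD', hV'inv, hD'.inv_of_inv hV'inv⟩, ?_, ?_, ?_⟩
  · obtain ⟨l0, hl0, hth⟩ := hthin
    have hx0 : f l0 ∈ M.image f := Finset.mem_image_of_mem f hl0
    have hspan := hD'.spanL (f l0) (Finset.mem_union_right _ hx0)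
    have hex : ∃ l' ∈ tight L' (f l0), Free Γ l' := by
      by_contra hcon
      push Not at hcon
      have hstab : ∀ l' ∈ tight L' (f l0), ∃ g ∈ Γ, g l' = l' ∧ g ≠ 1 ∧ g l0 = l0 := by
        intro l' hl'
        have h1 := hcon l' hl'
        unfold Free at h1
        push Not at h1
        obtain ⟨g, hg, hgl, hg1⟩ := h1
        refine ⟨g, hg, hgl, hg1, ?_⟩
        rw [mem_tight] at hl'
        have h2 : ⟪f l0, l'⟫_ℝ = 1 := by rw [real_inner_comm]; exact hl'.2
        have h3 := (htri l' hl'.1 (f l0) hx0 h2).2.1 (g (f l0)) (hXinv g hg _ hx0)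
          (by
            have h4 : ⟪g (f l0), g l'⟫_ℝ = 1 := by rw [g.inner_map_map]; exact h2
            rw [hgl] at h4; exact h4)
        rw [hmapf g hg] at h3
        exact hfinj (g l0) (hM (hinv g hg l0 hl0)) l0 (hM hl0) h3
      have hne : (tight L' (f l0)).Nonempty := by
        rw [Finset.nonempty_iff_ne_empty]
        intro hemp
        rw [hemp] at hspan
        simp at hspan
      obtain ⟨l1, hl1⟩ := hne
      obtain ⟨g1, hg1, _, hg1ne, hg1l0⟩ := hstab l1 hl1
      have hall : ∀ l' ∈ tight L' (f l0), g1 l' = l' := by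
        intro l' hl'
        obtain ⟨g, hg, hgl, hgne, hgl0⟩ := hstab l' hl'
        have := hth g1 hg1 g hg hg1l0 hgl0 hg1ne hgne
        rw [this]; exact hgl
      apply hg1ne
      have hlin : (g1.toLinearEquiv : E3 →ₗ[ℝ] E3) = LinearMap.id := by
        refine LinearMap.ext_on (s := (tight L' (f l0) : Set E3)) hspan ?_
        intro y hy
        exact hall y hy
      ext1 y
      exact congrArg (fun A : E3 →ₗ[ℝ] E3 => A y) hlin
    obtain ⟨l', hl', hfree⟩ := hex
    rw [mem_tight] at hl'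
    exact ⟨l', hl'.1, (htri l' hl'.1 (f l0) hx0 (by rw [real_inner_comm]; exact hl'.2)).1, hfree⟩
  · rw [Finset.card_union_of_disjoint hdisj, Finset.card_image_of_injOn hInj]
  · rw [← halpha]
    congr 1
    rw [Finset.sum_image (fun a ha b hb hab => hInj ha hb hab)]
    exact Finset.sum_congr rfl fun l hl => by rw [hlamf l hl]

end Pool.Agent.SymPoly
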