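import Mathlib

/-!
# f-vectors of 3-polytopes with prescribed linear symmetry group: definitions
-/

set_option autoImplicit false

open Set Module

namespace Pool.Agent.SymPoly

/-- Euclidean 3-space. -/
abbrev E3 : Type := EuclideanSpace ℝ (Fin 3)

/-- A 3-polytope: the convex hull of finitely many points, with nonempty interior. -/
def IsPolytope3 (P : Set E3) : Prop :=
  (∃ S : Finset E3, P = convexHull ℝ (S : Set E3)) ∧ (interior P).Nonempty

/-- The `k`-dimensional faces (`k = 0, 1, 2`) of a polytope `P`: the nonempty exposed subsets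
(sets of maximisers of a linear functional) whose affine span has dimension `k`. -/
def faces (P : Set E3) (k : ℕ) : Set (Set E3) :=
  {F | IsExposed ℝ P F ∧ F.Nonempty ∧ finrank ℝ (vectorSpan ℝ F) = k}

/-- The f-vector: the numbers of vertices, edges and 2-faces. -/
noncomputable def fvec (P : Set E3) : ℕ × ℕ × ℕ :=
  ((faces P 0).ncard, (faces P 1).ncard, (faces P 2).ncard)

/-- The linear symmetry group of `P`, as a set of `3 × 3` matrices. -/
def Symm (P : Set E3) : Set (Matrix (Fin 3) (Fin 3) ℝ) :=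
  {A | (fun x => Matrix.toEuclideanLin A x) '' P = P}

/-- The matrices in a subgroup `G` of the orthogonal group `O(3)`. -/
def mats (G : Subgroup (Matrix.orthogonalGroup (Fin 3) ℝ)) : Set (Matrix (Fin 3) (Fin 3) ℝ) :=
  {A | ∃ g ∈ G, (g : Matrix (Fin 3) (Fin 3) ℝ) = A}

/-- The f-vectors of the `G`-invariant 3-polytopes. -/
def FG (G : Subgroup (Matrix.orthogonalGroup (Fin 3) ℝ)) : Set (ℕ × ℕ × ℕ) :=
  {f | ∃ P : Set E3, IsPolytope3 P ∧ mats G ⊆ Symm P ∧ fvec P = f}

/-- The f-vectors of the 3-polytopes whose linear symmetry group is exactly `G`. -/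
def FGbar (G : Subgroup (Matrix.orthogonalGroup (Fin 3) ℝ)) : Set (ℕ × ℕ × ℕ) :=
  {f | ∃ P : Set E3, IsPolytope3 P ∧ Symm P = mats G ∧ fvec P = f}

end Pool.Agent.SymPoly
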