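import Pool.Agent.Lib.MP_742c35_co.Exist

/-!
# JOB EULER: the Euler identity `∑ (|F_l| - 2) = 2 |V| - 4`

Proof. Choose `c` with `⟪v, c⟫` pairwise distinct for `v ∈ V` (avoid finitely many hyperplanes).
Call the flag `(v, l)`, `v ∈ tight V l`, mixed if there are `v1, v2 ∈ tight V l` with
`⟪v1, c⟫ < ⟪v, c⟫ < ⟪v2, c⟫`. Each `l ∈ L` has exactly `|tight V l| - 2` mixed vertices (all but the top and
the bottom one). Claim: `v ∈ V` is in exactly two mixed flags if it is neither the top nor the bottom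
vertex of `V`, otherwise in none. So `∑_l (|tight V l| - 2) = 2 (|V| - 2)`.

Proof of the claim. Let `⟪v1, c⟫ < ⟪v, c⟫ < ⟪v2, c⟫`. There is `d0 = -v + s (v' - v)`, `s ≥ 0`, `v' ∈ {v1, v2}`,
with `⟪d0, c⟫ = 0`; then `⟪d0, l⟫ ≤ -1` for all `l ∈ tight L v`. Choose `n` with `⟪n, c⟫ = 0`, `d0, n`
independent (`c ≠ 0`, `dim ker c = 2`, `d0 ≠ 0`). For `l ∈ tight L v` put `r_l = ⟪n, l⟫ / (-⟪d0, l⟫)`.
(1) If `l1, l2` both attain the maximum `r`, put `d1 = r d0 + n ≠ 0`: `⟪d1, l⟫ = -⟪d0, l⟫ (r_l - r) ≤ 0` for all tight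
`l`, `= 0` for `l1, l2`. So `y = v + t d1` is in the polytope for small `t > 0` (the other `l ∈ L` are strict at `v`),
and tight for `l1, l2`. A convex combination of `V` tight for `l1` and `l2` only uses vertices tight for both;
so there is a vertex `w ≠ v` tight for `l1` and `l2`, and if `l1 ≠ l2` the common kernel of `l1, l2` is a line, so
`w - v` is a multiple of `d1` and `⟪w - v, c⟫ = 0`, a contradiction. Same for the minimum (replace `n` by `-n`).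
(2) max `≠` min: otherwise `⟪r d0 + n, l⟫ = 0` for all tight `l`, which span.
(3) `(v, l)` is mixed iff `r_l` is the maximum or the minimum: if `r_l` is the maximum, `y = v + t d1 ≠ v` is a convex
combination of `tight V l` with `⟪y, c⟫ = ⟪v, c⟫`, so by injectivity some vertices of `tight V l` are above and some
below `v`. Conversely if `⟪w1, c⟫ < ⟪v, c⟫ < ⟪w2, c⟫`, `w_i ∈ tight V l`, let `y ∈ [w1, w2]`, `⟪y, c⟫ = ⟪v, c⟫`; `y ≠ v` since `v` is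
extreme; `y - v = a d0 + b n`, `b ≠ 0`, `⟪y - v, l'⟫ ≤ 0` for all tight `l'` with equality for `l`, that is
`b r_{l'} ≤ a` with equality for `l`.
-/

set_option autoImplicit false

open Set Module
open scoped InnerProductSpace

namespace Pool.Agent.SymPoly

private theorem exists_generic (V : Finset E3) :
    ∃ c : E3, ∀ v ∈ V, ∀ w ∈ V, v ≠ w → ⟪v, c⟫_ℝ ≠ ⟪w, c⟫_ℝ := by
  classical
  let T : Finset (E3 × E3) := (V ×ˢ V).filter fun p => p.1 ≠ p.2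
  obtain ⟨c, hc⟩ := Module.Dual.exists_forall_ne_zero_of_forall_exists (K := ℝ) (M := E3)
    (fun p : T => (innerₛₗ ℝ (p.1.1 - p.1.2) : E3 →ₗ[ℝ] ℝ)) (fun p => ⟨p.1.1 - p.1.2, by
      have hp := (Finset.mem_filter.1 p.2).2
      simp only [innerₛₗ_apply_apply]
      intro h0
      exact hp (sub_eq_zero.1 (inner_self_eq_zero.1 h0))⟩)
  refine ⟨c, fun v hv w hw hvw he => ?_⟩
  have := hc ⟨(v, w), Finset.mem_filter.2 ⟨Finset.mem_product.2 ⟨hv, hw⟩, hvw⟩⟩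
  apply this
  simp only [innerₛₗ_apply_apply, inner_sub_left]
  linarith

/-- All but the top and the bottom element are mixed. -/
private theorem card_mixed (A : Finset E3) (f : E3 → ℝ)
    (hf : ∀ v ∈ A, ∀ w ∈ A, v ≠ w → f v ≠ f w) (hA : 2 ≤ A.card) [DecidablePred
      fun v => (∃ v1 ∈ A, f v1 < f v) ∧ ∃ v2 ∈ A, f v < f v2] :
    (A.filter fun v => (∃ v1 ∈ A, f v1 < f v) ∧ ∃ v2 ∈ A, f v < f v2).card + 2 = A.card := by
  classical
  have hne : A.Nonempty := Finset.card_pos.1 (by omega)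
  obtain ⟨a, ha, hamin⟩ := Finset.exists_min_image A f hne
  obtain ⟨b, hb, hbmax⟩ := Finset.exists_max_image A f hne
  have hab : a ≠ b := by
    intro hab
    obtain ⟨x, hx, y, hy, hxy⟩ := Finset.one_lt_card.1 (show 1 < A.card by omega)
    apply hf x hx y hy hxy
    have h1 := hamin x hx
    have h2 := hbmax x hx
    have h3 := hamin y hy
    have h4 := hbmax y hy
    rw [← hab] at h2 h4
    linarith
  have heq : (A.filter fun v => (∃ v1 ∈ A, f v1 < f v) ∧ ∃ v2 ∈ A, f v < f v2)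
      = (A.erase a).erase b := by
    ext x
    simp only [Finset.mem_filter, Finset.mem_erase]
    constructor
    · rintro ⟨hx, ⟨v1, hv1, h1⟩, v2, hv2, h2⟩
      refine ⟨?_, ?_, hx⟩
      · rintro rfl
        exact absurd (hbmax v2 hv2) (not_le.2 h2)
      · rintro rfl
        exact absurd (hamin v1 hv1) (not_le.2 h1)
    · rintro ⟨h1, h2, h3⟩
      refine ⟨h3, ⟨a, ha, lt_of_le_of_ne (hamin x h3) (hf a ha x h3 (Ne.symm h2))⟩,
        b, hb, lt_of_le_of_ne (hbmax x h3) (hf x h3 b hb h1)⟩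
  rw [heq, Finset.card_erase_of_mem (Finset.mem_erase.2 ⟨hab.symm, hb⟩),
    Finset.card_erase_of_mem ha]
  omega

private theorem tight_of_comb {V : Finset E3} {l y : E3} (hV : ∀ x ∈ V, ⟪x, l⟫_ℝ ≤ 1)
    {w : E3 → ℝ} (hw0 : ∀ x ∈ V, 0 ≤ w x) (hw1 : ∑ x ∈ V, w x = 1)
    (hy : ∑ x ∈ V, w x • x = y) (hyl : ⟪y, l⟫_ℝ = 1) :
    ∀ x ∈ V, w x ≠ 0 → ⟪x, l⟫_ℝ = 1 := by
  have h0 : ∑ x ∈ V, w x * (1 - ⟪x, l⟫_ℝ) = 0 := by
    have h1 : ∑ x ∈ V, w x * ⟪x, l⟫_ℝ = 1 := by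
      rw [← hyl, ← hy, sum_inner]
      refine Finset.sum_congr rfl fun x _ => ?_
      rw [real_inner_smul_left]
    simp only [mul_sub, mul_one, Finset.sum_sub_distrib]
    linarith
  have h1 := (Finset.sum_eq_zero_iff_of_nonneg
    (fun x hx => mul_nonneg (hw0 x hx) (by linarith [hV x hx]))).1 h0
  intro x hx hwx
  rcases mul_eq_zero.1 (h1 x hx) with h | h
  · exact absurd h hwx
  · linarith

private theorem exists_step {V L : Finset E3} (h : DPair V L) {v d : E3} (hv : v ∈ V)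
    (hd : ∀ l ∈ tight L v, ⟪d, l⟫_ℝ ≤ 0) :
    ∃ t : ℝ, 0 < t ∧ v + t • d ∈ convexHull ℝ (V : Set E3) := by
  have h1 : ∀ᶠ t in nhdsWithin (0 : ℝ) (Set.Ioi 0), ∀ l ∈ L, ⟪v + t • d, l⟫_ℝ ≤ 1 := by
    rw [Filter.eventually_all_finset]
    intro l hl
    by_cases hlt : l ∈ tight L v
    · filter_upwards [self_mem_nhdsWithin] with t ht
      have h2 := (mem_tight.1 hlt).2
      have h3 := hd l hlt
      have ht' : 0 < t := ht
      rw [real_inner_comm] at h2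
      rw [inner_add_left, real_inner_smul_left, h2]
      nlinarith
    · have h4 : ⟪v, l⟫_ℝ < 1 := lt_of_le_of_ne (h.le v hv l hl)
        (fun h5 => hlt (mem_tight.2 ⟨hl, by rw [real_inner_comm]; exact h5⟩))
      have h5 : Filter.Tendsto (fun t : ℝ => ⟪v + t • d, l⟫_ℝ) (nhds 0)
          (nhds ⟪v + (0 : ℝ) • d, l⟫_ℝ) := by
        apply Continuous.tendsto
        fun_prop
      rw [zero_smul, add_zero] at h5
      exact ((h5.eventually_lt_const h4).filter_mono nhdsWithin_le_nhds).mono fun t ht => ht.le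
  obtain ⟨t, ht1, ht2⟩ := (h1.and self_mem_nhdsWithin).exists
  exact ⟨t, ht2, (h.mem_hull_iff _).2 ht1⟩

/-- Data for a direction `d` of the polytope at the vertex `v`. -/
private theorem exists_comb {V L : Finset E3} (h : DPair V L) {v d : E3} (hv : v ∈ V)
    (hd0 : d ≠ 0) (hd : ∀ l ∈ tight L v, ⟪d, l⟫_ℝ ≤ 0) :
    ∃ (t : ℝ) (w : E3 → ℝ), 0 < t ∧ (∀ x ∈ V, 0 ≤ w x) ∧ ∑ x ∈ V, w x = 1 ∧
      ∑ x ∈ V, w x • x = v + t • d ∧ (∃ x ∈ V, x ≠ v ∧ w x ≠ 0) ∧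
      ∀ l ∈ tight L v, ⟪d, l⟫_ℝ = 0 → ∀ x ∈ V, w x ≠ 0 → ⟪x, l⟫_ℝ = 1 := by
  obtain ⟨t, ht, hy⟩ := exists_step h hv hd
  obtain ⟨w, hw0, hw1, hwy⟩ := Finset.mem_convexHull'.1 hy
  refine ⟨t, w, ht, hw0, hw1, hwy, ?_, ?_⟩
  · by_contra hcon
    push Not at hcon
    have h2 : ∑ x ∈ V, w x • x = v := by
      have h3 : ∀ x ∈ V, w x • x = w x • v := by
        intro x hx
        by_cases hxv : x = v
        · rw [hxv]
        · rw [hcon x hx hxv, zero_smul, zero_smul]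
      rw [Finset.sum_congr rfl h3, ← Finset.sum_smul, hw1, one_smul]
    rw [hwy] at h2
    have h3 : t • d = 0 := by simpa using h2
    rcases smul_eq_zero.1 h3 with h4 | h4
    · exact ht.ne' h4
    · exact hd0 h4
  · intro l hl hdl
    have hl' := mem_tight.1 hl
    refine tight_of_comb (fun x hx => h.le x hx l hl'.1) hw0 hw1 hwy ?_
    have h2 := hl'.2
    rw [real_inner_comm] at h2
    rw [inner_add_left, real_inner_smul_left, h2, hdl]
    ring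

private theorem eq_zero_of_span {s : Set E3} (hs : Submodule.span ℝ s = ⊤) {u : E3}
    (hu : ∀ a ∈ s, ⟪a, u⟫_ℝ = 0) : u = 0 := by
  have h1 : u ∈ Submodule.span ℝ s := by rw [hs]; trivial
  have h2 : ∀ x ∈ Submodule.span ℝ s, ⟪x, u⟫_ℝ = 0 := by
    intro x hx
    induction hx using Submodule.span_induction with
    | mem x hx => exact hu x hx
    | zero => exact inner_zero_left _
    | add x y _ _ h1 h2 => rw [inner_add_left, h1, h2, add_zero]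
    | smul a x _ h1 => rw [real_inner_smul_left, h1, mul_zero]
  exact inner_self_eq_zero.1 (h2 u h1)

private theorem span_of_li {a b e : E3} (hli : LinearIndependent ℝ ![a, b, e]) :
    Submodule.span ℝ (Set.range ![a, b, e]) = ⊤ := by
  apply hli.span_eq_top_of_card_eq_finrank
  simp

private theorem li_three {a b e : E3}
    (h : ∀ x y z : ℝ, x • a + y • b + z • e = 0 → x = 0 ∧ y = 0 ∧ z = 0) :
    LinearIndependent ℝ ![a, b, e] := by
  rw [Fintype.linearIndependent_iff]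
  intro g hg
  rw [Fin.sum_univ_three] at hg
  obtain ⟨h0, h1, h2⟩ := h _ _ _ hg
  intro i
  fin_cases i
  · exact h0
  · exact h1
  · exact h2

private theorem edge_unique {V L : Finset E3} (h : DPair V L) {c v d l1 l2 : E3}
    (hc : ∀ v ∈ V, ∀ w ∈ V, v ≠ w → ⟪v, c⟫_ℝ ≠ ⟪w, c⟫_ℝ) (hv : v ∈ V) (hd0 : d ≠ 0)
    (hdc : ⟪d, c⟫_ℝ = 0) (hd : ∀ l ∈ tight L v, ⟪d, l⟫_ℝ ≤ 0)
    (hl1 : l1 ∈ tight L v) (hl2 : l2 ∈ tight L v)
    (h1 : ⟪d, l1⟫_ℝ = 0) (h2 : ⟪d, l2⟫_ℝ = 0) : l1 = l2 := by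
  obtain ⟨t, w, ht, hw0, hw1, hwy, ⟨x, hxV, hxv, hwx⟩, htw⟩ := exists_comb h hv hd0 hd
  have e1 := htw l1 hl1 h1 x hxV hwx
  have e2 := htw l2 hl2 h2 x hxV hwx
  have f1 : ⟪v, l1⟫_ℝ = 1 := by rw [real_inner_comm]; exact (mem_tight.1 hl1).2
  have f2 : ⟪v, l2⟫_ℝ = 1 := by rw [real_inner_comm]; exact (mem_tight.1 hl2).2
  have hcx : ⟪x, c⟫_ℝ - ⟪v, c⟫_ℝ ≠ 0 := sub_ne_zero.2 (hc x hxV v hv hxv)
  have hli : LinearIndependent ℝ ![d, x - v, v] := by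
    apply li_three
    intro a b e hs
    have g1 : ⟪a • d + b • (x - v) + e • v, l1⟫_ℝ = 0 := by rw [hs, inner_zero_left]
    rw [inner_add_left, inner_add_left, real_inner_smul_left, real_inner_smul_left,
      real_inner_smul_left, inner_sub_left, h1, e1, f1] at g1
    have he : e = 0 := by linarith
    subst he
    have g2 : ⟪a • d + b • (x - v) + (0 : ℝ) • v, c⟫_ℝ = 0 := by rw [hs, inner_zero_left]
    rw [inner_add_left, inner_add_left, real_inner_smul_left, real_inner_smul_left,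
      real_inner_smul_left, inner_sub_left, hdc] at g2
    have hb : b = 0 := by
      have : b * (⟪x, c⟫_ℝ - ⟪v, c⟫_ℝ) = 0 := by linarith
      exact (mul_eq_zero.1 this).resolve_right hcx
    subst hb
    have ha : a • d = 0 := by simpa using hs
    exact ⟨(smul_eq_zero.1 ha).resolve_right hd0, rfl, rfl⟩
  have hz : l1 - l2 = 0 := by
    apply eq_zero_of_span (span_of_li hli)
    rintro _ ⟨i, rfl⟩
    fin_cases i
    · simp [inner_sub_right, h1, h2]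
    · simp [inner_sub_right, inner_sub_left, e1, e2, f1, f2]
    · simp [inner_sub_right, f1, f2]
  exact sub_eq_zero.1 hz

/-- Mixed vertices of a finite set. -/
private def Mix (c : E3) (A : Finset E3) (v : E3) : Prop :=
  (∃ v1 ∈ A, ⟪v1, c⟫_ℝ < ⟪v, c⟫_ℝ) ∧ ∃ v2 ∈ A, ⟪v, c⟫_ℝ < ⟪v2, c⟫_ℝ

private theorem mix_of_dir {V L : Finset E3} (h : DPair V L) {c v d l : E3}
    (hc : ∀ v ∈ V, ∀ w ∈ V, v ≠ w → ⟪v, c⟫_ℝ ≠ ⟪w, c⟫_ℝ) (hv : v ∈ V) (hd0 : d ≠ 0)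
    (hdc : ⟪d, c⟫_ℝ = 0) (hd : ∀ l ∈ tight L v, ⟪d, l⟫_ℝ ≤ 0)
    (hl : l ∈ tight L v) (h1 : ⟪d, l⟫_ℝ = 0) : Mix c (tight V l) v := by
  obtain ⟨t, w, ht, hw0, hw1, hwy, ⟨x, hxV, hxv, hwx⟩, htw⟩ := exists_comb h hv hd0 hd
  have hcx : ⟪x, c⟫_ℝ - ⟪v, c⟫_ℝ ≠ 0 := sub_ne_zero.2 (hc x hxV v hv hxv)
  have hsum : ∑ x ∈ V, w x * (⟪x, c⟫_ℝ - ⟪v, c⟫_ℝ) = 0 := by
    have h3 : ∑ x ∈ V, w x * ⟪x, c⟫_ℝ = ⟪v, c⟫_ℝ := by
      have h4 : ⟪∑ x ∈ V, w x • x, c⟫_ℝ = ⟪v, c⟫_ℝ := by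
        rw [hwy, inner_add_left, real_inner_smul_left, hdc]
        ring
      rw [← h4, sum_inner]
      refine Finset.sum_congr rfl fun x _ => ?_
      rw [real_inner_smul_left]
    simp only [mul_sub, Finset.sum_sub_distrib, ← Finset.sum_mul]
    rw [h3, hw1]
    ring
  have hex : ∃ x ∈ V, w x * (⟪x, c⟫_ℝ - ⟪v, c⟫_ℝ) ≠ 0 := ⟨x, hxV, mul_ne_zero hwx hcx⟩
  constructor
  · have hsum' : ∑ x ∈ V, -(w x * (⟪x, c⟫_ℝ - ⟪v, c⟫_ℝ)) = 0 := by
      rw [Finset.sum_neg_distrib, hsum, neg_zero]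
    obtain ⟨y, hy, hy0⟩ := Finset.exists_pos_of_sum_zero_of_exists_nonzero _ hsum'
      (by obtain ⟨x, hx, hx0⟩ := hex; exact ⟨x, hx, neg_ne_zero.2 hx0⟩)
    have hw := hw0 y hy
    have hwy0 : w y ≠ 0 := by
      intro h0
      rw [h0] at hy0
      simp at hy0
    refine ⟨y, mem_tight.2 ⟨hy, htw l hl h1 y hy hwy0⟩, ?_⟩
    by_contra hcon
    push Not at hcon
    have : 0 ≤ w y * (⟪y, c⟫_ℝ - ⟪v, c⟫_ℝ) := mul_nonneg hw (by linarith)
    linarith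
  · obtain ⟨y, hy, hy0⟩ := Finset.exists_pos_of_sum_zero_of_exists_nonzero _ hsum hex
    have hw := hw0 y hy
    have hwy0 : w y ≠ 0 := by
      intro h0
      rw [h0] at hy0
      simp at hy0
    refine ⟨y, mem_tight.2 ⟨hy, htw l hl h1 y hy hwy0⟩, ?_⟩
    by_contra hcon
    push Not at hcon
    have : w y * (⟪y, c⟫_ℝ - ⟪v, c⟫_ℝ) ≤ 0 :=
      mul_nonpos_of_nonneg_of_nonpos hw (by linarith)
    linarith

private theorem dir_of_mix {V L : Finset E3} (h : DPair V L) {c v l : E3}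
    (hv : v ∈ V) (hl : l ∈ tight L v) (hm : Mix c (tight V l) v) :
    ∃ d : E3, d ≠ 0 ∧ ⟪d, c⟫_ℝ = 0 ∧ (∀ l ∈ tight L v, ⟪d, l⟫_ℝ ≤ 0) ∧ ⟪d, l⟫_ℝ = 0 := by
  obtain ⟨⟨w1, hw1, h1⟩, w2, hw2, h2⟩ := hm
  have hw1' := mem_tight.1 hw1
  have hw2' := mem_tight.1 hw2
  have hvl : ∀ l ∈ tight L v, ⟪v, l⟫_ℝ = 1 := fun l hl => by
    rw [real_inner_comm]; exact (mem_tight.1 hl).2
  have ha : 0 < ⟪w2, c⟫_ℝ - ⟪v, c⟫_ℝ := sub_pos.2 h2
  have hb : 0 < ⟪v, c⟫_ℝ - ⟪w1, c⟫_ℝ := sub_pos.2 h1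
  have hle1 : ∀ l ∈ tight L v, ⟪w1 - v, l⟫_ℝ ≤ 0 := fun l hl => by
    rw [inner_sub_left, hvl l hl]
    linarith [h.le w1 hw1'.1 l (mem_tight.1 hl).1]
  have hle2 : ∀ l ∈ tight L v, ⟪w2 - v, l⟫_ℝ ≤ 0 := fun l hl => by
    rw [inner_sub_left, hvl l hl]
    linarith [h.le w2 hw2'.1 l (mem_tight.1 hl).1]
  refine ⟨(⟪w2, c⟫_ℝ - ⟪v, c⟫_ℝ) • (w1 - v) + (⟪v, c⟫_ℝ - ⟪w1, c⟫_ℝ) • (w2 - v), ?_, ?_, ?_, ?_⟩
  · intro hz
    have hz1 : w1 - v = 0 := by
      apply eq_zero_of_span (h.spanL v hv)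
      intro l' hl'
      have hl'' : l' ∈ tight L v := hl'
      have h3 : ⟪(⟪w2, c⟫_ℝ - ⟪v, c⟫_ℝ) • (w1 - v) + (⟪v, c⟫_ℝ - ⟪w1, c⟫_ℝ) • (w2 - v), l'⟫_ℝ = 0 := by
        rw [hz, inner_zero_left]
      rw [inner_add_left, real_inner_smul_left, real_inner_smul_left] at h3
      have h4 := hle1 l' hl''
      have h5 := hle2 l' hl''
      rw [real_inner_comm]
      by_contra hne
      have h6 : ⟪w1 - v, l'⟫_ℝ < 0 := lt_of_le_of_ne h4 hne
      have h7 := mul_neg_of_pos_of_neg ha h6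
      have h8 := mul_nonpos_of_nonneg_of_nonpos hb.le h5
      linarith
    rw [sub_eq_zero] at hz1
    rw [hz1] at h1
    exact lt_irrefl _ h1
  · rw [inner_add_left, real_inner_smul_left, real_inner_smul_left, inner_sub_left,
      inner_sub_left]
    ring
  · intro l' hl'
    rw [inner_add_left, real_inner_smul_left, real_inner_smul_left]
    have h7 := mul_nonpos_of_nonneg_of_nonpos ha.le (hle1 l' hl')
    have h8 := mul_nonpos_of_nonneg_of_nonpos hb.le (hle2 l' hl')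
    linarith
  · rw [inner_add_left, real_inner_smul_left, real_inner_smul_left, inner_sub_left,
      inner_sub_left, hw1'.2, hw2'.2, hvl l hl]
    ring

/-- The direction `d0` pointing inside the polytope. -/
private theorem exists_d0 {V L : Finset E3} (h : DPair V L) {c v : E3}
    (hm : Mix c V v) :
    ∃ d : E3, ⟪d, c⟫_ℝ = 0 ∧ ∀ l ∈ tight L v, ⟪d, l⟫_ℝ < 0 := by
  obtain ⟨⟨w1, hw1, h1⟩, w2, hw2, h2⟩ := hm
  have hvl : ∀ l ∈ tight L v, ⟪v, l⟫_ℝ = 1 := fun l hl => by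
    rw [real_inner_comm]; exact (mem_tight.1 hl).2
  have key : ∀ (w : E3) (s : ℝ), w ∈ V → 0 ≤ s → -⟪v, c⟫_ℝ + s * (⟪w, c⟫_ℝ - ⟪v, c⟫_ℝ) = 0 →
      ∃ d : E3, ⟪d, c⟫_ℝ = 0 ∧ ∀ l ∈ tight L v, ⟪d, l⟫_ℝ < 0 := by
    intro w s hw hs h0
    refine ⟨-v + s • (w - v), ?_, ?_⟩
    · rw [inner_add_left, inner_neg_left, real_inner_smul_left, inner_sub_left]
      exact h0
    · intro l hl
      rw [inner_add_left, inner_neg_left, real_inner_smul_left, inner_sub_left, hvl l hl]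
      have := mul_nonpos_of_nonneg_of_nonpos hs
        (show ⟪w, l⟫_ℝ - 1 ≤ 0 by linarith [h.le w hw l (mem_tight.1 hl).1])
      linarith
  rcases le_total 0 ⟪v, c⟫_ℝ with h3 | h3
  · have h4 : 0 < ⟪w2, c⟫_ℝ - ⟪v, c⟫_ℝ := sub_pos.2 h2
    refine key w2 (⟪v, c⟫_ℝ / (⟪w2, c⟫_ℝ - ⟪v, c⟫_ℝ)) hw2 (div_nonneg h3 h4.le) ?_
    field_simp
    ring
  · have h4 : ⟪w1, c⟫_ℝ - ⟪v, c⟫_ℝ < 0 := sub_neg.2 h1
    have h4' := h4.ne
    refine key w1 (⟪v, c⟫_ℝ / (⟪w1, c⟫_ℝ - ⟪v, c⟫_ℝ)) hw1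
      (div_nonneg_of_nonpos h3 h4.le) ?_
    field_simp
    ring

/-- The second coordinate of the plane orthogonal to `c`. -/
private theorem exists_n {c d : E3} (hc0 : c ≠ 0) (hd0 : d ≠ 0) (hdc : ⟪d, c⟫_ℝ = 0) :
    ∃ n : E3, ⟪n, c⟫_ℝ = 0 ∧ (∀ a b : ℝ, a • d + b • n = 0 → a = 0 ∧ b = 0) ∧
      ∀ x : E3, ⟪x, c⟫_ℝ = 0 → ∃ a b : ℝ, x = a • d + b • n := by
  have hcc : ⟪c, c⟫_ℝ ≠ 0 := fun h0 => hc0 (inner_self_eq_zero.1 h0)
  have h1 : Submodule.span ℝ ({d, c} : Set E3) ≠ ⊤ := by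
    intro htop
    have h2 : Module.finrank ℝ (Submodule.span ℝ ({d, c} : Set E3)) ≤ 2 := by
      classical
      have h3 := finrank_span_finset_le_card (R := ℝ) (M := E3) {d, c}
      have h4 : ({d, c} : Finset E3).card ≤ 2 := Finset.card_le_two
      have h5 : (({d, c} : Finset E3) : Set E3) = {d, c} := by simp
      have h6 : Set.finrank ℝ ((({d, c} : Finset E3) : Set E3)) ≤ 2 := h3.trans h4
      rw [h5] at h6
      exact h6
    rw [htop, finrank_top] at h2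
    simp at h2
  obtain ⟨m, -, hm⟩ := SetLike.exists_of_lt (lt_top_iff_ne_top.2 h1)
  have hnc : ⟪m - (⟪m, c⟫_ℝ / ⟪c, c⟫_ℝ) • c, c⟫_ℝ = 0 := by
    rw [inner_sub_left, real_inner_smul_left]
    field_simp
    ring
  have hind : ∀ a b e : ℝ, a • d + b • (m - (⟪m, c⟫_ℝ / ⟪c, c⟫_ℝ) • c) + e • c = 0 →
      a = 0 ∧ b = 0 ∧ e = 0 := by
    intro a b e hs
    have hb : b = 0 := by
      by_contra hb
      apply hm
      have h3 : m = (-b⁻¹ * a) • d + (⟪m, c⟫_ℝ / ⟪c, c⟫_ℝ - b⁻¹ * e) • c := by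
        have h4 : b⁻¹ • (a • d + b • (m - (⟪m, c⟫_ℝ / ⟪c, c⟫_ℝ) • c) + e • c) = 0 := by
          rw [hs, smul_zero]
        rw [smul_add, smul_add, smul_smul, smul_smul, smul_smul, inv_mul_cancel₀ hb, one_smul] at h4
        have h5 : m - ((-b⁻¹ * a) • d + (⟪m, c⟫_ℝ / ⟪c, c⟫_ℝ - b⁻¹ * e) • c) = 0 := by
          rw [← h4]
          module
        exact sub_eq_zero.1 h5
      rw [h3]
      exact Submodule.add_mem _ (Submodule.smul_mem _ _ (Submodule.subset_span (by simp)))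
        (Submodule.smul_mem _ _ (Submodule.subset_span (by simp)))
    subst hb
    rw [zero_smul, add_zero] at hs
    have h6 : ⟪a • d + e • c, c⟫_ℝ = 0 := by rw [hs, inner_zero_left]
    rw [inner_add_left, real_inner_smul_left, real_inner_smul_left, hdc, mul_zero, zero_add] at h6
    have he : e = 0 := (mul_eq_zero.1 h6).resolve_right hcc
    subst he
    rw [zero_smul, add_zero] at hs
    exact ⟨(smul_eq_zero.1 hs).resolve_right hd0, rfl, rfl⟩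
  refine ⟨m - (⟪m, c⟫_ℝ / ⟪c, c⟫_ℝ) • c, hnc, ?_, ?_⟩
  · intro a b hs
    obtain ⟨h2, h3, -⟩ := hind a b 0 (by rw [hs, zero_smul, zero_add])
    exact ⟨h2, h3⟩
  · intro x hx
    have hspan := span_of_li (li_three hind)
    have hxs : x ∈ Submodule.span ℝ
        (Set.range ![d, m - (⟪m, c⟫_ℝ / ⟪c, c⟫_ℝ) • c, c]) := by rw [hspan]; trivial
    rw [Submodule.mem_span_range_iff_exists_fun] at hxs
    obtain ⟨g, hg⟩ := hxs
    rw [Fin.sum_univ_three] at hg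
    change g 0 • d + g 1 • (m - (⟪m, c⟫_ℝ / ⟪c, c⟫_ℝ) • c) + g 2 • c = x at hg
    have h7 : ⟪g 0 • d + g 1 • (m - (⟪m, c⟫_ℝ / ⟪c, c⟫_ℝ) • c) + g 2 • c, c⟫_ℝ = 0 := by
      rw [hg, hx]
    rw [inner_add_left, inner_add_left, real_inner_smul_left, real_inner_smul_left,
      real_inner_smul_left, hdc, hnc, mul_zero, mul_zero, zero_add, zero_add] at h7
    have h8 : g 2 = 0 := (mul_eq_zero.1 h7).resolve_right hcc
    rw [h8, zero_smul, add_zero] at hg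
    exact ⟨g 0, g 1, hg.symm⟩

open Classical in
private theorem card_mix_at {V L : Finset E3} (h : DPair V L) {c v : E3}
    (hc : ∀ v ∈ V, ∀ w ∈ V, v ≠ w → ⟪v, c⟫_ℝ ≠ ⟪w, c⟫_ℝ) (hv : v ∈ V) (hm : Mix c V v) :
    ((tight L v).filter fun l => Mix c (tight V l) v).card = 2 := by
  obtain ⟨d0, hd0c, hd0⟩ := exists_d0 h hm
  have hSne : (tight L v).Nonempty := by
    rw [Finset.nonempty_iff_ne_empty]
    intro h0
    have h1 := h.spanL v hv
    rw [h0] at h1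
    simp at h1
  have hd00 : d0 ≠ 0 := by
    rintro rfl
    obtain ⟨l, hl⟩ := hSne
    have := hd0 l hl
    rw [inner_zero_left] at this
    exact lt_irrefl _ this
  have hc0 : c ≠ 0 := by
    rintro rfl
    obtain ⟨⟨w1, hw1, h1⟩, -⟩ := hm
    rw [inner_zero_right, inner_zero_right] at h1
    exact lt_irrefl _ h1
  obtain ⟨n, hnc, hli, hspan⟩ := exists_n hc0 hd00 hd0c
  have hp : ∀ l ∈ tight L v, 0 < -⟪d0, l⟫_ℝ := fun l hl => neg_pos.2 (hd0 l hl)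
  have hin : ∀ (a b : ℝ), ∀ l ∈ tight L v,
      ⟪a • d0 + b • n, l⟫_ℝ = (-⟪d0, l⟫_ℝ) * (b * (⟪n, l⟫_ℝ / (-⟪d0, l⟫_ℝ)) - a) := by
    intro a b l hl
    have := (hp l hl).ne'
    rw [inner_add_left, real_inner_smul_left, real_inner_smul_left]
    have h2 : -⟪d0, l⟫_ℝ * (b * (⟪n, l⟫_ℝ / -⟪d0, l⟫_ℝ) - a)
        = b * ((-⟪d0, l⟫_ℝ) * (⟪n, l⟫_ℝ / -⟪d0, l⟫_ℝ)) + a * ⟪d0, l⟫_ℝ := by ring
    rw [h2, mul_div_cancel₀ _ this]
    ring
  obtain ⟨l2, hl2, hmax⟩ := Finset.exists_max_image (tight L v)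
    (fun l => ⟪n, l⟫_ℝ / (-⟪d0, l⟫_ℝ)) hSne
  obtain ⟨l1, hl1, hmin⟩ := Finset.exists_min_image (tight L v)
    (fun l => ⟪n, l⟫_ℝ / (-⟪d0, l⟫_ℝ)) hSne
  -- the direction of the maximum
  have hdmax0 : (⟪n, l2⟫_ℝ / (-⟪d0, l2⟫_ℝ)) • d0 + (1 : ℝ) • n ≠ 0 := fun h0 =>
    one_ne_zero (hli _ _ h0).2
  have hdmaxc : ⟪(⟪n, l2⟫_ℝ / (-⟪d0, l2⟫_ℝ)) • d0 + (1 : ℝ) • n, c⟫_ℝ = 0 := by
    rw [inner_add_left, real_inner_smul_left, real_inner_smul_left, hd0c, hnc]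
    ring
  have hdmaxle : ∀ l ∈ tight L v,
      ⟪(⟪n, l2⟫_ℝ / (-⟪d0, l2⟫_ℝ)) • d0 + (1 : ℝ) • n, l⟫_ℝ ≤ 0 := fun l hl => by
    rw [hin _ _ l hl]
    exact mul_nonpos_of_nonneg_of_nonpos (hp l hl).le (by linarith [hmax l hl])
  have hdmaxeq : ∀ l ∈ tight L v, ⟪n, l⟫_ℝ / (-⟪d0, l⟫_ℝ) = ⟪n, l2⟫_ℝ / (-⟪d0, l2⟫_ℝ) →
      ⟪(⟪n, l2⟫_ℝ / (-⟪d0, l2⟫_ℝ)) • d0 + (1 : ℝ) • n, l⟫_ℝ = 0 := fun l hl he => by
    rw [hin _ _ l hl, he]
    ring
  have hdmin0 : (-(⟪n, l1⟫_ℝ / (-⟪d0, l1⟫_ℝ))) • d0 + (-1 : ℝ) • n ≠ 0 := fun h0 => by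
    have := (hli _ _ h0).2
    norm_num at this
  have hdminc : ⟪(-(⟪n, l1⟫_ℝ / (-⟪d0, l1⟫_ℝ))) • d0 + (-1 : ℝ) • n, c⟫_ℝ = 0 := by
    rw [inner_add_left, real_inner_smul_left, real_inner_smul_left, hd0c, hnc]
    ring
  have hdminle : ∀ l ∈ tight L v,
      ⟪(-(⟪n, l1⟫_ℝ / (-⟪d0, l1⟫_ℝ))) • d0 + (-1 : ℝ) • n, l⟫_ℝ ≤ 0 := fun l hl => by
    rw [hin _ _ l hl]
    exact mul_nonpos_of_nonneg_of_nonpos (hp l hl).le (by linarith [hmin l hl])
  have hdmineq : ∀ l ∈ tight L v, ⟪n, l⟫_ℝ / (-⟪d0, l⟫_ℝ) = ⟪n, l1⟫_ℝ / (-⟪d0, l1⟫_ℝ) →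
      ⟪(-(⟪n, l1⟫_ℝ / (-⟪d0, l1⟫_ℝ))) • d0 + (-1 : ℝ) • n, l⟫_ℝ = 0 := fun l hl he => by
    rw [hin _ _ l hl, he]
    ring
  have huniqmax : ∀ l ∈ tight L v, ⟪n, l⟫_ℝ / (-⟪d0, l⟫_ℝ) = ⟪n, l2⟫_ℝ / (-⟪d0, l2⟫_ℝ) →
      l = l2 := fun l hl he =>
    edge_unique h hc hv hdmax0 hdmaxc hdmaxle hl hl2 (hdmaxeq l hl he) (hdmaxeq l2 hl2 rfl)
  have huniqmin : ∀ l ∈ tight L v, ⟪n, l⟫_ℝ / (-⟪d0, l⟫_ℝ) = ⟪n, l1⟫_ℝ / (-⟪d0, l1⟫_ℝ) →
      l = l1 := fun l hl he =>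
    edge_unique h hc hv hdmin0 hdminc hdminle hl hl1 (hdmineq l hl he) (hdmineq l1 hl1 rfl)
  have hne : l1 ≠ l2 := by
    intro he
    subst he
    apply hdmax0
    apply eq_zero_of_span (h.spanL v hv)
    intro l hl
    have hl' : l ∈ tight L v := hl
    rw [real_inner_comm]
    exact hdmaxeq l hl' (le_antisymm (hmax l hl') (hmin l hl'))
  have heq : ((tight L v).filter fun l => Mix c (tight V l) v) = {l1, l2} := by
    ext l
    simp only [Finset.mem_filter, Finset.mem_insert, Finset.mem_singleton]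
    constructor
    · rintro ⟨hl, hml⟩
      obtain ⟨d, hdne, hdc, hdle, hdl⟩ := dir_of_mix h hv hl hml
      obtain ⟨a, b, rfl⟩ := hspan d hdc
      have hb : b ≠ 0 := by
        rintro rfl
        rw [hin _ _ l hl] at hdl
        have h3 := (mul_eq_zero.1 hdl).resolve_left (hp l hl).ne'
        have h4 : a = 0 := by linarith
        apply hdne
        rw [h4, zero_smul, zero_smul, add_zero]
      have h3 : b * (⟪n, l⟫_ℝ / (-⟪d0, l⟫_ℝ)) = a := by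
        rw [hin _ _ l hl] at hdl
        linarith [(mul_eq_zero.1 hdl).resolve_left (hp l hl).ne']
      have h4 : ∀ l' ∈ tight L v, b * (⟪n, l'⟫_ℝ / (-⟪d0, l'⟫_ℝ)) ≤ a := by
        intro l' hl'
        have h5 := hdle l' hl'
        rw [hin _ _ l' hl'] at h5
        by_contra hcon
        push Not at hcon
        have := mul_pos (hp l' hl') (sub_pos.2 hcon)
        linarith
      rcases lt_or_gt_of_ne hb with hb' | hb'
      · left
        apply huniqmin l hl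
        apply le_antisymm _ (hmin l hl)
        have h5 := h4 l1 hl1
        rw [← h3] at h5
        exact (mul_le_mul_left_of_neg hb').1 h5
      · right
        apply huniqmax l hl
        apply le_antisymm (hmax l hl)
        have h5 := h4 l2 hl2
        rw [← h3] at h5
        exact (mul_le_mul_iff_right₀ hb').1 h5
    · rintro (rfl | rfl)
      · exact ⟨hl1, mix_of_dir h hc hv hdmin0 hdminc hdminle hl1 (hdmineq _ hl1 rfl)⟩
      · exact ⟨hl2, mix_of_dir h hc hv hdmax0 hdmaxc hdmaxle hl2 (hdmaxeq _ hl2 rfl)⟩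
  rw [heq, Finset.card_pair hne]

theorem DPair.euler_two {V L : Finset E3} (h : DPair V L) :
    ∑ l ∈ L, ((tight V l).card - 2) + 4 = 2 * V.card := by
  classical
  obtain ⟨c, hc⟩ := exists_generic V
  have hLne : L.Nonempty := by
    rw [Finset.nonempty_iff_ne_empty]
    rintro rfl
    rcases V.eq_empty_or_nonempty with rfl | ⟨v, hv⟩
    · have := h.hullV 0 (by simp)
      simp at this
    · have h1 := h.spanL v hv
      have h2 : tight (∅ : Finset E3) v = ∅ := by simp [tight]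
      rw [h2] at h1
      simp at h1
  have hVcard : 2 ≤ V.card := by
    obtain ⟨l, hl⟩ := hLne
    have h1 := h.three_le hl
    have h2 : (tight V l).card ≤ V.card := Finset.card_le_card fun a ha => (mem_tight.1 ha).1
    omega
  have hL : ∀ l ∈ L, (tight V l).card - 2
      = ((V.filter fun v => ⟪v, l⟫_ℝ = 1 ∧ Mix c (tight V l) v)).card := by
    intro l hl
    have h1 := card_mixed (tight V l) (fun v => ⟪v, c⟫_ℝ)
      (fun v hv w hw => hc v (mem_tight.1 hv).1 w (mem_tight.1 hw).1)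
      (by have := h.three_le hl; omega)
    have h2 : (V.filter fun v => ⟪v, l⟫_ℝ = 1 ∧ Mix c (tight V l) v)
        = ((tight V l).filter fun v => (∃ v1 ∈ tight V l, ⟪v1, c⟫_ℝ < ⟪v, c⟫_ℝ) ∧
          ∃ v2 ∈ tight V l, ⟪v, c⟫_ℝ < ⟪v2, c⟫_ℝ) := by
      ext v
      simp only [Finset.mem_filter, mem_tight, Mix]
      tauto
    rw [h2]
    omega
  rw [Finset.sum_congr rfl hL]
  have hswap : ∑ l ∈ L, ((V.filter fun v => ⟪v, l⟫_ℝ = 1 ∧ Mix c (tight V l) v)).card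
      = ∑ v ∈ V, ((L.filter fun l => ⟪v, l⟫_ℝ = 1 ∧ Mix c (tight V l) v)).card := by
    simp only [Finset.card_filter]
    rw [Finset.sum_comm]
  rw [hswap]
  have hV : ∀ v ∈ V, ((L.filter fun l => ⟪v, l⟫_ℝ = 1 ∧ Mix c (tight V l) v)).card
      = if Mix c V v then 2 else 0 := by
    intro v hv
    have h2 : (L.filter fun l => ⟪v, l⟫_ℝ = 1 ∧ Mix c (tight V l) v)
        = (tight L v).filter fun l => Mix c (tight V l) v := by
      ext l
      simp only [Finset.mem_filter, mem_tight]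
      rw [real_inner_comm]
      tauto
    rw [h2]
    split_ifs with hm
    · exact card_mix_at h hc hv hm
    · rw [Finset.card_eq_zero, Finset.filter_eq_empty_iff]
      intro l _ hml
      apply hm
      obtain ⟨⟨w1, hw1, h1⟩, w2, hw2, h2⟩ := hml
      exact ⟨⟨w1, (mem_tight.1 hw1).1, h1⟩, w2, (mem_tight.1 hw2).1, h2⟩
  rw [Finset.sum_congr rfl hV, ← Finset.sum_filter, Finset.sum_const, smul_eq_mul]
  have h3 := card_mixed V (fun v => ⟪v, c⟫_ℝ) hc hVcard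
  have h4 : (V.filter fun v => Mix c V v) = (V.filter fun v => (∃ v1 ∈ V, ⟪v1, c⟫_ℝ < ⟪v, c⟫_ℝ) ∧
          ∃ v2 ∈ V, ⟪v, c⟫_ℝ < ⟪v2, c⟫_ℝ) := by
    ext v
    rw [Finset.mem_filter, Finset.mem_filter]
    rfl
  rw [h4]
  omega

/-- The Euler identity in the form used later. -/
theorem DPair.euler {V L : Finset E3} (h : DPair V L) : alpha V L + L.card + 4 = 2 * V.card := by
  have h1 := h.euler_two
  have h2 : ∑ l ∈ L, ((tight V l).card - 2) = alpha V L + L.card := by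
    unfold alpha
    rw [Finset.card_eq_sum_ones, ← Finset.sum_add_distrib]
    refine Finset.sum_congr rfl fun l hl => ?_
    have := h.three_le hl
    omega
  omega

theorem DPair.euler' {V L : Finset E3} (h : DPair V L) : alpha L V + V.card + 4 = 2 * L.card :=
  h.symm.euler

end Pool.Agent.SymPoly
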