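import Pool.Agent.Lib.MP_742c35_co.Faces
import Pool.Agent.Lib.MP_742c35_co.Euler

/-!
# JOB EDGES: the number of edges

Call `{v, w} ⊆ V`, `v ≠ w`, an edge pair if `2 ≤ (tight L v ∩ tight L w).card`. Then:
(1) `faces P 1` is in bijection with the edge pairs, `{v, w} ↦ segment`.
(2) For `v ∈ tight V l` there are exactly two `w` such that `{v, w}` is an edge pair with `w ∈ tight V l`.
(3) For an edge pair `tight L v ∩ tight L w` has exactly two elements (`card_le_two` for the dual pair).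
Double counting of the flags.
-/

set_option autoImplicit false

open Set Module
open scoped InnerProductSpace

namespace Pool.Agent.SymPoly

/-- A basis of a plane containing a given vector. -/
private theorem exists_plane {l d0 : E3} (hl : l ≠ 0) (hd : ⟪d0, l⟫_ℝ = 0) (hd0 : d0 ≠ 0) :
    ∃ n : E3, ⟪n, l⟫_ℝ = 0 ∧ (∀ r : ℝ, r • d0 + n ≠ 0) ∧
      ∀ x : E3, ⟪x, l⟫_ℝ = 0 → ∃ a b : ℝ, x = a • d0 + b • n := by
  have : Fact (finrank ℝ E3 = 2 + 1) := ⟨by simp⟩
  have hW : finrank ℝ (ℝ ∙ l)ᗮ = 2 := Submodule.finrank_orthogonal_span_singleton hl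
  have hmem : ∀ x : E3, x ∈ (ℝ ∙ l)ᗮ ↔ ⟪x, l⟫_ℝ = 0 := fun x => by
    rw [Submodule.mem_orthogonal_singleton_iff_inner_left]
  obtain ⟨y, hy⟩ := exists_linearIndependent_pair_of_one_lt_finrank (R := ℝ)
    (M := (ℝ ∙ l)ᗮ) (by omega) (x := ⟨d0, (hmem d0).2 hd⟩)
    (by intro h; exact hd0 (congrArg Subtype.val h))
  refine ⟨y, (hmem _).1 y.2, ?_, ?_⟩
  · intro r hr
    have h1 : r • (⟨d0, (hmem d0).2 hd⟩ : (ℝ ∙ l)ᗮ) + (1 : ℝ) • y = 0 := by
      apply Subtype.ext
      simpa using hr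
    have h2 := (LinearIndependent.pair_iff.1 hy) r 1 h1
    exact one_ne_zero h2.2
  · intro x hx
    have htop := hy.span_eq_top_of_card_eq_finrank (by rw [hW]; simp)
    have hxm : (⟨x, (hmem x).2 hx⟩ : (ℝ ∙ l)ᗮ) ∈ Submodule.span ℝ
        (Set.range ![(⟨d0, (hmem d0).2 hd⟩ : (ℝ ∙ l)ᗮ), y]) := by rw [htop]; trivial
    rw [Matrix.range_cons, Matrix.range_cons, Matrix.range_empty, Set.union_empty,
      Set.singleton_union, Submodule.mem_span_pair] at hxm
    obtain ⟨a, b, hab⟩ := hxm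
    exact ⟨a, b, (congrArg Subtype.val hab).symm⟩

/-- Moving a little bit from a vertex in a direction in its tangent cone. -/
private theorem exists_step {V L : Finset E3} (h : DPair V L) {v d : E3} (hv : v ∈ V)
    (hd : ∀ l ∈ tight L v, ⟪d, l⟫_ℝ ≤ 0) :
    ∃ t : ℝ, 0 < t ∧ v + t • d ∈ convexHull ℝ (V : Set E3) := by
  have hev : ∀ᶠ t : ℝ in nhdsWithin 0 (Set.Ioi 0), ∀ l ∈ L, ⟪v + t • d, l⟫_ℝ ≤ 1 := by
    rw [Filter.eventually_all_finset]
    intro l hl
    by_cases hlt : ⟪v, l⟫_ℝ = 1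
    · have h1 : ⟪d, l⟫_ℝ ≤ 0 := hd l (mem_tight.2 ⟨hl, by rw [real_inner_comm]; exact hlt⟩)
      filter_upwards [self_mem_nhdsWithin] with t ht
      have ht' : (0 : ℝ) < t := ht
      rw [inner_add_left, real_inner_smul_left]
      nlinarith
    · have h1 : ⟪v, l⟫_ℝ < 1 := lt_of_le_of_ne (h.le v hv l hl) hlt
      have hc : Continuous fun t : ℝ => ⟪v + t • d, l⟫_ℝ := by fun_prop
      have h2 : ∀ᶠ t : ℝ in nhds 0, ⟪v + t • d, l⟫_ℝ < 1 := by
        apply hc.continuousAt.eventually_lt_const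
        simpa using h1
      exact (h2.filter_mono nhdsWithin_le_nhds).mono fun t ht => ht.le
  obtain ⟨t, ht1, ht2⟩ := (hev.and self_mem_nhdsWithin).exists
  exact ⟨t, ht2, (h.mem_hull_iff _).2 ht1⟩

/-- The face where two functionals are tight. -/
private theorem face_two {V : Finset E3} {l l1 : E3}
    (hl : ∀ v ∈ V, ⟪v, l⟫_ℝ ≤ 1) (hl1 : ∀ v ∈ V, ⟪v, l1⟫_ℝ ≤ 1) {y : E3}
    (hy : y = (1 / 2 : ℝ) • l + (1 / 2 : ℝ) • l1) :
    (∀ v ∈ V, ⟪v, y⟫_ℝ ≤ 1) ∧ tight V y = tight V l ∩ tight V l1 := by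
  subst hy
  constructor
  · intro v hv
    have h1 := hl v hv
    have h2 := hl1 v hv
    rw [inner_add_right, real_inner_smul_right, real_inner_smul_right]
    linarith
  · ext v
    rw [Finset.mem_inter, mem_tight, mem_tight, mem_tight, inner_add_right,
      real_inner_smul_right, real_inner_smul_right]
    constructor
    · rintro ⟨hv, h3⟩
      have h1 := hl v hv
      have h2 := hl1 v hv
      exact ⟨⟨hv, by linarith⟩, ⟨hv, by linarith⟩⟩
    · rintro ⟨⟨hv, h1⟩, ⟨-, h2⟩⟩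
      exact ⟨hv, by rw [h1, h2]; norm_num⟩

private theorem card_le_dual {V L : Finset E3} (h : DPair V L) {v w a b c : E3} (hvw : v ≠ w)
    (ha : a ∈ L) (hb : b ∈ L) (hc : c ∈ L) (hab : a ≠ b) (hac : a ≠ c) (hbc : b ≠ c)
    (ha1 : ⟪v, a⟫_ℝ = 1) (hb1 : ⟪v, b⟫_ℝ = 1) (hc1 : ⟪v, c⟫_ℝ = 1)
    (ha2 : ⟪w, a⟫_ℝ = 1) (hb2 : ⟪w, b⟫_ℝ = 1) (hc2 : ⟪w, c⟫_ℝ = 1) : False := by
  classical
  have h1 := h.symm.card_le_two hvw
  have h2 : ({a, b, c} : Finset E3) ⊆ tight L v ∩ tight L w := by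
    intro x hx
    simp only [Finset.mem_insert, Finset.mem_singleton] at hx
    rw [Finset.mem_inter, mem_tight, mem_tight, real_inner_comm, real_inner_comm w x]
    rcases hx with rfl | rfl | rfl
    · exact ⟨⟨ha, ha1⟩, ha, ha2⟩
    · exact ⟨⟨hb, hb1⟩, hb, hb2⟩
    · exact ⟨⟨hc, hc1⟩, hc, hc2⟩
  have h3 := Finset.card_le_card h2
  rw [Finset.card_eq_three.2 ⟨a, b, c, hab, hac, hbc, rfl⟩] at h3
  omega

/-- The neighbour in the direction of the maximal slope. -/
private theorem max_edge {V L : Finset E3} (h : DPair V L) {l v d0 n : E3} (hl : l ∈ L)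
    (hv : v ∈ V) (hvl : ⟪v, l⟫_ℝ = 1) (hd0l : ⟪d0, l⟫_ℝ = 0)
    (hd0 : ∀ l' ∈ L, l' ≠ l → ⟪v, l'⟫_ℝ = 1 → ⟪d0, l'⟫_ℝ < 0)
    (hnl : ⟪n, l⟫_ℝ = 0) (hn : ∀ r : ℝ, r • d0 + n ≠ 0) :
    ∃ l1 w1 : E3, l1 ∈ L ∧ l1 ≠ l ∧ ⟪v, l1⟫_ℝ = 1 ∧ w1 ≠ v ∧
      tight V l ∩ tight V l1 = {v, w1} ∧
      (∀ l' ∈ L, l' ≠ l → ⟪v, l'⟫_ℝ = 1 →
        ⟪n, l'⟫_ℝ / (-⟪d0, l'⟫_ℝ) ≤ ⟪n, l1⟫_ℝ / (-⟪d0, l1⟫_ℝ)) ∧
      (∀ l' ∈ L, l' ≠ l → ⟪v, l'⟫_ℝ = 1 →
        ⟪n, l'⟫_ℝ / (-⟪d0, l'⟫_ℝ) = ⟪n, l1⟫_ℝ / (-⟪d0, l1⟫_ℝ) → l' = l1) := by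
  classical
  set T : Finset E3 := (tight L v).erase l with hT
  have hmT : ∀ x, x ∈ T ↔ x ∈ L ∧ x ≠ l ∧ ⟪v, x⟫_ℝ = 1 := by
    intro x
    rw [hT, Finset.mem_erase, mem_tight, real_inner_comm]
    tauto
  have hTne : T.Nonempty := by
    rw [← Finset.card_pos, hT]
    have h3 := h.symm.three_le hv
    have := Finset.pred_card_le_card_erase (s := tight L v) (a := l)
    omega
  obtain ⟨l1, hl1T, hmax⟩ := Finset.exists_max_image T
    (fun l' => ⟪n, l'⟫_ℝ / (-⟪d0, l'⟫_ℝ)) hTne
  obtain ⟨hl1, hl1l, hl1v⟩ := (hmT l1).1 hl1T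
  set r := ⟪n, l1⟫_ℝ / (-⟪d0, l1⟫_ℝ) with hr
  have hmax' : ∀ l' ∈ L, l' ≠ l → ⟪v, l'⟫_ℝ = 1 → ⟪n, l'⟫_ℝ / (-⟪d0, l'⟫_ℝ) ≤ r :=
    fun l' h1 h2 h3 => hmax l' ((hmT l').2 ⟨h1, h2, h3⟩)
  set d1 := r • d0 + n with hd1
  have hd1ne : d1 ≠ 0 := hn r
  have hd1l : ⟪d1, l⟫_ℝ = 0 := by
    rw [hd1, inner_add_left, real_inner_smul_left, hd0l, hnl]; simp
  have hd1v : ∀ l' ∈ L, l' ≠ l → ⟪v, l'⟫_ℝ = 1 →
      ⟪d1, l'⟫_ℝ = (-⟪d0, l'⟫_ℝ) * (⟪n, l'⟫_ℝ / (-⟪d0, l'⟫_ℝ) - r) := by
    intro l' h1 h2 h3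
    have h4 := hd0 l' h1 h2 h3
    rw [hd1, inner_add_left, real_inner_smul_left, mul_sub, mul_div_cancel₀]
    · ring
    · linarith
  have hne : v ≠ v + d1 := by
    intro h'
    exact hd1ne (by simpa using h')
  have huniq : ∀ l' ∈ L, l' ≠ l → ⟪v, l'⟫_ℝ = 1 → ⟪n, l'⟫_ℝ / (-⟪d0, l'⟫_ℝ) = r → l' = l1 := by
    intro l' h1 h2 h3 h4
    by_contra hll
    have h5 : ⟪d1, l'⟫_ℝ = 0 := by rw [hd1v l' h1 h2 h3, h4]; simp
    have h6 : ⟪d1, l1⟫_ℝ = 0 := by rw [hd1v l1 hl1 hl1l hl1v, ← hr]; simp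
    exact card_le_dual h hne hl h1 hl1 (Ne.symm h2) (Ne.symm hl1l) hll hvl h3 hl1v
      (by rw [inner_add_left, hvl, hd1l]; simp) (by rw [inner_add_left, h3, h5]; simp)
      (by rw [inner_add_left, hl1v, h6]; simp)
  have hd1l1 : ⟪d1, l1⟫_ℝ = 0 := by rw [hd1v l1 hl1 hl1l hl1v, ← hr]; simp
  obtain ⟨t, ht, htm⟩ := exists_step h hv (d := d1) (by
    intro l' hl'
    rw [mem_tight, real_inner_comm] at hl'
    by_cases hll : l' = l
    · rw [hll, hd1l]
    · rw [hd1v l' hl'.1 hll hl'.2]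
      have h1 := hmax' l' hl'.1 hll hl'.2
      have h2 := hd0 l' hl'.1 hll hl'.2
      nlinarith)
  obtain ⟨hy1, hy2⟩ := face_two (V := V) (fun v hv => h.le v hv l hl) (fun v hv => h.le v hv l1 hl1) rfl
  have hmem : v + t • d1 ∈ convexHull ℝ
      ((tight V l ∩ tight V l1 : Finset E3) : Set E3) := by
    rw [← hy2, ← h.face_eq_convexHull hy1]
    refine ⟨htm, ?_⟩
    rw [inner_add_right, inner_add_left, inner_add_left, real_inner_smul_left,
      real_inner_smul_left, real_inner_smul_right, real_inner_smul_right, real_inner_smul_right,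
      real_inner_smul_right, hd1l, hd1l1, hvl, hl1v]
    norm_num
  have hex : ∃ w1 ∈ tight V l ∩ tight V l1, w1 ≠ v := by
    by_contra hcon
    push Not at hcon
    have hsub : ((tight V l ∩ tight V l1 : Finset E3) : Set E3) ⊆ {v} := fun x hx =>
      hcon x (Finset.mem_coe.1 hx)
    have h1 := convexHull_mono (𝕜 := ℝ) hsub hmem
    rw [convexHull_singleton, Set.mem_singleton_iff] at h1
    have h2 : t • d1 = 0 := by simpa using h1
    rcases smul_eq_zero.1 h2 with h3 | h3
    · exact ht.ne' h3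
    · exact hd1ne h3
  obtain ⟨w1, hw1, hw1v⟩ := hex
  refine ⟨l1, w1, hl1, hl1l, hl1v, hw1v, ?_, hmax', huniq⟩
  symm
  apply Finset.eq_of_subset_of_card_le
  · intro x hx
    simp only [Finset.mem_insert, Finset.mem_singleton] at hx
    rcases hx with rfl | rfl
    · rw [Finset.mem_inter, mem_tight, mem_tight]
      exact ⟨⟨hv, hvl⟩, hv, hl1v⟩
    · exact hw1
  · rw [Finset.card_pair (Ne.symm hw1v)]
    exact h.card_le_two (Ne.symm hl1l)

/-- Exactly two edges of a facet at each of its vertices. -/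
private theorem two_edges {V L : Finset E3} (h : DPair V L) {l v : E3} (hl : l ∈ L)
    (hv : v ∈ V) (hvl : ⟪v, l⟫_ℝ = 1) :
    ∃ l1 l2 w1 w2 : E3, l1 ∈ L ∧ l2 ∈ L ∧ l1 ≠ l ∧ l2 ≠ l ∧ w1 ≠ v ∧ w2 ≠ v ∧ w1 ≠ w2 ∧
      tight V l ∩ tight V l1 = {v, w1} ∧ tight V l ∩ tight V l2 = {v, w2} ∧
      ∀ w ∈ tight V l, w ≠ v → ∀ l' ∈ L, l' ≠ l → ⟪v, l'⟫_ℝ = 1 → ⟪w, l'⟫_ℝ = 1 →
        w = w1 ∨ w = w2 := by
  classical
  set d0 : E3 := ∑ w ∈ tight V l, (w - v) with hd0
  have hin : ∀ x : E3, ⟪d0, x⟫_ℝ = ∑ w ∈ tight V l, (⟪w, x⟫_ℝ - ⟪v, x⟫_ℝ) := by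
    intro x
    rw [hd0, sum_inner]
    exact Finset.sum_congr rfl fun w _ => inner_sub_left _ _ _
  have hd0l : ⟪d0, l⟫_ℝ = 0 := by
    rw [hin]
    refine Finset.sum_eq_zero fun w hw => ?_
    rw [(mem_tight.1 hw).2, hvl]; simp
  have hd0' : ∀ l' ∈ L, l' ≠ l → ⟪v, l'⟫_ℝ = 1 → ⟪d0, l'⟫_ℝ < 0 := by
    intro l' h1 h2 h3
    rw [hin]
    have hle : ∀ w ∈ tight V l, ⟪w, l'⟫_ℝ - ⟪v, l'⟫_ℝ ≤ 0 := fun w hw => by
      have := h.le w (mem_tight.1 hw).1 l' h1
      linarith
    have hex : ∃ w ∈ tight V l, ⟪w, l'⟫_ℝ - ⟪v, l'⟫_ℝ < 0 := by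
      by_contra hcon
      push Not at hcon
      apply h2
      refine DPair.eq_of_tight (A := V) (y := l) (z := l') (h.spanV l hl) fun w hw => ?_
      have h4 := hle w hw
      have h5 := hcon w hw
      linarith
    calc ∑ w ∈ tight V l, (⟪w, l'⟫_ℝ - ⟪v, l'⟫_ℝ) < ∑ w ∈ tight V l, (0 : ℝ) :=
          Finset.sum_lt_sum hle hex
      _ = 0 := by simp
  have h3L := h.symm.three_le hv
  have hlne : l ≠ 0 := by
    rintro rfl
    rw [inner_zero_right] at hvl
    exact zero_ne_one hvl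
  have hd0ne : d0 ≠ 0 := by
    intro h0
    have : ∃ l' ∈ tight L v, l' ≠ l := by
      by_contra hcon
      push Not at hcon
      have : tight L v ⊆ {l} := fun x hx => Finset.mem_singleton.2 (hcon x hx)
      have := Finset.card_le_card this
      simp at this
      omega
    obtain ⟨l', hl', hll⟩ := this
    rw [mem_tight, real_inner_comm] at hl'
    have := hd0' l' hl'.1 hll hl'.2
    rw [h0, inner_zero_left] at this
    exact lt_irrefl _ this
  obtain ⟨n, hnl, hn, hplane⟩ := exists_plane hlne hd0l hd0ne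
  obtain ⟨l1, w1, hl1, hl1l, hl1v, hw1v, hint1, hmax1, huniq1⟩ :=
    max_edge h hl hv hvl hd0l hd0' hnl hn
  obtain ⟨l2, w2, hl2, hl2l, hl2v, hw2v, hint2, hmax2, huniq2⟩ :=
    max_edge h hl hv hvl hd0l hd0' (n := -n) (by rw [inner_neg_left, hnl]; simp) (by
      intro r hr
      apply hn (-r)
      have : -(r • d0 + -n) = 0 := by rw [hr]; simp
      rw [← this, neg_smul]
      abel)
  have hll : l1 ≠ l2 := by
    rintro rfl
    have hall : ∀ x ∈ tight L v, x = l ∨ x = l1 := by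
      intro x hx
      rw [mem_tight, real_inner_comm] at hx
      by_cases hxl : x = l
      · exact Or.inl hxl
      · right
        apply huniq1 x hx.1 hxl hx.2
        apply le_antisymm (hmax1 x hx.1 hxl hx.2)
        have := hmax2 x hx.1 hxl hx.2
        rw [inner_neg_left, inner_neg_left, neg_div, neg_div] at this
        linarith
    have : tight L v ⊆ {l, l1} := fun x hx => by
      simpa using hall x hx
    have := Finset.card_le_card this
    have h2 : ({l, l1} : Finset E3).card ≤ 2 := Finset.card_le_two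
    omega
  have hw1m : w1 ∈ tight V l ∩ tight V l1 := by rw [hint1]; simp
  have hw2m : w2 ∈ tight V l ∩ tight V l2 := by rw [hint2]; simp
  simp only [Finset.mem_inter, mem_tight] at hw1m hw2m
  refine ⟨l1, l2, w1, w2, hl1, hl2, hl1l, hl2l, hw1v, hw2v, ?_, hint1, hint2, ?_⟩
  · rintro rfl
    exact card_le_dual h (Ne.symm hw1v) hl hl1 hl2 (Ne.symm hl1l) (Ne.symm hl2l) hll
      hvl hl1v hl2v hw1m.1.2 hw1m.2.2 hw2m.2.2
  · intro w hw hwv l' hl' hl'l hvl' hwl'
    have hwl : ⟪w - v, l⟫_ℝ = 0 := by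
      rw [inner_sub_left, (mem_tight.1 hw).2, hvl]; simp
    obtain ⟨a, b, hab⟩ := hplane (w - v) hwl
    have hneg : ∀ x ∈ L, ⟪v, x⟫_ℝ = 1 → a * ⟪d0, x⟫_ℝ + b * ⟪n, x⟫_ℝ ≤ 0 := by
      intro x hx hvx
      have h1 := h.le w (mem_tight.1 hw).1 x hx
      have h2 : ⟪w - v, x⟫_ℝ ≤ 0 := by rw [inner_sub_left]; linarith
      rwa [hab, inner_add_left, real_inner_smul_left, real_inner_smul_left] at h2
    have heq : a * ⟪d0, l'⟫_ℝ + b * ⟪n, l'⟫_ℝ = 0 := by
      have h2 : ⟪w - v, l'⟫_ℝ = 0 := by rw [inner_sub_left, hwl', hvl']; simp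
      rwa [hab, inner_add_left, real_inner_smul_left, real_inner_smul_left] at h2
    have hdl' := hd0' l' hl' hl'l hvl'
    have hslope : ∀ x ∈ L, x ≠ l → ⟪v, x⟫_ℝ = 1 →
        b * (⟪n, x⟫_ℝ / (-⟪d0, x⟫_ℝ)) ≤ a := by
      intro x hx hxl hvx
      have h1 := hneg x hx hvx
      have h2 := hd0' x hx hxl hvx
      rw [← mul_div_assoc, div_le_iff₀ (by linarith)]
      linarith
    have hslope' : b * (⟪n, l'⟫_ℝ / (-⟪d0, l'⟫_ℝ)) = a := by
      rw [← mul_div_assoc, div_eq_iff (by linarith)]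
      linarith
    have hfin : l' = l1 ∨ l' = l2 := by
      rcases lt_trichotomy b 0 with hb | hb | hb
      · right
        apply huniq2 l' hl' hl'l hvl'
        apply le_antisymm (hmax2 l' hl' hl'l hvl')
        have h1 := hslope l2 hl2 hl2l hl2v
        rw [← hslope'] at h1
        rw [inner_neg_left, inner_neg_left, neg_div, neg_div, neg_le_neg_iff]
        exact (mul_le_mul_left_of_neg hb).1 h1
      · exfalso
        rw [hb] at heq
        have ha : a ≠ 0 := by
          rintro rfl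
          rw [hb] at hab
          exact hwv (sub_eq_zero.1 (by simpa using hab))
        have : a * ⟪d0, l'⟫_ℝ = 0 := by linarith
        rcases mul_eq_zero.1 this with h1 | h1
        · exact ha h1
        · linarith
      · left
        apply huniq1 l' hl' hl'l hvl'
        apply le_antisymm (hmax1 l' hl' hl'l hvl')
        have h1 := hslope l1 hl1 hl1l hl1v
        rw [← hslope'] at h1
        exact le_of_mul_le_mul_left h1 hb
    have hwV := (mem_tight.1 hw).1
    rcases hfin with rfl | rfl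
    · left
      have : w ∈ tight V l ∩ tight V l' := by
        rw [Finset.mem_inter, mem_tight, mem_tight]
        exact ⟨mem_tight.1 hw, hwV, hwl'⟩
      rw [hint1] at this
      simp only [Finset.mem_insert, Finset.mem_singleton] at this
      exact this.resolve_left hwv
    · right
      have : w ∈ tight V l ∩ tight V l' := by
        rw [Finset.mem_inter, mem_tight, mem_tight]
        exact ⟨mem_tight.1 hw, hwV, hwl'⟩
      rw [hint2] at this
      simp only [Finset.mem_insert, Finset.mem_singleton] at this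
      exact this.resolve_left hwv

open Classical in
/-- The edge pairs. -/
private noncomputable def edgeSet (V L : Finset E3) : Finset (Finset E3) :=
  (V.powersetCard 2).filter fun e => 2 ≤ (L.filter fun l => e ⊆ tight V l).card

private theorem card_edge_facets {V L : Finset E3} (h : DPair V L) {e : Finset E3}
    (he : e ∈ edgeSet V L) : ({l ∈ L | e ⊆ tight V l} : Finset E3).card = 2 := by
  classical
  simp only [edgeSet, Finset.mem_filter, Finset.mem_powersetCard] at he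
  obtain ⟨⟨heV, hec⟩, h2⟩ := he
  obtain ⟨v, w, hvw, rfl⟩ := Finset.card_eq_two.1 hec
  refine le_antisymm ?_ (by convert h2)
  refine le_trans (Finset.card_le_card ?_) (h.symm.card_le_two hvw)
  intro l hl
  rw [Finset.mem_filter] at hl
  have hv := hl.2 (show v ∈ ({v, w} : Finset E3) by simp)
  have hw := hl.2 (show w ∈ ({v, w} : Finset E3) by simp)
  rw [mem_tight] at hv hw
  rw [Finset.mem_inter, mem_tight, mem_tight, real_inner_comm, real_inner_comm w l]
  exact ⟨⟨hl.1, hv.2⟩, hl.1, hw.2⟩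

private theorem card_edges_at {V L : Finset E3} (h : DPair V L) {l v : E3} (hl : l ∈ L)
    (hv : v ∈ tight V l) :
    ({e ∈ edgeSet V L | e ⊆ tight V l ∧ v ∈ e} : Finset (Finset E3)).card = 2 := by
  classical
  rw [mem_tight] at hv
  obtain ⟨l1, l2, w1, w2, hl1, hl2, hl1l, hl2l, hw1v, hw2v, hw12, hint1, hint2, hall⟩ :=
    two_edges h hl hv.1 hv.2
  have hsub : ∀ l1 w1 : E3, l1 ∈ L → l1 ≠ l → w1 ≠ v → tight V l ∩ tight V l1 = {v, w1} →
      ({v, w1} : Finset E3) ∈ edgeSet V L ∧ ({v, w1} : Finset E3) ⊆ tight V l := by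
    intro l1 w1 hl1 hl1l hw1v hint1
    have hs1 : ({v, w1} : Finset E3) ⊆ tight V l := by
      rw [← hint1]; exact Finset.inter_subset_left
    have hs2 : ({v, w1} : Finset E3) ⊆ tight V l1 := by
      rw [← hint1]; exact Finset.inter_subset_right
    refine ⟨?_, hs1⟩
    simp only [edgeSet, Finset.mem_filter, Finset.mem_powersetCard]
    refine ⟨⟨fun x hx => (mem_tight.1 (hs1 hx)).1, Finset.card_pair (Ne.symm hw1v)⟩, ?_⟩
    have : ({l, l1} : Finset E3) ⊆ L.filter fun l => ({v, w1} : Finset E3) ⊆ tight V l := by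
      intro x hx
      simp only [Finset.mem_insert, Finset.mem_singleton] at hx
      rw [Finset.mem_filter]
      rcases hx with rfl | rfl
      · exact ⟨hl, hs1⟩
      · exact ⟨hl1, hs2⟩
    have h3 := Finset.card_le_card this
    rw [Finset.card_pair (Ne.symm hl1l)] at h3
    convert h3
  obtain ⟨ha1, ha2⟩ := hsub l1 w1 hl1 hl1l hw1v hint1
  obtain ⟨hb1, hb2⟩ := hsub l2 w2 hl2 hl2l hw2v hint2
  have hset : ({e ∈ edgeSet V L | e ⊆ tight V l ∧ v ∈ e} : Finset (Finset E3)) =
      {{v, w1}, {v, w2}} := by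
    ext e
    simp only [Finset.mem_filter, Finset.mem_insert, Finset.mem_singleton]
    constructor
    · rintro ⟨he, hel, hve⟩
      have he' := he
      simp only [edgeSet, Finset.mem_filter, Finset.mem_powersetCard] at he
      obtain ⟨⟨heV, hec⟩, h2⟩ := he
      obtain ⟨w, hwv, rfl⟩ : ∃ w, w ≠ v ∧ e = {v, w} := by
        obtain ⟨a, b, hab, rfl⟩ := Finset.card_eq_two.1 hec
        simp only [Finset.mem_insert, Finset.mem_singleton] at hve
        rcases hve with rfl | rfl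
        · exact ⟨b, Ne.symm hab, rfl⟩
        · exact ⟨a, hab, Finset.pair_comm _ _⟩
      obtain ⟨l', hl', hl'l⟩ : ∃ l' ∈ L.filter (fun l => ({v, w} : Finset E3) ⊆ tight V l),
          l' ≠ l := by
        apply Finset.exists_mem_ne
        have h3 : 2 ≤ (L.filter (fun l => ({v, w} : Finset E3) ⊆ tight V l)).card := by
          convert h2
        omega
      rw [Finset.mem_filter] at hl'
      have hv' := hl'.2 (show v ∈ ({v, w} : Finset E3) by simp)
      have hw' := hl'.2 (show w ∈ ({v, w} : Finset E3) by simp)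
      rw [mem_tight] at hv' hw'
      rcases hall w (hel (by simp)) hwv l' hl'.1 hl'l hv'.2 hw'.2 with rfl | rfl
      · exact Or.inl rfl
      · exact Or.inr rfl
    · rintro (rfl | rfl)
      · exact ⟨ha1, ha2, by simp⟩
      · exact ⟨hb1, hb2, by simp⟩
  rw [hset]
  apply Finset.card_pair
  intro heq
  have : w1 ∈ ({v, w2} : Finset E3) := by rw [← heq]; simp
  simp only [Finset.mem_insert, Finset.mem_singleton] at this
  rcases this with h1 | h1
  · exact hw1v h1
  · exact hw12 h1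

private theorem card_facet_edges {V L : Finset E3} (h : DPair V L) {l : E3} (hl : l ∈ L) :
    ({e ∈ edgeSet V L | e ⊆ tight V l} : Finset (Finset E3)).card = (tight V l).card := by
  classical
  have h1 := Finset.sum_card_bipartiteAbove_eq_sum_card_bipartiteBelow
    (s := ({e ∈ edgeSet V L | e ⊆ tight V l} : Finset (Finset E3))) (t := tight V l)
    (fun (e : Finset E3) (v : E3) => v ∈ e)
  have h2 : ∀ e ∈ ({e ∈ edgeSet V L | e ⊆ tight V l} : Finset (Finset E3)),
      (Finset.bipartiteAbove (fun (e : Finset E3) (v : E3) => v ∈ e) (tight V l) e).card = 2 := by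
    intro e he
    rw [Finset.mem_filter] at he
    have he2 : e.card = 2 := by
      have := he.1
      simp only [edgeSet, Finset.mem_filter, Finset.mem_powersetCard] at this
      exact this.1.2
    rw [← he2]
    congr 1
    ext v
    simp only [Finset.bipartiteAbove, Finset.mem_filter]
    exact ⟨fun hv => hv.2, fun hv => ⟨he.2 hv, hv⟩⟩
  have h3 : ∀ v ∈ tight V l, (Finset.bipartiteBelow (fun (e : Finset E3) (v : E3) => v ∈ e)
      ({e ∈ edgeSet V L | e ⊆ tight V l} : Finset (Finset E3)) v).card = 2 := by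
    intro v hv
    rw [← card_edges_at h hl hv]
    congr 1
    ext e
    simp only [Finset.bipartiteBelow, Finset.mem_filter]
    tauto
  rw [Finset.sum_congr rfl h2, Finset.sum_congr rfl h3] at h1
  simp only [Finset.sum_const, smul_eq_mul] at h1
  omega

private theorem card_edgeSet {V L : Finset E3} (h : DPair V L) :
    (edgeSet V L).card + 2 = V.card + L.card := by
  classical
  have h1 := Finset.sum_card_bipartiteAbove_eq_sum_card_bipartiteBelow
    (s := edgeSet V L) (t := L) (fun (e : Finset E3) (l : E3) => e ⊆ tight V l)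
  have h2 : ∀ e ∈ edgeSet V L,
      (Finset.bipartiteAbove (fun (e : Finset E3) (l : E3) => e ⊆ tight V l) L e).card = 2 :=
    fun e he => card_edge_facets h he
  have h3 : ∀ l ∈ L, (Finset.bipartiteBelow (fun (e : Finset E3) (l : E3) => e ⊆ tight V l)
      (edgeSet V L) l).card = (tight V l).card := fun l hl => card_facet_edges h hl
  rw [Finset.sum_congr rfl h2, Finset.sum_congr rfl h3] at h1
  simp only [Finset.sum_const, smul_eq_mul] at h1
  have h4 := h.euler_two
  have h5 : ∑ l ∈ L, (tight V l).card = ∑ l ∈ L, ((tight V l).card - 2) + L.card * 2 := by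
    rw [← smul_eq_mul, ← Finset.sum_const, ← Finset.sum_add_distrib]
    refine Finset.sum_congr rfl fun l hl => ?_
    have := h.three_le hl
    omega
  omega

/-- The hull of an edge pair is an exposed edge. -/
private theorem edge_mem_faces {V L : Finset E3} (h : DPair V L) {e : Finset E3}
    (he : e ∈ edgeSet V L) :
    convexHull ℝ (e : Set E3) ∈ faces (convexHull ℝ (V : Set E3)) 1 := by
  classical
  simp only [edgeSet, Finset.mem_filter, Finset.mem_powersetCard] at he
  obtain ⟨⟨heV, hec⟩, h2⟩ := he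
  obtain ⟨l, hl, l1, hl1, hll⟩ := Finset.one_lt_card.1
    (show 1 < (L.filter fun l => e ⊆ tight V l).card by
      have : 2 ≤ (L.filter fun l => e ⊆ tight V l).card := by convert h2
      omega)
  rw [Finset.mem_filter] at hl hl1
  obtain ⟨hy1, hy2⟩ := face_two (V := V) (fun v hv => h.le v hv l hl.1)
    (fun v hv => h.le v hv l1 hl1.1) rfl
  set y := (1 / 2 : ℝ) • l + (1 / 2 : ℝ) • l1 with hy
  have hty : tight V y = e := by
    rw [hy2]
    symm
    apply Finset.eq_of_subset_of_card_le (Finset.subset_inter hl.2 hl1.2)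
    rw [hec]
    exact h.card_le_two hll
  have hface := h.face_eq_convexHull hy1
  rw [hty] at hface
  have hmem : ∀ x ∈ convexHull ℝ (V : Set E3), ⟪x, y⟫_ℝ ≤ 1 := by
    intro x hx
    have hc : Convex ℝ {x : E3 | ⟪x, y⟫_ℝ ≤ 1} := by
      have := (convex_Iic (1 : ℝ)).is_linear_preimage
        (f := fun x : E3 => ⟪x, y⟫_ℝ)
        ⟨fun a b => inner_add_left _ _ _, fun c a => real_inner_smul_left _ _ _⟩
      exact this
    exact convexHull_min (fun v hv => hy1 v hv) hc hx
  obtain ⟨v, w, hvw, hvwe⟩ := Finset.card_eq_two.1 hec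
  have hvP : v ∈ {x ∈ convexHull ℝ (V : Set E3) | ⟪x, y⟫_ℝ = 1} := by
    rw [hface]
    apply subset_convexHull
    rw [hvwe]; simp
  refine ⟨?_, ?_, ?_⟩
  · intro _
    refine ⟨innerSL ℝ y, ?_⟩
    rw [← hface]
    ext x
    simp only [Set.mem_ofPred_eq, innerSL_apply_apply]
    constructor
    · rintro ⟨hx1, hx2⟩
      refine ⟨hx1, fun z hz => ?_⟩
      have := hmem z hz
      rw [real_inner_comm, real_inner_comm x y]
      rw [hx2]; exact this
    · rintro ⟨hx1, hx2⟩
      refine ⟨hx1, le_antisymm (hmem x hx1) ?_⟩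
      have := hx2 v hvP.1
      rw [real_inner_comm, real_inner_comm x y] at this
      rw [← hvP.2]; exact this
  · rw [hvwe]
    exact ⟨v, subset_convexHull _ _ (by simp)⟩
  · have h1 : vectorSpan ℝ (convexHull ℝ (e : Set E3)) = vectorSpan ℝ (e : Set E3) := by
      rw [← direction_affineSpan, affineSpan_convexHull, direction_affineSpan]
    rw [h1, hvwe, Finset.coe_pair, vectorSpan_pair]
    exact finrank_span_singleton (by simpa [sub_eq_zero] using hvw)

/-- Every exposed edge is the hull of an edge pair. -/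
private theorem exists_edge {V L : Finset E3} (h : DPair V L) {F : Set E3}
    (hF : F ∈ faces (convexHull ℝ (V : Set E3)) 1) :
    ∃ e ∈ edgeSet V L, convexHull ℝ (e : Set E3) = F := by
  classical
  obtain ⟨hexp, hne, hfr⟩ := hF
  obtain ⟨f, hf⟩ := hexp hne
  have hfz : ∃ z : E3, ∀ x, f x = ⟪x, z⟫_ℝ := by
    refine ⟨(InnerProductSpace.toDual ℝ E3).symm f, fun x => ?_⟩
    rw [real_inner_comm, InnerProductSpace.toDual_symm_apply]
  obtain ⟨z, hz⟩ := hfz
  have h0 := h.hull_mem_nhds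
  have hvs : ∀ A : Set E3, vectorSpan ℝ (convexHull ℝ A) = vectorSpan ℝ A := fun A => by
    rw [← direction_affineSpan, affineSpan_convexHull, direction_affineSpan]
  have hz0 : z ≠ 0 := by
    rintro rfl
    have hFP : F = convexHull ℝ (V : Set E3) := by
      rw [hf]
      ext x
      simp [hz]
    have hspan : affineSpan ℝ (V : Set E3) = ⊤ :=
      affineSpan_eq_top_of_nonempty_interior ⟨0, mem_interior_iff_mem_nhds.2 h0⟩
    rw [hFP, hvs, ← direction_affineSpan, hspan, AffineSubspace.direction_top, finrank_top] at hfr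
    simp at hfr
  obtain ⟨x0, hx0⟩ := hne
  rw [hf] at hx0
  obtain ⟨hx0P, hx0max⟩ := hx0
  have hpos : 0 < ⟪x0, z⟫_ℝ := by
    have hc : Continuous fun t : ℝ => t • z := by fun_prop
    have h1 : ∀ᶠ t : ℝ in nhds 0, t • z ∈ convexHull ℝ (V : Set E3) :=
      hc.continuousAt.eventually_mem (by simpa using h0)
    obtain ⟨t, ht1, ht2⟩ := ((h1.filter_mono nhdsWithin_le_nhds).and
      (self_mem_nhdsWithin (a := (0 : ℝ)) (s := Set.Ioi 0))).exists
    have h2 := hx0max _ ht1
    rw [hz, hz, real_inner_smul_left] at h2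
    have h3 : 0 < ⟪z, z⟫_ℝ := real_inner_self_pos.2 hz0
    have h4 : (0 : ℝ) < t := ht2
    have := mul_pos h4 h3
    linarith
  set m := ⟪x0, z⟫_ℝ with hm
  set y := m⁻¹ • z with hy
  have hyx : ∀ x : E3, ⟪x, y⟫_ℝ = m⁻¹ * ⟪x, z⟫_ℝ := fun x => by
    rw [hy, real_inner_smul_right]
  have hyle : ∀ x ∈ convexHull ℝ (V : Set E3), ⟪x, y⟫_ℝ ≤ 1 := by
    intro x hx
    have h1 := hx0max x hx
    rw [hz, hz, ← hm] at h1
    rw [hyx, ← div_eq_inv_mul, div_le_one hpos]
    exact h1
  have hyV : ∀ v ∈ V, ⟪v, y⟫_ℝ ≤ 1 := fun v hv => hyle v (subset_convexHull _ _ hv)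
  have hFy : F = {x ∈ convexHull ℝ (V : Set E3) | ⟪x, y⟫_ℝ = 1} := by
    rw [hf]
    ext x
    constructor
    · rintro ⟨hx1, hx2⟩
      refine ⟨hx1, ?_⟩
      have h1 := hx2 x0 hx0P
      have h2 := hx0max x hx1
      rw [hz, hz] at h1 h2
      rw [hyx, le_antisymm h2 h1, inv_mul_cancel₀ hpos.ne']
    · rintro ⟨hx1, hx2⟩
      refine ⟨hx1, fun p hp => ?_⟩
      have h1 := hyle p hp
      rw [← hx2, hyx, hyx] at h1
      rw [hz, hz]
      exact le_of_mul_le_mul_left h1 (inv_pos.2 hpos)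
  rw [h.face_eq_convexHull hyV] at hFy
  rw [hFy, hvs] at hfr
  have hge : 2 ≤ (tight V y).card := by
    by_contra hcon
    have h1 : (tight V y).card ≤ 1 := by omega
    have h2 : (tight V y : Set E3).Subsingleton := by
      intro a ha b hb
      exact Finset.card_le_one.1 h1 a ha b hb
    rw [vectorSpan_of_subsingleton ℝ h2, finrank_bot] at hfr
    exact zero_ne_one hfr
  have hle : (tight V y).card ≤ 2 := by
    obtain ⟨a, ha⟩ : (tight V y).Nonempty := Finset.card_pos.1 (by omega)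
    have hsub : Submodule.span ℝ (tight V y : Set E3) ≤
        (ℝ ∙ a) ⊔ vectorSpan ℝ (tight V y : Set E3) := by
      rw [Submodule.span_le]
      intro b hb
      have h1 : b = a + (b - a) := by abel
      rw [SetLike.mem_coe, h1]
      exact Submodule.add_mem_sup (Submodule.mem_span_singleton_self a)
        (vsub_mem_vectorSpan ℝ hb ha)
    have hfin : finrank ℝ (Submodule.span ℝ (tight V y : Set E3)) ≤ 2 := by
      have h1 := Submodule.finrank_mono hsub
      have h2 := Submodule.finrank_add_le_finrank_add_finrank (ℝ ∙ a)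
        (vectorSpan ℝ (tight V y : Set E3))
      have h3 : finrank ℝ (ℝ ∙ a) ≤ 1 := by
        have := finrank_span_le_card (R := ℝ) ({a} : Set E3)
        simpa using this
      omega
    have hne : Submodule.span ℝ (tight V y : Set E3) ≠ ⊤ := by
      intro ht
      rw [ht, finrank_top] at hfin
      simp at hfin
    have hne' : (Submodule.span ℝ (tight V y : Set E3))ᗮ ≠ ⊥ := by
      intro hb
      exact hne (Submodule.orthogonal_eq_bot_iff.1 hb)
    obtain ⟨n, hn, hn0⟩ := Submodule.exists_mem_ne_zero_of_ne_bot hne'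
    have hyn : y ≠ y + n := by
      intro h'
      exact hn0 (by simpa using h')
    refine le_trans (Finset.card_le_card ?_) (h.card_le_two hyn)
    intro b hb
    rw [Finset.mem_inter]
    refine ⟨hb, ?_⟩
    have h1 : ⟪b, n⟫_ℝ = 0 := (Submodule.mem_orthogonal _ _).1 hn b (Submodule.subset_span hb)
    rw [mem_tight] at hb ⊢
    exact ⟨hb.1, by rw [inner_add_right, hb.2, h1]; simp⟩
  have hcard : (tight V y).card = 2 := le_antisymm hle hge
  refine ⟨tight V y, ?_, hFy.symm⟩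
  have hfilt : 2 ≤ (L.filter fun l => tight V y ⊆ tight V l).card := by
    obtain ⟨v, w, hvw, hvwe⟩ := Finset.card_eq_two.1 hcard
    have hvy : v ∈ tight V y := by rw [hvwe]; simp
    have hwy : w ∈ tight V y := by rw [hvwe]; simp
    rw [mem_tight] at hvy hwy
    obtain ⟨hc1, hc2⟩ := face_two (V := L) (l := v) (l1 := w)
      (fun l hl => h.symm.le l hl v hvy.1) (fun l hl => h.symm.le l hl w hwy.1) rfl
    have hyc : y ∈ convexHull ℝ ((tight L v ∩ tight L w : Finset E3) : Set E3) := by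
      rw [← hc2, ← h.symm.face_eq_convexHull hc1]
      refine ⟨h.hullL y hyV, ?_⟩
      rw [inner_add_right, real_inner_smul_right, real_inner_smul_right, real_inner_comm, hvy.2,
        real_inner_comm, hwy.2]
      norm_num
    have hcap : 2 ≤ (tight L v ∩ tight L w).card := by
      by_contra hcon
      have h1 : (tight L v ∩ tight L w).card ≤ 1 := by omega
      obtain ⟨l, hl⟩ : (tight L v ∩ tight L w).Nonempty := by
        rw [Finset.nonempty_iff_ne_empty]
        intro he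
        rw [he] at hyc
        simp at hyc
      have h2 : tight L v ∩ tight L w = {l} :=
        Finset.eq_singleton_iff_unique_mem.2 ⟨hl, fun x hx => Finset.card_le_one.1 h1 x hx l hl⟩
      rw [h2, Finset.coe_singleton, convexHull_singleton, Set.mem_singleton_iff] at hyc
      have h3 := h.three_le (l := y) (by
        rw [hyc]
        exact (mem_tight.1 (Finset.mem_inter.1 hl).1).1)
      omega
    refine hcap.trans (Finset.card_le_card ?_)
    intro l hl
    rw [Finset.mem_inter, mem_tight, mem_tight] at hl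
    rw [Finset.mem_filter]
    refine ⟨hl.1.1, ?_⟩
    rw [hvwe]
    intro x hx
    simp only [Finset.mem_insert, Finset.mem_singleton] at hx
    rcases hx with rfl | rfl
    · exact mem_tight.2 ⟨hvy.1, by rw [real_inner_comm]; exact hl.1.2⟩
    · exact mem_tight.2 ⟨hwy.1, by rw [real_inner_comm]; exact hl.2.2⟩
  simp only [edgeSet, Finset.mem_filter, Finset.mem_powersetCard]
  exact ⟨⟨fun x hx => (mem_tight.1 hx).1, hcard⟩, by convert hfilt⟩

theorem DPair.ncard_faces_one {V L : Finset E3} (h : DPair V L) :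
    (faces (convexHull ℝ (V : Set E3)) 1).ncard + 2 = V.card + L.card := by
  classical
  rw [← card_edgeSet h]
  congr 1
  have himg : faces (convexHull ℝ (V : Set E3)) 1 =
      (fun e : Finset E3 => convexHull ℝ (e : Set E3)) '' (edgeSet V L : Set (Finset E3)) := by
    ext F
    constructor
    · intro hF
      obtain ⟨e, he, heF⟩ := exists_edge h hF
      exact ⟨e, he, heF⟩
    · rintro ⟨e, he, rfl⟩
      exact edge_mem_faces h he
  rw [himg, Set.InjOn.ncard_image, Set.ncard_coe_finset]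
  have key : ∀ e ∈ edgeSet V L, ∀ e' ∈ edgeSet V L,
      convexHull ℝ (e : Set E3) = convexHull ℝ (e' : Set E3) → e ⊆ e' := by
    intro e he e' he' hee v hv
    simp only [edgeSet, Finset.mem_filter, Finset.mem_powersetCard] at he he'
    have hvV : v ∈ V := he.1.1 hv
    have hext : v ∈ (convexHull ℝ (V : Set E3)).extremePoints ℝ := by
      rw [h.extremePoints_convexHull]; exact hvV
    have hve' : v ∈ convexHull ℝ (e' : Set E3) := by
      rw [← hee]; exact subset_convexHull _ _ hv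
    have h1 : v ∈ (convexHull ℝ (e' : Set E3)).extremePoints ℝ :=
      inter_extremePoints_subset_extremePoints_of_subset
        (convexHull_mono (Finset.coe_subset.2 he'.1.1)) ⟨hve', hext⟩
    exact extremePoints_convexHull_subset h1
  intro e he e' he' hee
  exact Finset.Subset.antisymm (key e he e' he' hee) (key e' he' e he hee.symm)

end Pool.Agent.SymPoly
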