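import Pool.Agent.Lib.MP_742c35_co.Exist

/-!
# JOB EXACTDUAL: `Exact` passes to the polar

Let `B` be linear with `B '' convexHull L = convexHull L`. `B` is injective (its range contains a
neighbourhood of `0`), so bijective. Let `A` be the inverse of the adjoint of `B`. Then `A '' convexHull V = convexHull V`, because
`convexHull V = {y | ∀ l ∈ convexHull L, ⟪y, l⟫ ≤ 1}` and `⟪A y, B l⟫ = ⟪y, l⟫`. So `A = g ∈ Γ`, and
`⟪g y, B l⟫ = ⟪y, l⟫ = ⟪g y, g l⟫` for all `y`, so `B = g`.
-/

set_option autoImplicit false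

open Set Module
open scoped InnerProductSpace

namespace Pool.Agent.SymPoly

private theorem mem_hull_iff_hull {V L : Finset E3} (h : DPair V L) (y : E3) :
    y ∈ convexHull ℝ (V : Set E3) ↔ ∀ l ∈ convexHull ℝ (L : Set E3), ⟪y, l⟫_ℝ ≤ 1 := by
  rw [h.mem_hull_iff]
  constructor
  · intro hy l hl
    have hc : Convex ℝ {l : E3 | ⟪y, l⟫_ℝ ≤ 1} :=
      convex_halfSpace_le (f := fun l : E3 => ⟪y, l⟫_ℝ)
        ⟨fun a b => inner_add_right _ _ _, fun c a => by
          simp only [inner_smul_right, smul_eq_mul]⟩ 1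
    exact convexHull_min (fun a ha => hy a ha) hc hl
  · intro hy l hl
    exact hy l (subset_convexHull ℝ _ hl)

theorem Exact.dual {Γ : Subgroup (E3 ≃ₗᵢ[ℝ] E3)} {V L : Finset E3} (h : DPair V L)
    (hE : Exact Γ V) : Exact Γ L := by
  intro B hB
  -- `B` is surjective
  have hsurj : Function.Surjective B := by
    have h0 : convexHull ℝ (L : Set E3) ∈ nhds (0 : E3) := h.symm.hull_mem_nhds
    have htop : LinearMap.range B = ⊤ := by
      apply Submodule.eq_top_of_nonempty_interior'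
      refine ⟨0, ?_⟩
      rw [mem_interior_iff_mem_nhds]
      refine Filter.mem_of_superset h0 ?_
      intro y hy
      rw [← hB] at hy
      obtain ⟨x, -, rfl⟩ := hy
      exact LinearMap.mem_range_self B x
    exact LinearMap.range_eq_top.1 htop
  have hinj : Function.Injective B := LinearMap.injective_iff_surjective.2 hsurj
  let e : E3 ≃ₗ[ℝ] E3 := LinearEquiv.ofBijective B ⟨hinj, hsurj⟩
  have he : ∀ x, e x = B x := fun x => rfl
  let A : E3 →ₗ[ℝ] E3 := LinearMap.adjoint (e.symm : E3 →ₗ[ℝ] E3)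
  have hAin : ∀ y w, ⟪A y, w⟫_ℝ = ⟪y, e.symm w⟫_ℝ := by
    intro y w
    exact LinearMap.adjoint_inner_left _ _ _
  have hAB : ∀ y l, ⟪A y, B l⟫_ℝ = ⟪y, l⟫_ℝ := by
    intro y l
    rw [hAin, ← he, e.symm_apply_apply]
  have hAsurj : Function.Surjective A := by
    intro z
    refine ⟨LinearMap.adjoint B z, ?_⟩
    apply ext_inner_right ℝ
    intro w
    rw [hAin, LinearMap.adjoint_inner_left, ← he, e.apply_symm_apply]
  have hAmem : ∀ y, A y ∈ convexHull ℝ (V : Set E3) ↔ y ∈ convexHull ℝ (V : Set E3) := by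
    intro y
    rw [mem_hull_iff_hull h, mem_hull_iff_hull h]
    constructor
    · intro hy l hl
      rw [← hAB]
      apply hy
      rw [← hB]
      exact ⟨l, hl, rfl⟩
    · intro hy m hm
      rw [← hB] at hm
      obtain ⟨l, hl, rfl⟩ := hm
      rw [hAB]
      exact hy l hl
  have hA : (fun x => A x) '' convexHull ℝ (V : Set E3) = convexHull ℝ (V : Set E3) := by
    apply Set.Subset.antisymm
    · rintro _ ⟨y, hy, rfl⟩
      exact (hAmem y).2 hy
    · intro z hz
      obtain ⟨y, rfl⟩ := hAsurj z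
      exact ⟨y, (hAmem y).1 hz, rfl⟩
  obtain ⟨g, hg, hgA⟩ := hE A hA
  refine ⟨g, hg, fun x => ?_⟩
  apply ext_inner_left ℝ
  intro w
  obtain ⟨y, rfl⟩ := g.surjective w
  rw [LinearIsometryEquiv.inner_map_map, ← hgA, hAB]

end Pool.Agent.SymPoly
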