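import Pool.Agent.Lib.MP_742c35_co.Basic

/-!
# JOB EXIST: basic properties of the pair (vertices, polar vertices)

* `extremePoints_convexHull`: `⊆` is `extremePoints_convexHull_subset`; for `v ∈ V` the tight `l ∈ L` span, so if `v` is strictly
between `a, b` in the hull all tight `l` are tight for `a` and `b`, so `a = b = v`.
* `hull_mem_nhds`: `{y | ∀ l ∈ L, ⟪y, l⟫ < 1}` is open, contains `0` and is contained in the hull.
* `mem_iff`: `→` are the fields; `←`: `y ∈ convexHull L` by `hullL`, and a `y` with spanning tight set is an extreme point of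
`convexHull L` (all its points are `≤ 1` on `V`), so it is in `L`.
* `card_le_two`: if `w` is tight for `y` and `z`, `y ≠ z`, then `y, z` are linearly independent, so the common tight points are on a line
`w + t d`; of three points on a line one is between the two others and not extreme.
* `card_line_le_two`: same argument. * `inv_of_inv`: use `mem_iff` (`g` permutes `V`).
-/

set_option autoImplicit false

open Set Module
open scoped InnerProductSpace

namespace Pool.Agent.SymPoly

namespace DPair

variable {V L : Finset E3}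

/-- Being in the polytope is given by the facet inequalities. -/
theorem mem_hull_iff (h : DPair V L) (y : E3) :
    y ∈ convexHull ℝ (V : Set E3) ↔ ∀ l ∈ L, ⟪y, l⟫_ℝ ≤ 1 := by
  refine ⟨fun hy l hl => ?_, h.hullV y⟩
  have hc : Convex ℝ {x : E3 | ⟪x, l⟫_ℝ ≤ 1} := by
    refine convex_halfSpace_le ⟨fun a b => inner_add_left a b l, fun c a => ?_⟩ 1
    rw [real_inner_smul_left, smul_eq_mul]
  exact convexHull_min (fun v hv => h.le v (by simpa using hv) l hl) hc hy

/-- A vector orthogonal to a spanning set is zero. -/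
private theorem eq_zero_of_span {S : Set E3} (hS : Submodule.span ℝ S = ⊤) {z : E3}
    (hz : ∀ a ∈ S, ⟪a, z⟫_ℝ = 0) : z = 0 := by
  have h1 : ∀ x ∈ Submodule.span ℝ S, ⟪x, z⟫_ℝ = 0 := by
    intro x hx
    induction hx using Submodule.span_induction with
    | mem x hx => exact hz x hx
    | zero => simp
    | add x y _ _ hx hy => rw [inner_add_left, hx, hy, add_zero]
    | smul c x _ hx => rw [real_inner_smul_left, hx, mul_zero]
  have h2 := h1 z (by rw [hS]; trivial)
  exact inner_self_eq_zero.1 h2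

/-- The functional is determined by its tight set, if that spans. -/
private theorem eq_of_tight_aux {A : Finset E3} {y z : E3}
    (hy : Submodule.span ℝ (tight A y : Set E3) = ⊤)
    (hz : ∀ a ∈ tight A y, ⟪a, z⟫_ℝ = 1) : z = y := by
  have h1 : z - y = 0 := by
    refine eq_zero_of_span hy fun a ha => ?_
    rw [inner_sub_right, hz a (by simpa using ha), (mem_tight.1 (by simpa using ha)).2, sub_self]
  exact sub_eq_zero.1 h1

/-- If `y` satisfies all constraints and its tight ones span, then `y` is extreme in any set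
satisfying the constraints. -/
private theorem mem_extreme_of_span {A : Finset E3} {K : Set E3} {y : E3} (hyK : y ∈ K)
    (hK : ∀ x ∈ K, ∀ a ∈ A, ⟪a, x⟫_ℝ ≤ 1)
    (hy : Submodule.span ℝ (tight A y : Set E3) = ⊤) : y ∈ K.extremePoints ℝ := by
  rw [mem_extremePoints]
  refine ⟨hyK, fun x₁ h₁ x₂ h₂ hx => ?_⟩
  obtain ⟨s, t, hs, ht, hst, rfl⟩ := hx
  have key : ∀ a ∈ tight A (s • x₁ + t • x₂), ⟪a, x₁⟫_ℝ = 1 ∧ ⟪a, x₂⟫_ℝ = 1 := by
    intro a ha
    have h3 := (mem_tight.1 ha).2
    have h4 := hK x₁ h₁ a (mem_tight.1 ha).1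
    have h5 := hK x₂ h₂ a (mem_tight.1 ha).1
    rw [inner_add_right, real_inner_smul_right, real_inner_smul_right] at h3
    constructor
    · by_contra hne
      have : ⟪a, x₁⟫_ℝ < 1 := lt_of_le_of_ne h4 hne
      nlinarith
    · by_contra hne
      have : ⟪a, x₂⟫_ℝ < 1 := lt_of_le_of_ne h5 hne
      nlinarith
  exact ⟨eq_of_tight_aux hy fun a ha => (key a ha).1, eq_of_tight_aux hy fun a ha => (key a ha).2⟩

theorem extremePoints_convexHull (h : DPair V L) :
    (convexHull ℝ (V : Set E3)).extremePoints ℝ = (V : Set E3) := by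
  refine Subset.antisymm extremePoints_convexHull_subset fun v hv => ?_
  have hv' : v ∈ V := by simpa using hv
  refine mem_extreme_of_span (A := L) (subset_convexHull ℝ _ hv) (fun x hx l hl => ?_)
    (h.spanL v hv')
  rw [real_inner_comm]
  exact (h.mem_hull_iff x).1 hx l hl

theorem hull_mem_nhds (h : DPair V L) : convexHull ℝ (V : Set E3) ∈ nhds (0 : E3) := by
  have h1 : ∀ᶠ y in nhds (0 : E3), ∀ l ∈ L, ⟪y, l⟫_ℝ < 1 := by
    rw [Filter.eventually_all_finset]
    intro l _
    have hc : Continuous fun y : E3 => ⟪y, l⟫_ℝ := by fun_prop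
    exact hc.continuousAt.eventually_lt continuousAt_const (by simp)
  filter_upwards [h1] with y hy
  exact h.hullV y fun l hl => (hy l hl).le

/-- `L` consists of all facet functionals. -/
theorem mem_iff (h : DPair V L) (y : E3) :
    y ∈ L ↔ (∀ v ∈ V, ⟪v, y⟫_ℝ ≤ 1) ∧ Submodule.span ℝ (tight V y : Set E3) = ⊤ := by
  refine ⟨fun hy => ⟨fun v hv => h.le v hv y hy, h.spanV y hy⟩, fun ⟨h1, h2⟩ => ?_⟩
  have h3 : y ∈ (convexHull ℝ (L : Set E3)).extremePoints ℝ := by
    refine mem_extreme_of_span (A := V) (h.hullL y h1) (fun x hx v hv => ?_) h2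
    rw [real_inner_comm]
    exact (h.symm.mem_hull_iff x).1 hx v hv
  simpa using extremePoints_convexHull_subset h3

theorem three_le (h : DPair V L) {l : E3} (hl : l ∈ L) : 3 ≤ (tight V l).card := by
  have h1 := finrank_span_finset_le_card (R := ℝ) (tight V l)
  have h2 : Set.finrank ℝ (tight V l : Set E3) = 3 := by
    rw [Set.finrank, h.spanV l hl, finrank_top, finrank_euclideanSpace_fin]
  omega

/-- The functional is determined by its tight set, if that spans. -/
theorem eq_of_tight {A : Finset E3} {y z : E3} (hy : Submodule.span ℝ (tight A y : Set E3) = ⊤)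
    (hz : ∀ a ∈ tight A y, ⟪a, z⟫_ℝ = 1) : z = y :=
  eq_of_tight_aux hy hz

/-- No three different vertices are on a line. -/
private theorem not_collinear (h : DPair V L) {a b c : E3} (ha : a ∈ V) (hb : b ∈ V) (hc : c ∈ V)
    (hab : a ≠ b) (hac : a ≠ c) (hbc : b ≠ c) : ¬ Collinear ℝ ({a, b, c} : Set E3) := by
  have key : ∀ {x y z : E3}, x ∈ V → y ∈ V → z ∈ V → x ≠ y → y ≠ z → ¬ Wbtw ℝ x y z := by
    intro x y z hx hy hz hxy hyz hw
    have h1 : y ∈ (convexHull ℝ (V : Set E3)).extremePoints ℝ := by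
      rw [h.extremePoints_convexHull]; exact hy
    have h2 := (mem_extremePoints.1 h1).2 x (subset_convexHull ℝ _ hx) z
      (subset_convexHull ℝ _ hz)
    have h3 : y ∈ openSegment ℝ x z := by
      have h4 : Sbtw ℝ x y z := ⟨hw, hxy.symm, hyz⟩
      have h5 := h4.wbtw.mem_segment
      exact mem_openSegment_of_ne_left_right hxy hyz.symm h5
    exact hxy (h2 h3).1
  intro hcol
  rcases hcol.wbtw_or_wbtw_or_wbtw with h1 | h1 | h1
  · exact key ha hb hc hab hbc h1
  · exact key hb hc ha hbc hac.symm h1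
  · exact key hc ha hb hac.symm hab h1

/-- At most two vertices on a line: if three vertices `a, b, c` satisfy two independent tight
equations then two of them coincide. -/
theorem card_le_two (h : DPair V L) {y z : E3} (hyz : y ≠ z) :
    ((tight V y) ∩ (tight V z)).card ≤ 2 := by
  by_contra hcard
  obtain ⟨a, b, c, ha, hb, hc, hab, hac, hbc⟩ := Finset.two_lt_card_iff.1 (not_le.1 hcard)
  simp only [Finset.mem_inter, mem_tight] at ha hb hc
  refine h.not_collinear ha.1.1 hb.1.1 hc.1.1 hab hac hbc ?_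
  have hb1 : b - a ≠ 0 := sub_ne_zero.2 hab.symm
  -- `y`, `z` are linearly independent
  have hind : LinearIndependent ℝ ![y, z] := by
    rw [LinearIndependent.pair_iff]
    intro s t hst
    have h1 : ⟪a, s • y + t • z⟫_ℝ = 0 := by rw [hst, inner_zero_right]
    rw [inner_add_right, real_inner_smul_right, real_inner_smul_right, ha.1.2, ha.2.2] at h1
    have h2 : t = -s := by linarith
    rw [h2, neg_smul, ← sub_eq_add_neg, ← smul_sub] at hst
    rcases smul_eq_zero.1 hst with h3 | h3
    · exact ⟨h3, by rw [h2, h3, neg_zero]⟩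
    · exact absurd (sub_eq_zero.1 h3) hyz
  have hspan : finrank ℝ (Submodule.span ℝ (Set.range ![y, z])) = 2 := by
    rw [finrank_span_eq_card hind]; simp
  have horth : finrank ℝ (Submodule.span ℝ (Set.range ![y, z]))ᗮ = 1 := by
    have h1 := Submodule.finrank_add_finrank_orthogonal (Submodule.span ℝ (Set.range ![y, z]))
    rw [hspan, finrank_euclideanSpace_fin] at h1
    omega
  have hmem : ∀ x : E3, ⟪x, y⟫_ℝ = 1 → ⟪x, z⟫_ℝ = 1 →
      x - a ∈ (Submodule.span ℝ (Set.range ![y, z]))ᗮ := by
    intro x hxy hxz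
    rw [Submodule.mem_orthogonal]
    intro u hu
    induction hu using Submodule.span_induction with
    | mem u hu =>
      obtain ⟨i, rfl⟩ := hu
      fin_cases i
      · change ⟪y, x - a⟫_ℝ = 0
        rw [real_inner_comm, inner_sub_left, hxy, ha.1.2, sub_self]
      · change ⟪z, x - a⟫_ℝ = 0
        rw [real_inner_comm, inner_sub_left, hxz, ha.2.2, sub_self]
    | zero => simp
    | add u w _ _ hu hw => rw [inner_add_left, hu, hw, add_zero]
    | smul k u _ hu => rw [real_inner_smul_left, hu, mul_zero]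
  obtain ⟨e, -, he⟩ := finrank_eq_one_iff'.1 horth
  rw [collinear_iff_of_mem (p₀ := a) (by simp)]
  refine ⟨(e : E3), ?_⟩
  intro p hp
  simp only [Set.mem_insert_iff, Set.mem_singleton_iff] at hp
  have h2 : p - a ∈ (Submodule.span ℝ (Set.range ![y, z]))ᗮ := by
    rcases hp with rfl | rfl | rfl
    · simp
    · exact hmem _ hb.1.2 hb.2.2
    · exact hmem _ hc.1.2 hc.2.2
  obtain ⟨k, hk⟩ := he ⟨p - a, h2⟩
  refine ⟨k, ?_⟩
  have h3 := congrArg Subtype.val hk
  simp only [Submodule.coe_smul] at h3
  rw [vadd_eq_add, h3]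
  abel

/-- At most two vertices on a line through `0`. -/
theorem card_line_le_two (h : DPair V L) (w : E3) {A : Finset E3} (hA : A ⊆ V)
    (hw : ∀ a ∈ A, ∃ t : ℝ, a = t • w) : A.card ≤ 2 := by
  by_contra hcard
  obtain ⟨a, b, c, ha, hb, hc, hab, hac, hbc⟩ := Finset.two_lt_card_iff.1 (not_le.1 hcard)
  refine h.not_collinear (hA ha) (hA hb) (hA hc) hab hac hbc ?_
  rw [collinear_iff_exists_forall_eq_smul_vadd]
  refine ⟨0, w, ?_⟩
  intro p hp
  simp only [Set.mem_insert_iff, Set.mem_singleton_iff] at hp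
  have h2 : p ∈ A := by
    rcases hp with rfl | rfl | rfl
    · exact ha
    · exact hb
    · exact hc
  obtain ⟨t, ht⟩ := hw p h2
  exact ⟨t, by simpa using ht⟩

/-- The polytope is invariant under `g` then so is the polar. -/
theorem inv_of_inv (h : DPair V L) {Γ : Subgroup (E3 ≃ₗᵢ[ℝ] E3)} (hV : Inv Γ V) : Inv Γ L := by
  intro g hg l hl
  have hinv : ∀ v ∈ V, g⁻¹ v ∈ V := fun v hv => hV g⁻¹ (Γ.inv_mem hg) v hv
  have hin : ∀ v : E3, ⟪v, g l⟫_ℝ = ⟪g⁻¹ v, l⟫_ℝ := by
    intro v
    have h1 : g (g⁻¹ v) = v := g.apply_symm_apply v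
    conv_lhs => rw [← h1]
    exact g.inner_map_map _ _
  rw [h.mem_iff]
  refine ⟨fun v hv => by rw [hin]; exact h.le _ (hinv v hv) l hl, ?_⟩
  have h2 : g.toLinearEquiv '' (tight V l : Set E3) ⊆ (tight V (g l) : Set E3) := by
    rintro _ ⟨v, hv, rfl⟩
    have hv' := mem_tight.1 (by simpa using hv)
    have h3 : g v ∈ tight V (g l) := by
      rw [mem_tight]
      exact ⟨hV g hg v hv'.1, by rw [g.inner_map_map]; exact hv'.2⟩
    simpa using h3
  rw [eq_top_iff]
  calc (⊤ : Submodule ℝ E3)
      = Submodule.map (g.toLinearEquiv : E3 →ₗ[ℝ] E3) (Submodule.span ℝ (tight V l : Set E3)) := by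
        rw [h.spanV l hl, Submodule.map_top]
        exact (LinearEquiv.range g.toLinearEquiv).symm
    _ = Submodule.span ℝ (g.toLinearEquiv '' (tight V l : Set E3)) := by
        rw [Submodule.map_span]
        rfl
    _ ≤ Submodule.span ℝ (tight V (g l) : Set E3) := Submodule.span_mono h2

end DPair

end Pool.Agent.SymPoly
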