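import Pool.Agent.Lib.MP_742c35_co.Basic

/-!
# JOB EXISTA: existence of the polar pair

`K = {y | ∀ v ∈ V, ⟪v, y⟫ ≤ 1}` is convex, closed, and bounded since a ball around
`0` is contained in `convexHull V`. Its extreme points are exactly the `y ∈ K` such that
`tight V y` spans (if it does not span take `d ≠ 0` orthogonal to the span: `y ± t d ∈ K` for small
`t`; conversely if `y` is between `a, b ∈ K` the tight constraints are tight for `a` and `b`). They are
finitely many (`y` is determined by `tight V y`). Krein-Milman (`closure_convexHull_extremePoints`)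
gives `hullL`. `hullV`: separation (`geometric_hahn_banach_...`): if `y ∉ convexHull V` there is `f`
with `⟪v, f⟫ < u < ⟪y, f⟫` for `v ∈ V`, `u > 0` since `0 ∈ convexHull V`; `f / u ∈ K`. `spanL`: if the
tight `l` do not span, `v ± t d` satisfies all constraints, so it is in `convexHull V` and `v` is not extreme.
-/

set_option autoImplicit false

open Set Module
open scoped InnerProductSpace

namespace Pool.Agent.SymPoly

/-- A half space containing `A` contains its convex hull. -/
private theorem inner_le_of_mem_convexHull {A : Set E3} {z : E3}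
    (h : ∀ a ∈ A, ⟪a, z⟫_ℝ ≤ 1) {y : E3} (hy : y ∈ convexHull ℝ A) : ⟪y, z⟫_ℝ ≤ 1 := by
  have hc : Convex ℝ {x : E3 | ⟪x, z⟫_ℝ ≤ 1} := by
    intro a ha b hb s t hs ht hst
    simp only [mem_ofPred_eq] at ha hb ⊢
    rw [inner_add_left, inner_smul_left, inner_smul_left]
    simp only [conj_trivial]
    nlinarith
  exact convexHull_min (fun a ha => h a ha) hc hy

/-- A vector `d ≠ 0` orthogonal to a set that does not span. -/
private theorem exists_orthogonal {A : Set E3} (h : Submodule.span ℝ A ≠ ⊤) :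
    ∃ d : E3, d ≠ 0 ∧ ∀ a ∈ A, ⟪a, d⟫_ℝ = 0 := by
  have h1 : (Submodule.span ℝ A)ᗮ ≠ ⊥ := by
    intro h2
    exact h (Submodule.orthogonal_eq_bot_iff.1 h2)
  obtain ⟨d, hd, hd0⟩ := Submodule.exists_mem_ne_zero_of_ne_bot h1
  exact ⟨d, hd0, fun a ha => (Submodule.mem_orthogonal _ _).1 hd a (Submodule.subset_span ha)⟩

/-- If the tight set does not span we can move a little in both directions. -/
private theorem exists_move {A : Finset E3} {y : E3} (hy : ∀ a ∈ A, ⟪a, y⟫_ℝ ≤ 1)
    (hs : Submodule.span ℝ (tight A y : Set E3) ≠ ⊤) :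
    ∃ d : E3, d ≠ 0 ∧ (∀ a ∈ A, ⟪a, y + d⟫_ℝ ≤ 1) ∧ (∀ a ∈ A, ⟪a, y - d⟫_ℝ ≤ 1) := by
  classical
  obtain ⟨d, hd0, hd⟩ := exists_orthogonal hs
  have key : ∀ a ∈ A, ∃ t : ℝ, 0 < t ∧ ∀ s : ℝ, 0 < s → s ≤ t →
      ⟪a, y + s • d⟫_ℝ ≤ 1 ∧ ⟪a, y - s • d⟫_ℝ ≤ 1 := by
    intro a ha
    by_cases h1 : ⟪a, y⟫_ℝ = 1
    · refine ⟨1, one_pos, fun s _ _ => ?_⟩
      have h2 : ⟪a, d⟫_ℝ = 0 := hd a (Finset.mem_coe.2 (mem_tight.2 ⟨ha, h1⟩))
      rw [inner_add_right, inner_sub_right, inner_smul_right, h2, h1]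
      simp
    · have h2 : ⟪a, y⟫_ℝ < 1 := lt_of_le_of_ne (hy a ha) h1
      have h3 : 0 < |⟪a, d⟫_ℝ| + 1 := by positivity
      refine ⟨(1 - ⟪a, y⟫_ℝ) / (|⟪a, d⟫_ℝ| + 1), div_pos (by linarith) h3, fun s hs hst => ?_⟩
      rw [le_div_iff₀ h3] at hst
      have h4 := le_abs_self (⟪a, d⟫_ℝ)
      have h5 := neg_abs_le (⟪a, d⟫_ℝ)
      rw [inner_add_right, inner_sub_right, inner_smul_right]
      constructor <;> nlinarith
  choose! t ht hts using key
  obtain ⟨s, hs0, hsle⟩ : ∃ s : ℝ, 0 < s ∧ ∀ a ∈ A, s ≤ t a := by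
    rcases A.eq_empty_or_nonempty with hA | hA
    · exact ⟨1, one_pos, by simp [hA]⟩
    · obtain ⟨a, ha, hmin⟩ := A.exists_min_image t hA
      exact ⟨t a, ht a ha, hmin⟩
  exact ⟨s • d, smul_ne_zero hs0.ne' hd0, fun a ha => (hts a ha s hs0 (hsle a ha)).1,
    fun a ha => (hts a ha s hs0 (hsle a ha)).2⟩

/-- The functional is determined by its tight set if that spans. -/
private theorem eq_of_tight_eq {A : Finset E3} {y z : E3}
    (hy : Submodule.span ℝ (tight A y : Set E3) = ⊤) (h : tight A y = tight A z) : y = z := by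
  have h1 : ∀ x : E3, ⟪x, y - z⟫_ℝ = 0 := by
    intro x
    have hx : x ∈ Submodule.span ℝ (tight A y : Set E3) := by rw [hy]; trivial
    induction hx using Submodule.span_induction with
    | mem a ha =>
      have h2 := (mem_tight.1 (Finset.mem_coe.1 ha)).2
      have h3 : a ∈ tight A z := by rw [← h]; exact Finset.mem_coe.1 ha
      have h4 := (mem_tight.1 h3).2
      rw [inner_sub_right, h2, h4, sub_self]
    | zero => simp
    | add a b _ _ ha hb => rw [inner_add_left, ha, hb, add_zero]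
    | smul c a _ ha => rw [inner_smul_left, ha, mul_zero]
  have h2 := h1 (y - z)
  rw [inner_self_eq_zero] at h2
  exact sub_eq_zero.1 h2

theorem exists_dpair {V : Finset E3} (h0 : convexHull ℝ (V : Set E3) ∈ nhds (0 : E3))
    (hext : ∀ v ∈ V, v ∈ (convexHull ℝ (V : Set E3)).extremePoints ℝ) :
    ∃ L : Finset E3, DPair V L := by
  classical
  set K : Set E3 := {y | ∀ v ∈ V, ⟪v, y⟫_ℝ ≤ 1} with hK
  have hKconv : Convex ℝ K := by
    intro a ha b hb s t hs ht hst v hv
    have h1 := ha v hv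
    have h2 := hb v hv
    rw [inner_add_right, inner_smul_right, inner_smul_right]
    nlinarith
  have hKclosed : IsClosed K := by
    have : K = ⋂ v ∈ V, {y : E3 | ⟪v, y⟫_ℝ ≤ 1} := by
      ext y
      simp [hK]
    rw [this]
    exact isClosed_biInter fun v _ => isClosed_le (by fun_prop) continuous_const
  have hKbdd : Bornology.IsBounded K := by
    obtain ⟨r, hr, hball⟩ := Metric.mem_nhds_iff.1 h0
    refine (Metric.isBounded_closedBall (x := (0 : E3)) (r := 2 / r)).subset ?_
    intro y hy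
    rw [mem_closedBall_zero_iff]
    by_cases hy0 : y = 0
    · rw [hy0, norm_zero]; positivity
    have hn : 0 < ‖y‖ := norm_pos_iff.2 hy0
    have hx : ((r / 2) * ‖y‖⁻¹) • y ∈ convexHull ℝ (V : Set E3) := by
      apply hball
      rw [mem_ball_zero_iff, norm_smul, Real.norm_eq_abs, abs_of_pos (by positivity),
        mul_assoc, inv_mul_cancel₀ hn.ne']
      linarith
    have h1 := inner_le_of_mem_convexHull (z := y) (fun a ha => hy a (Finset.mem_coe.1 ha)) hx
    rw [inner_smul_left, real_inner_self_eq_norm_sq] at h1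
    simp only [conj_trivial] at h1
    rw [le_div_iff₀ hr]
    have h2 : r / 2 * ‖y‖⁻¹ * ‖y‖ ^ 2 = r / 2 * ‖y‖ := by
      field_simp
    rw [h2] at h1
    linarith
  have hKcomp : IsCompact K := Metric.isCompact_of_isClosed_isBounded hKclosed hKbdd
  have hspan : ∀ y ∈ K.extremePoints ℝ, Submodule.span ℝ (tight V y : Set E3) = ⊤ := by
    intro y hy
    by_contra hs
    obtain ⟨d, hd0, h1, h2⟩ := exists_move (A := V) (y := y) hy.1 hs
    have h3 : y ∈ openSegment ℝ (y + d) (y - d) := by
      refine ⟨1 / 2, 1 / 2, by norm_num, by norm_num, by norm_num, ?_⟩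
      rw [← smul_add]
      have : (y + d) + (y - d) = (2 : ℝ) • y := by rw [two_smul]; abel
      rw [this, smul_smul]
      norm_num
    have h4 := hy.2 (x₁ := y + d) h1 (x₂ := y - d) h2 h3
    apply hd0
    have h5 : y + d = y := h4
    simpa using h5
  have hfin : (K.extremePoints ℝ).Finite := by
    refine Set.Finite.of_finite_image (f := fun y => tight V y) ?_ ?_
    · refine (V.powerset.finite_toSet).subset ?_
      rintro _ ⟨y, _, rfl⟩
      rw [Finset.mem_coe, Finset.mem_powerset]
      intro a ha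
      exact (mem_tight.1 ha).1
    · intro y hy z _ hyz
      exact eq_of_tight_eq (hspan y hy) hyz
  refine ⟨hfin.toFinset, ?_⟩
  have hcoe : ((hfin.toFinset : Finset E3) : Set E3) = K.extremePoints ℝ := hfin.coe_toFinset
  have hhullL : ∀ y ∈ K, y ∈ convexHull ℝ ((hfin.toFinset : Finset E3) : Set E3) := by
    intro y hy
    rw [hcoe]
    have h1 : IsClosed (convexHull ℝ (K.extremePoints ℝ)) := hfin.isClosed_convexHull ℝ
    rw [← h1.closure_eq, closure_convexHull_extremePoints hKcomp hKconv]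
    exact hy
  have hhullV : ∀ y : E3, (∀ l ∈ hfin.toFinset, ⟪y, l⟫_ℝ ≤ 1) → y ∈ convexHull ℝ (V : Set E3) := by
    intro y hy
    by_contra hn
    have hVclosed : IsClosed (convexHull ℝ (V : Set E3)) := V.finite_toSet.isClosed_convexHull ℝ
    obtain ⟨f, u, hfu, huy⟩ := geometric_hahn_banach_closed_point (convex_convexHull ℝ _) hVclosed hn
    have hu : 0 < u := by
      have := hfu 0 (mem_of_mem_nhds h0)
      simpa using this
    have hw : ∀ x : E3, ⟪x, (InnerProductSpace.toDual ℝ E3).symm f⟫_ℝ = f x := by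
      intro x
      rw [real_inner_comm, InnerProductSpace.toDual_symm_apply]
    have hwK : u⁻¹ • (InnerProductSpace.toDual ℝ E3).symm f ∈ K := by
      intro v hv
      rw [inner_smul_right, hw, inv_mul_le_iff₀ hu, mul_one]
      exact (hfu v (subset_convexHull ℝ _ (Finset.mem_coe.2 hv))).le
    have h1 := hhullL _ hwK
    have h2 := inner_le_of_mem_convexHull (z := y)
      (fun a ha => by rw [real_inner_comm]; exact hy a (Finset.mem_coe.1 ha)) h1
    rw [real_inner_comm, inner_smul_right, hw, inv_mul_le_iff₀ hu, mul_one] at h2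
    linarith
  refine ⟨?_, ?_, ?_, hhullV, fun y hy => hhullL y hy⟩
  · intro v hv l hl
    exact (hfin.mem_toFinset.1 hl).1 v hv
  · intro l hl
    exact hspan l (hfin.mem_toFinset.1 hl)
  · intro v hv
    by_contra hs
    have hle : ∀ l ∈ hfin.toFinset, ⟪l, v⟫_ℝ ≤ 1 := by
      intro l hl
      rw [real_inner_comm]
      exact (hfin.mem_toFinset.1 hl).1 v hv
    obtain ⟨d, hd0, h1, h2⟩ := exists_move (A := hfin.toFinset) (y := v) hle hs
    have h3 : v ∈ openSegment ℝ (v + d) (v - d) := by
      refine ⟨1 / 2, 1 / 2, by norm_num, by norm_num, by norm_num, ?_⟩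
      rw [← smul_add]
      have : (v + d) + (v - d) = (2 : ℝ) • v := by rw [two_smul]; abel
      rw [this, smul_smul]
      norm_num
    have h4 := (hext v hv).2 (x₁ := v + d)
      (hhullV _ fun l hl => by rw [real_inner_comm]; exact h1 l hl) (x₂ := v - d)
      (hhullV _ fun l hl => by rw [real_inner_comm]; exact h2 l hl) h3
    apply hd0
    have h5 : v + d = v := h4
    simpa using h5

end Pool.Agent.SymPoly
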