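import Pool.Agent.Lib.MP_742c35_co.Exist

/-!
# JOB FACES: numbers of vertices and facets

* `faces P 0`: sets `{v}`, `v ∈ V`: a nonempty exposed set with zero-dimensional direction is a singleton, its point is extreme
(`IsExposed.isExtreme`, `extremePoints_convexHull`); conversely `{v}` is exposed by the functional `∑_{l ∈ tight L v} l` (it is `≤ k` on the
polytope with equality exactly when all `l` are tight, and these span). 
* `faces P 2`: the sets `F_l = {x ∈ P | ⟪x, l⟫ = 1}`, `l ∈ L`. `F_l` is exposed by `l`, contains `tight V l`, and its direction is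
`l^⊥`, because the differences of `tight V l` span `l^⊥` (as `tight V l` spans and `l = 1` on it). Conversely let `F` be an exposed set with
2-dimensional direction, exposed by `f ≠ 0`, with maximum `m` of `⟪., f⟫` on `P`; `m > 0` since `0` is interior; `y = f / m` is `≤ 1` on `V` and
`F = {x ∈ P | ⟪x, y⟫ = 1} = convexHull (tight V y)`; the affine span of `tight V y` is a plane not through `0`, so `tight V y` spans; so `y ∈ L` by `mem_iff`.
`l ↦ F_l` is injective on `L` (`eq_of_tight`).
-/

set_option autoImplicit false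

open Set Module
open scoped InnerProductSpace

namespace Pool.Agent.SymPoly

/-- A convex combination of `V` at which `y` is tight only uses tight vertices. -/
theorem DPair.face_eq_convexHull {V L : Finset E3} (h : DPair V L) {y : E3}
    (hy : ∀ v ∈ V, ⟪v, y⟫_ℝ ≤ 1) :
    {x ∈ convexHull ℝ (V : Set E3) | ⟪x, y⟫_ℝ = 1} = convexHull ℝ (tight V y : Set E3) := by
  have _ := h
  apply Set.Subset.antisymm
  · rintro x ⟨hx, hxy⟩
    rw [Finset.mem_convexHull'] at hx
    obtain ⟨w, hw0, hw1, hwx⟩ := hx
    have hzero : ∀ v ∈ V, w v * (1 - ⟪v, y⟫_ℝ) = 0 := by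
      have hsum : ∑ v ∈ V, w v * (1 - ⟪v, y⟫_ℝ) = 0 := by
        have h1 : ∑ v ∈ V, w v * ⟪v, y⟫_ℝ = 1 := by
          rw [← hxy, ← hwx, sum_inner]
          exact Finset.sum_congr rfl fun v _ => (real_inner_smul_left _ _ _).symm
        have h2 : ∑ v ∈ V, w v * (1 - ⟪v, y⟫_ℝ) = ∑ v ∈ V, w v - ∑ v ∈ V, w v * ⟪v, y⟫_ℝ := by
          rw [← Finset.sum_sub_distrib]
          exact Finset.sum_congr rfl fun v _ => by ring
        rw [h2, h1, hw1, sub_self]
      exact (Finset.sum_eq_zero_iff_of_nonneg fun v hv =>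
        mul_nonneg (hw0 v hv) (sub_nonneg.2 (hy v hv))).1 hsum
    have hw : ∀ v ∈ V, v ∉ tight V y → w v = 0 := by
      intro v hv hvt
      rcases mul_eq_zero.1 (hzero v hv) with h1 | h1
      · exact h1
      · exact absurd (mem_tight.2 ⟨hv, by linarith⟩) hvt
    have hsub : tight V y ⊆ V := fun v hv => (mem_tight.1 hv).1
    rw [Finset.mem_convexHull']
    refine ⟨w, fun v hv => hw0 v (hsub hv), ?_, ?_⟩
    · rw [← hw1]
      exact Finset.sum_subset hsub fun v hv hvt => hw v hv hvt
    · rw [← hwx]
      exact Finset.sum_subset hsub fun v hv hvt => by rw [hw v hv hvt, zero_smul]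
  · apply convexHull_min
    · intro v hv
      have hv' := mem_tight.1 (Finset.mem_coe.1 hv)
      exact ⟨subset_convexHull ℝ _ (Finset.mem_coe.2 hv'.1), hv'.2⟩
    · have hlin : IsLinearMap ℝ (fun x : E3 => ⟪x, y⟫_ℝ) :=
        ⟨fun a b => inner_add_left _ _ _, fun c a => real_inner_smul_left _ _ _⟩
      exact (convex_convexHull ℝ _).inter (convex_hyperplane hlin 1)

private theorem mem_of_tight {V : Finset E3} {y v : E3} (hv : v ∈ tight V y) : v ∈ V :=
  (mem_tight.1 hv).1

/-- The span of a set on which `⟪., y⟫ = 1` has one more dimension than its direction. -/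
private theorem finrank_span_eq {F : Set E3} {y : E3} (hF : F.Nonempty)
    (hy : ∀ x ∈ F, ⟪x, y⟫_ℝ = 1) :
    finrank ℝ (Submodule.span ℝ F) = finrank ℝ (vectorSpan ℝ F) + 1 := by
  obtain ⟨x0, hx0⟩ := hF
  have hx0ne : x0 ≠ 0 := by
    intro h0
    have := hy x0 hx0
    rw [h0, inner_zero_left] at this
    exact zero_ne_one this
  have hvs : ∀ z ∈ vectorSpan ℝ F, ⟪z, y⟫_ℝ = 0 := by
    intro z hz
    rw [vectorSpan_def] at hz
    induction hz using Submodule.span_induction with
    | mem z hz =>
      obtain ⟨a, ha, b, hb, rfl⟩ := Set.mem_vsub.1 hz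
      rw [vsub_eq_sub, inner_sub_left, hy a ha, hy b hb, sub_self]
    | zero => exact inner_zero_left _
    | add a b _ _ ha hb => rw [inner_add_left, ha, hb, add_zero]
    | smul c a _ ha => rw [real_inner_smul_left, ha, mul_zero]
  have hsup : vectorSpan ℝ F ⊔ Submodule.span ℝ {x0} = Submodule.span ℝ F := by
    apply le_antisymm
    · apply sup_le
      · rw [vectorSpan_def, Submodule.span_le]
        intro z hz
        obtain ⟨a, ha, b, hb, rfl⟩ := Set.mem_vsub.1 hz
        exact Submodule.sub_mem _ (Submodule.subset_span ha) (Submodule.subset_span hb)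
      · rw [Submodule.span_le, Set.singleton_subset_iff]
        exact Submodule.subset_span hx0
    · rw [Submodule.span_le]
      intro z hz
      have : z = (z - x0) + x0 := by abel
      rw [this]
      exact Submodule.add_mem_sup (vsub_mem_vectorSpan ℝ hz hx0)
        (Submodule.mem_span_singleton_self x0)
  have hinf : vectorSpan ℝ F ⊓ Submodule.span ℝ {x0} = ⊥ := by
    rw [eq_bot_iff]
    rintro z ⟨hz1, hz2⟩
    obtain ⟨c, rfl⟩ := Submodule.mem_span_singleton.1 hz2
    have h1 := hvs _ hz1
    rw [real_inner_smul_left, hy x0 hx0, mul_one] at h1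
    rw [h1, zero_smul]
    exact Submodule.zero_mem _
  have h2 := Submodule.finrank_sup_add_finrank_inf_eq (vectorSpan ℝ F) (Submodule.span ℝ {x0})
  rw [hsup, hinf, finrank_bot, add_zero, finrank_span_singleton hx0ne] at h2
  exact h2

private theorem finrank_E3 : finrank ℝ E3 = 3 := by
  simp

theorem DPair.ncard_faces_zero {V L : Finset E3} (h : DPair V L) :
    (faces (convexHull ℝ (V : Set E3)) 0).ncard = V.card := by
  have hset : faces (convexHull ℝ (V : Set E3)) 0 = (fun v : E3 => ({v} : Set E3)) '' V := by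
    ext F
    constructor
    · rintro ⟨hexp, hne, hfr⟩
      obtain ⟨v, hv⟩ := hne
      have hbot : vectorSpan ℝ F = ⊥ := Submodule.finrank_eq_zero.1 hfr
      have hF : F = {v} := by
        apply Set.eq_singleton_iff_unique_mem.2 ⟨hv, fun x hx => ?_⟩
        have := vsub_mem_vectorSpan ℝ hx hv
        rw [hbot, Submodule.mem_bot, vsub_eq_sub, sub_eq_zero] at this
        exact this
      refine ⟨v, ?_, hF.symm⟩
      rw [← h.extremePoints_convexHull, ← isExtreme_singleton, ← hF]
      exact hexp.isExtreme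
    · rintro ⟨v, hv, rfl⟩
      have hvV : v ∈ V := Finset.mem_coe.1 hv
      refine ⟨fun _ => ⟨innerSL ℝ (∑ l ∈ tight L v, l), ?_⟩, Set.singleton_nonempty v, ?_⟩
      · have hval : ∀ x : E3, innerSL ℝ (∑ l ∈ tight L v, l) x = ∑ l ∈ tight L v, ⟪x, l⟫_ℝ := by
          intro x
          rw [innerSL_apply_apply, sum_inner]
          exact Finset.sum_congr rfl fun l _ => real_inner_comm _ _
        have hle : ∀ x ∈ convexHull ℝ (V : Set E3),
            ∑ l ∈ tight L v, ⟪x, l⟫_ℝ ≤ ∑ l ∈ tight L v, (1 : ℝ) := fun x hx =>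
          Finset.sum_le_sum fun l hl => (h.mem_hull_iff x).1 hx l (mem_of_tight hl)
        have hval_v : ∑ l ∈ tight L v, ⟪v, l⟫_ℝ = ∑ l ∈ tight L v, (1 : ℝ) :=
          Finset.sum_congr rfl fun l hl => by rw [real_inner_comm]; exact (mem_tight.1 hl).2
        have hvP : v ∈ convexHull ℝ (V : Set E3) := subset_convexHull ℝ _ hv
        ext x
        simp only [Set.mem_singleton_iff, Set.mem_ofPred_eq, hval]
        constructor
        · rintro rfl
          exact ⟨hvP, fun y hy => (hle y hy).trans_eq hval_v.symm⟩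
        · rintro ⟨hx, hxy⟩
          have h1 := hxy v hvP
          rw [hval_v] at h1
          have h2 : ∑ l ∈ tight L v, ⟪x, l⟫_ℝ = ∑ l ∈ tight L v, (1 : ℝ) :=
            le_antisymm (hle x hx) h1
          have h3 := (Finset.sum_eq_sum_iff_of_le fun l hl =>
            (h.mem_hull_iff x).1 hx l (mem_of_tight hl)).1 h2
          exact DPair.eq_of_tight (h.spanL v hvV) fun l hl => by
            rw [real_inner_comm]; exact h3 l hl
      · rw [vectorSpan_singleton, finrank_bot]
  rw [hset, Set.ncard_image_of_injective _ Set.singleton_injective, Set.ncard_coe_finset]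

theorem DPair.ncard_faces_two {V L : Finset E3} (h : DPair V L) :
    (faces (convexHull ℝ (V : Set E3)) 2).ncard = L.card := by
  have hset : faces (convexHull ℝ (V : Set E3)) 2 =
      (fun l : E3 => {x ∈ convexHull ℝ (V : Set E3) | ⟪x, l⟫_ℝ = 1}) '' L := by
    ext F
    constructor
    · rintro ⟨hexp, hne, hfr⟩
      obtain ⟨g, hg⟩ := hexp hne
      obtain ⟨x0, hx0⟩ := hne
      have hx0' := hx0
      rw [hg] at hx0'
      obtain ⟨hx0P, hx0max⟩ := hx0'
      have hnhds := h.hull_mem_nhds
      -- every vector is a positive multiple of a point of the polytope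
      have habs : ∀ x : E3, ∃ t : ℝ, 0 < t ∧ t • x ∈ convexHull ℝ (V : Set E3) := by
        intro x
        have hcont : Filter.Tendsto (fun t : ℝ => t • x) (nhds 0) (nhds (0 : E3)) := by
          have : Continuous (fun t : ℝ => t • x) := continuous_id.smul continuous_const
          have h2 := this.tendsto 0
          simpa using h2
        have hev := hcont.eventually hnhds
        obtain ⟨ε, hε, hball⟩ := Metric.eventually_nhds_iff.1 hev
        refine ⟨ε / 2, half_pos hε, hball ?_⟩
        rw [Real.dist_eq, sub_zero, abs_of_pos (half_pos hε)]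
        exact half_lt_self hε
      set f : E3 := (InnerProductSpace.toDual ℝ E3).symm g with hf
      have hgf : ∀ x : E3, g x = ⟪x, f⟫_ℝ := by
        intro x
        rw [real_inner_comm, hf, InnerProductSpace.toDual_symm_apply]
      have hm : 0 < g x0 := by
        by_contra hcon
        push Not at hcon
        have hf0 : f = 0 := by
          obtain ⟨t, ht, htP⟩ := habs f
          have h1 := (hx0max _ htP).trans hcon
          rw [hgf, real_inner_smul_left, real_inner_self_eq_norm_sq] at h1
          have h2 : ‖f‖ ^ 2 ≤ 0 := by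
            by_contra h3
            push Not at h3
            exact absurd h1 (not_le.2 (mul_pos ht h3))
          have h4 : ‖f‖ ^ 2 = 0 := le_antisymm h2 (sq_nonneg _)
          exact norm_eq_zero.1 (pow_eq_zero_iff (two_ne_zero)|>.1 h4)
        have hFP : F = convexHull ℝ (V : Set E3) := by
          rw [hg]
          ext x
          simp only [Set.mem_ofPred_eq, hgf, hf0, inner_zero_right, le_refl, implies_true, and_true]
        have htop : vectorSpan ℝ F = ⊤ := by
          rw [eq_top_iff]
          intro x _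
          obtain ⟨t, ht, htP⟩ := habs x
          have h0 : (0 : E3) ∈ convexHull ℝ (V : Set E3) := mem_of_mem_nhds hnhds
          rw [← hFP] at h0 htP
          have h1 := vsub_mem_vectorSpan ℝ htP h0
          rw [vsub_eq_sub, sub_zero] at h1
          have h2 := Submodule.smul_mem _ t⁻¹ h1
          rwa [smul_smul, inv_mul_cancel₀ ht.ne', one_smul] at h2
        rw [htop, finrank_top, finrank_E3] at hfr
        omega
      have hyF : F = {x ∈ convexHull ℝ (V : Set E3) | ⟪x, (g x0)⁻¹ • f⟫_ℝ = 1} := by
        conv_lhs => rw [hg]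
        ext x
        simp only [Set.mem_ofPred_eq]
        constructor
        · rintro ⟨hx, hxmax⟩
          refine ⟨hx, ?_⟩
          have : g x = g x0 := le_antisymm (hx0max x hx) (hxmax x0 hx0P)
          rw [real_inner_smul_right, ← hgf, this, inv_mul_cancel₀ hm.ne']
        · rintro ⟨hx, hx1⟩
          refine ⟨hx, fun y hy => ?_⟩
          rw [real_inner_smul_right, ← hgf] at hx1
          have : g x = g x0 := by
            field_simp at hx1
            linarith
          rw [this]
          exact hx0max y hy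
      have hyV : ∀ v ∈ V, ⟪v, (g x0)⁻¹ • f⟫_ℝ ≤ 1 := by
        intro v hv
        rw [real_inner_smul_right, ← hgf, inv_mul_le_iff₀ hm, mul_one]
        exact hx0max v (subset_convexHull ℝ _ (Finset.mem_coe.2 hv))
      have hspanF : Submodule.span ℝ F = ⊤ := by
        apply Submodule.eq_top_of_finrank_eq
        have h1 : ∀ x ∈ F, ⟪x, (g x0)⁻¹ • f⟫_ℝ = 1 := by
          intro x hx
          rw [hyF] at hx
          exact hx.2
        rw [finrank_span_eq ⟨x0, hx0⟩ h1, hfr, finrank_E3]
      have hspanT : Submodule.span ℝ (tight V ((g x0)⁻¹ • f) : Set E3) = ⊤ := by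
        rw [eq_top_iff, ← hspanF, Submodule.span_le, hyF, h.face_eq_convexHull hyV]
        exact convexHull_min Submodule.subset_span (Submodule.convex _)
      exact ⟨(g x0)⁻¹ • f, Finset.mem_coe.2 ((h.mem_iff _).2 ⟨hyV, hspanT⟩), hyF.symm⟩
    · rintro ⟨l, hl, rfl⟩
      have hlL : l ∈ L := Finset.mem_coe.1 hl
      have hle : ∀ x ∈ convexHull ℝ (V : Set E3), ⟪x, l⟫_ℝ ≤ 1 := fun x hx =>
        (h.mem_hull_iff x).1 hx l hlL
      have htne : (tight V l).Nonempty := by
        rw [← Finset.card_pos]
        exact lt_of_lt_of_le (by norm_num) (h.three_le hlL)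
      obtain ⟨v0, hv0⟩ := htne
      have hv0P : v0 ∈ convexHull ℝ (V : Set E3) :=
        subset_convexHull ℝ _ (Finset.mem_coe.2 (mem_of_tight hv0))
      have hv0l : ⟪v0, l⟫_ℝ = 1 := (mem_tight.1 hv0).2
      refine ⟨fun _ => ⟨innerSL ℝ l, ?_⟩, ⟨v0, hv0P, hv0l⟩, ?_⟩
      · ext x
        simp only [Set.mem_ofPred_eq, innerSL_apply_apply]
        constructor
        · rintro ⟨hx, hx1⟩
          refine ⟨hx, fun y hy => ?_⟩
          rw [real_inner_comm, real_inner_comm x l, hx1]
          exact hle y hy
        · rintro ⟨hx, hxmax⟩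
          refine ⟨hx, le_antisymm (hle x hx) ?_⟩
          have := hxmax v0 hv0P
          rw [real_inner_comm, real_inner_comm x l, hv0l] at this
          exact this
      · have h1 := finrank_span_eq (F := {x ∈ convexHull ℝ (V : Set E3) | ⟪x, l⟫_ℝ = 1}) (y := l)
          ⟨v0, hv0P, hv0l⟩ (fun x hx => hx.2)
        have h2 : Submodule.span ℝ {x ∈ convexHull ℝ (V : Set E3) | ⟪x, l⟫_ℝ = 1} = ⊤ := by
          rw [eq_top_iff, ← h.spanV l hlL]
          apply Submodule.span_mono
          intro v hv
          have hv' := Finset.mem_coe.1 hv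
          exact ⟨subset_convexHull ℝ _ (Finset.mem_coe.2 (mem_of_tight hv')), (mem_tight.1 hv').2⟩
        rw [h2, finrank_top, finrank_E3] at h1
        change finrank ℝ (vectorSpan ℝ {x ∈ convexHull ℝ (V : Set E3) | ⟪x, l⟫_ℝ = 1}) = 2
        omega
  have hinj : Set.InjOn (fun l : E3 => {x ∈ convexHull ℝ (V : Set E3) | ⟪x, l⟫_ℝ = 1}) L := by
    intro l hl l' hl' heq
    have hlL : l ∈ L := Finset.mem_coe.1 hl
    symm
    refine DPair.eq_of_tight (h.spanV l hlL) fun a ha => ?_
    have ha1 : a ∈ {x ∈ convexHull ℝ (V : Set E3) | ⟪x, l⟫_ℝ = 1} :=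
      ⟨subset_convexHull ℝ _ (Finset.mem_coe.2 (mem_of_tight ha)), (mem_tight.1 ha).2⟩
    have heq' : {x ∈ convexHull ℝ (V : Set E3) | ⟪x, l⟫_ℝ = 1} =
        {x ∈ convexHull ℝ (V : Set E3) | ⟪x, l'⟫_ℝ = 1} := heq
    rw [heq'] at ha1
    exact ha1.2
  rw [hset, hinj.ncard_image, Set.ncard_coe_finset]

end Pool.Agent.SymPoly
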