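import Pool.Agent.Lib.MP_742c35_co.Exist

/-!
# JOB FIX: at most `2 * |Γ|` facets have a stabiliser with more than two elements

If `l ∈ L` is not `Thin` there are `g ≠ h` in `Γ`, both `≠ 1`, fixing `l`. The fixed space of `g`, of `h` or of
`g * h` is at most a line: an isometry different from `1` whose fixed space has dimension `≥ 2` is a reflection and has
determinant `-1`; so if all three fixed spaces had dimension `≥ 2`, then `g * h = 1` and `g * g = 1`, so `g = h`.
So `l` is on the fixed line of some `k ∈ Γ` which has a one-dimensional fixed space; by `card_line_le_two` (for the pair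
`h.symm`) each such `k` accounts for at most two `l ∈ L`.
-/

set_option autoImplicit false

open Set Module
open scoped InnerProductSpace

namespace Pool.Agent.SymPoly

/-- the fixed space of an isometry -/
private noncomputable def fixS (g : E3 ≃ₗᵢ[ℝ] E3) : Submodule ℝ E3 :=
  LinearMap.eqLocus (g.toLinearEquiv : E3 →ₗ[ℝ] E3) LinearMap.id

private theorem mem_fixS {g : E3 ≃ₗᵢ[ℝ] E3} {x : E3} : x ∈ fixS g ↔ g x = x := Iff.rfl

/-- the determinant of an isometry -/
private noncomputable def dt (g : E3 ≃ₗᵢ[ℝ] E3) : ℝ := LinearMap.det (g.toLinearEquiv : E3 →ₗ[ℝ] E3)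

private theorem dt_mul (g h : E3 ≃ₗᵢ[ℝ] E3) : dt (g * h) = dt g * dt h := by
  unfold dt
  rw [← LinearMap.det_comp]
  rfl

private theorem dt_eq_neg_one {g : E3 ≃ₗᵢ[ℝ] E3} (hg : g ≠ 1) (h2 : 2 ≤ finrank ℝ (fixS g)) :
    dt g = -1 := by
  have hsum := Submodule.finrank_add_finrank_orthogonal (fixS g)
  have h3 : finrank ℝ E3 = 3 := by simp [E3]
  rw [h3] at hsum
  have hne : finrank ℝ (fixS g)ᗮ ≠ 0 := by
    intro h0
    apply hg
    have htop : fixS g = ⊤ := by
      apply Submodule.eq_top_of_finrank_eq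
      omega
    ext1 x
    have : x ∈ fixS g := by rw [htop]; trivial
    exact this
  have h1 : finrank ℝ (fixS g)ᗮ = 1 := by omega
  obtain ⟨w, hw0, hw⟩ := finrank_eq_one_iff'.1 h1
  have hmaps : ∀ q ∈ (fixS g)ᗮ, g q ∈ (fixS g)ᗮ := by
    intro q hq
    rw [Submodule.mem_orthogonal]
    intro u hu
    have : ⟪g u, g q⟫_ℝ = ⟪u, q⟫_ℝ := g.inner_map_map u q
    rw [mem_fixS.1 hu] at this
    rw [this]
    exact (Submodule.mem_orthogonal _ _).1 hq u hu
  obtain ⟨c, hc⟩ := hw ⟨g w, hmaps w w.2⟩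
  have hc' : c • (w : E3) = g w := congrArg Subtype.val hc
  have hwne : (w : E3) ≠ 0 := by simpa using hw0
  have hcabs : |c| = 1 := by
    have h4 : ‖c • (w : E3)‖ = ‖(w : E3)‖ := by rw [hc', g.norm_map]
    rw [norm_smul, Real.norm_eq_abs] at h4
    have h5 : ‖(w : E3)‖ ≠ 0 := by simpa using hwne
    exact mul_right_cancel₀ h5 (by rw [h4, one_mul])
  have hcm : c = -1 := by
    rcases (abs_eq zero_le_one).1 hcabs with h | h
    · exfalso
      apply hwne
      have h6 : (w : E3) ∈ fixS g := by rw [mem_fixS, ← hc', h, one_smul]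
      have h7 := (Submodule.mem_orthogonal _ _).1 w.2 _ h6
      exact inner_self_eq_zero.1 h7
    · exact h
  have hneg : ∀ q ∈ (fixS g)ᗮ, g q = -q := by
    intro q hq
    obtain ⟨a, ha⟩ := hw ⟨q, hq⟩
    have ha' : a • (w : E3) = q := congrArg Subtype.val ha
    rw [← ha', map_smul, ← hc', hcm, smul_smul]
    rw [mul_comm, ← smul_smul, neg_one_smul]
  have hrefl : g = (fixS g).reflection := by
    ext1 x
    have hp : (fixS g).starProjection x ∈ fixS g := (fixS g).starProjection_apply_mem x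
    have hq : x - (fixS g).starProjection x ∈ (fixS g)ᗮ :=
      Submodule.sub_starProjection_mem_orthogonal x
    have e : g x = g ((fixS g).starProjection x) + g (x - (fixS g).starProjection x) := by
      rw [← map_add]
      congr 1
      abel
    rw [Submodule.reflection_apply, e, mem_fixS.1 hp, hneg _ hq, two_smul]
    abel
  have hdet := Submodule.det_reflection (fixS g)
  rw [h1, pow_one] at hdet
  rw [dt, hrefl]
  exact hdet

private theorem exists_line {g h : E3 ≃ₗᵢ[ℝ] E3} (hg : g ≠ 1) (hh : h ≠ 1) (hgh : g ≠ h) :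
    finrank ℝ (fixS g) ≤ 1 ∨ finrank ℝ (fixS h) ≤ 1 ∨ finrank ℝ (fixS (g * h)) ≤ 1 := by
  by_contra hcon
  push Not at hcon
  obtain ⟨h1, h2, h3⟩ := hcon
  have d1 := dt_eq_neg_one hg h1
  have d2 := dt_eq_neg_one hh h2
  have e1 : g * h = 1 := by
    by_contra hne
    have := dt_eq_neg_one hne h3
    rw [dt_mul, d1, d2] at this
    norm_num at this
  have e2 : g * g = 1 := by
    by_contra hne
    have hle : fixS g ≤ fixS (g * g) := by
      intro x hx
      rw [mem_fixS] at hx ⊢
      show g (g x) = x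
      rw [hx, hx]
    have := dt_eq_neg_one hne (le_trans (Nat.succ_le_of_lt h1) (Submodule.finrank_mono hle))
    rw [dt_mul, d1] at this
    norm_num at this
  exact hgh (mul_left_cancel (e2.trans e1.symm))

open Classical in
theorem card_not_thin_le {Γ : Subgroup (E3 ≃ₗᵢ[ℝ] E3)} [Finite Γ] {V L : Finset E3}
    (h : GPair Γ V L) : (L.filter fun l => ¬ Thin Γ l).card ≤ 2 * Nat.card Γ := by
  have : Fintype Γ := Fintype.ofFinite Γ
  set f : Γ → Finset E3 := fun k =>
    if finrank ℝ (fixS (k : E3 ≃ₗᵢ[ℝ] E3)) ≤ 1 then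
      L.filter (fun l => (k : E3 ≃ₗᵢ[ℝ] E3) l = l) else ∅ with hf
  have hsub : (L.filter fun l => ¬ Thin Γ l) ⊆ (Finset.univ : Finset Γ).biUnion f := by
    intro l hl
    rw [Finset.mem_filter] at hl
    obtain ⟨hlL, hthin⟩ := hl
    unfold Thin at hthin
    push Not at hthin
    obtain ⟨g, hgΓ, k, hkΓ, hgl, hkl, hg1, hk1, hgk⟩ := hthin
    have key : ∃ m ∈ Γ, m l = l ∧ finrank ℝ (fixS m) ≤ 1 := by
      rcases exists_line hg1 hk1 hgk with h1 | h1 | h1
      · exact ⟨g, hgΓ, hgl, h1⟩
      · exact ⟨k, hkΓ, hkl, h1⟩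
      · refine ⟨g * k, Γ.mul_mem hgΓ hkΓ, ?_, h1⟩
        show g (k l) = l
        rw [hkl, hgl]
    obtain ⟨m, hmΓ, hml, hm1⟩ := key
    rw [Finset.mem_biUnion]
    refine ⟨⟨m, hmΓ⟩, Finset.mem_univ _, ?_⟩
    rw [hf]
    simp only
    rw [if_pos hm1, Finset.mem_filter]
    exact ⟨hlL, hml⟩
  refine (Finset.card_le_card hsub).trans ?_
  refine (Finset.card_biUnion_le_card_mul _ _ 2 ?_).trans ?_
  · intro k _
    rw [hf]
    simp only
    split_ifs with hk
    · obtain ⟨w, hw⟩ := finrank_le_one_iff.1 hk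
      refine DPair.card_line_le_two h.dpair.symm (w : E3) (Finset.filter_subset _ _) ?_
      intro a ha
      rw [Finset.mem_filter] at ha
      obtain ⟨c, hc⟩ := hw ⟨a, mem_fixS.2 ha.2⟩
      exact ⟨c, (congrArg Subtype.val hc).symm⟩
    · simp
  · rw [Finset.card_univ, ← Nat.card_eq_fintype_card, mul_comm]

end Pool.Agent.SymPoly
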