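import Pool.Agent.Lib.MP_742c35_co.Basic

/-!
# JOB GENERIC: a generic new orbit destroys all additional linear symmetries

Let `v 0, v 1, v 2 ∈ V` be linearly independent (exists since `V` spans). For `x ∈ U` suppose `A ≠ 0` linear,
`A` maps `V ∪ Γ x` to itself, and `A` is not in `Γ`. The type of `A` is the list of `A (v i) ∈ V` or `= g_i x`, and
`A x ∈ V` or `= g x`. There are finitely many types, so for some type `τ` the set `U_τ` of the `x ∈ U` which admit
such an `A` of type `τ` is not nowhere dense (a finite union of nowhere dense sets is nowhere dense); so there is a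
nonempty open `W ⊆ U ∩ closure U_τ`. With the dual basis `v i ^*` the relation `A x = ∑ v_i^*(x) A (v i)` reads
`q x + ∑_{i ∉ I} v_i^*(x) u_i = τ_0(x)`, `q x = ∑_{i ∈ I} v_i^*(x) g_i x`, and holds on `U_τ`, hence on `W` (closed
condition). Second difference at `x ∈ W`: `2 q(e) = 0` for small `e`, hence for all `e` (homogeneous); `e = v i` gives
`g_i (v i) = 0` for `i ∈ I`. So `I = ∅`, and `A` is the same map for all `x ∈ U_τ`. If `τ_0` is a constant `u ∈ V` then
`A` is constant on the open set `W`, so `A = 0`. If `A x = g x` on `W` then `A = g`: contradiction.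
-/

set_option autoImplicit false

open Set Module
open scoped InnerProductSpace

namespace Pool.Agent.SymPoly

private theorem exists_small {W : Set E3} (hW : IsOpen W) {x : E3} (hx : x ∈ W) (e : E3) :
    ∃ t : ℝ, 0 < t ∧ x + t • e ∈ W ∧ x - t • e ∈ W := by
  obtain ⟨ε, hε, hball⟩ := Metric.isOpen_iff.1 hW x hx
  have hpos : 0 < 2 * (‖e‖ + 1) := by positivity
  have hlt : ‖(ε / (2 * (‖e‖ + 1))) • e‖ < ε := by
    rw [norm_smul, Real.norm_of_nonneg (by positivity), div_mul_eq_mul_div, div_lt_iff₀ hpos]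
    nlinarith [norm_nonneg e]
  refine ⟨ε / (2 * (‖e‖ + 1)), by positivity, hball ?_, hball ?_⟩
  · simpa [Metric.mem_ball, dist_eq_norm] using hlt
  · simpa [Metric.mem_ball, dist_eq_norm] using hlt

private theorem linear_zero (L : E3 →ₗ[ℝ] E3) (u : E3) {W : Set E3} (hW : IsOpen W)
    (hne : W.Nonempty) (h : ∀ x ∈ W, L x = u) : L = 0 := by
  obtain ⟨x, hx⟩ := hne
  refine LinearMap.ext fun y => ?_
  obtain ⟨t, ht, h1, -⟩ := exists_small hW hx y
  have h2 := h _ h1
  rw [map_add, h x hx, map_smul] at h2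
  have h3 : t • L y = 0 := by simpa using h2
  rcases smul_eq_zero.1 h3 with h4 | h4
  · exact absurd h4 ht.ne'
  · simpa using h4

private noncomputable def val (s : E3 ⊕ (E3 ≃ₗᵢ[ℝ] E3)) (x : E3) : E3 := Sum.elim (fun u => u) (fun g => g x) s

private theorem val_cont (s : E3 ⊕ (E3 ≃ₗᵢ[ℝ] E3)) : Continuous (val s) := by
  rcases s with u | g
  · exact continuous_const
  · exact g.continuous

/-- the linear part of `val s` -/
private noncomputable def lin (s : E3 ⊕ (E3 ≃ₗᵢ[ℝ] E3)) : E3 →ₗ[ℝ] E3 :=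
  Sum.elim (fun _ => 0) (fun g => g.toLinearEquiv.toLinearMap) s

private theorem val_add (s : E3 ⊕ (E3 ≃ₗᵢ[ℝ] E3)) (x e : E3) : val s (x + e) = val s x + lin s e := by
  rcases s with u | g
  · simp [val, lin]
  · simp [val, lin]

private theorem val_sub (s : E3 ⊕ (E3 ≃ₗᵢ[ℝ] E3)) (x e : E3) : val s (x - e) = val s x - lin s e := by
  rcases s with u | g
  · simp [val, lin]
  · simp [val, lin]

private theorem closed_cond {s W : Set E3} {F H : E3 → E3} (hF : Continuous F) (hH : Continuous H)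
    (h : ∀ x ∈ s, F x = H x) (hW : W ⊆ closure s) : ∀ x ∈ W, F x = H x := by
  intro x hx
  exact (isClosed_eq hF hH).closure_subset_iff.2 (fun y hy => h y hy) (hW hx)

private theorem type_nd (Γ : Subgroup (E3 ≃ₗᵢ[ℝ] E3)) (b : Basis (Fin 3) ℝ E3)
    (τ : Fin 3 → E3 ⊕ (E3 ≃ₗᵢ[ℝ] E3)) (τ0 : E3 ⊕ (E3 ≃ₗᵢ[ℝ] E3))
    (hτ0 : ∀ g, τ0 = Sum.inr g → g ∈ Γ) :
    IsNowhereDense {x : E3 | ∃ A : E3 →ₗ[ℝ] E3, A ≠ 0 ∧ (¬ ∃ g ∈ Γ, ∀ y, A y = g y) ∧
      (∀ i, A (b i) = val (τ i) x) ∧ A x = val τ0 x} := by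
  set s : Set E3 := {x : E3 | ∃ A : E3 →ₗ[ℝ] E3, A ≠ 0 ∧ (¬ ∃ g ∈ Γ, ∀ y, A y = g y) ∧
      (∀ i, A (b i) = val (τ i) x) ∧ A x = val τ0 x} with hs
  by_contra hcon
  have hne : (interior (closure s)).Nonempty := by
    rw [Set.nonempty_iff_ne_empty]
    exact hcon
  have hW : IsOpen (interior (closure s)) := isOpen_interior
  have hsub : interior (closure s) ⊆ closure s := interior_subset
  generalize interior (closure s) = W at hne hW hsub
  -- the relation
  have hrel : ∀ x ∈ W, ∑ i, b.repr x i • val (τ i) x = val τ0 x := by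
    refine closed_cond ?_ (val_cont τ0) ?_ hsub
    · refine continuous_finsetSum _ fun i _ => ?_
      have h1 : Continuous fun x : E3 => b.repr x i :=
        LinearMap.continuous_of_finiteDimensional (b.coord i)
      exact h1.smul (val_cont (τ i))
    · rintro x ⟨A, -, -, h1, h2⟩
      rw [← h2]
      conv_rhs => rw [← b.sum_repr x, map_sum]
      refine Finset.sum_congr rfl fun i _ => ?_
      rw [map_smul, h1 i]
  -- no moving value
  have hI : ∀ j g, τ j ≠ Sum.inr g := by
    intro j g hj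
    obtain ⟨x, hx⟩ := hne
    obtain ⟨t, ht, h1, h2⟩ := exists_small hW hx (b j)
    have e0 := hrel x hx
    have e1 := hrel _ h1
    have e2 := hrel _ h2
    have key : ∑ i, b.repr (x + t • b j) i • val (τ i) (x + t • b j)
        + ∑ i, b.repr (x - t • b j) i • val (τ i) (x - t • b j)
        - (2 : ℝ) • ∑ i, b.repr x i • val (τ i) x = (2 * t * t) • lin (τ j) (b j) := by
      rw [Finset.smul_sum, ← Finset.sum_add_distrib, ← Finset.sum_sub_distrib]
      rw [Finset.sum_eq_single j]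
      · rw [val_add, val_sub]
        simp only [map_add, map_sub, map_smul, Finsupp.add_apply, Finsupp.sub_apply,
          Finsupp.smul_apply, Basis.repr_self, Finsupp.single_eq_same, smul_eq_mul, mul_one]
        module
      · intro i _ hij
        rw [val_add, val_sub]
        simp only [map_add, map_sub, map_smul, Finsupp.add_apply, Finsupp.sub_apply,
          Finsupp.smul_apply, Basis.repr_self, Finsupp.single_eq_of_ne hij, smul_eq_mul, mul_zero,
          add_zero, sub_zero]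
        module
      · intro h
        exact absurd (Finset.mem_univ j) h
    rw [e0, e1, e2, val_add, val_sub] at key
    have h3 : (2 * t * t) • lin (τ j) (b j) = 0 := by
      rw [← key]
      module
    rcases smul_eq_zero.1 h3 with h4 | h4
    · have : 0 < 2 * t * t := by positivity
      exact absurd h4 this.ne'
    · rw [hj] at h4
      have h5 : g (b j) = 0 := h4
      have h6 : b j = 0 := by simpa using h5
      exact b.ne_zero j h6
  -- all the maps are equal
  have hval : ∀ i, ∀ x y : E3, val (τ i) x = val (τ i) y := by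
    intro i x y
    rcases hi : τ i with u | g
    · rfl
    · exact absurd hi (hI i g)
  have hs_ne : s.Nonempty := by
    rw [← closure_nonempty_iff]
    exact hne.mono hsub
  obtain ⟨x₀, A, hA0, hAΓ, hA1, hA2⟩ := hs_ne
  have hAll : ∀ x ∈ W, A x = val τ0 x := by
    intro x hx
    rw [← hrel x hx]
    conv_lhs => rw [← b.sum_repr x, map_sum]
    refine Finset.sum_congr rfl fun i _ => ?_
    rw [map_smul, hA1 i, hval i x x₀]
  rcases h0 : τ0 with u | g
  · rw [h0] at hAll
    exact hA0 (linear_zero A u hW hne hAll)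
  · rw [h0] at hAll
    refine hAΓ ⟨g, hτ0 g h0, fun y => ?_⟩
    have h1 := linear_zero (A - g.toLinearEquiv.toLinearMap) 0 hW hne (by
      intro x hx
      have := hAll x hx
      simp only [LinearMap.sub_apply]
      rw [this]
      exact sub_self _)
    have h2 := congrArg (fun L : E3 →ₗ[ℝ] E3 => L y) h1
    simpa [sub_eq_zero] using h2

theorem exists_generic (Γ : Subgroup (E3 ≃ₗᵢ[ℝ] E3)) [Finite Γ] {V : Finset E3}
    (hV : Submodule.span ℝ (V : Set E3) = ⊤) {U : Set E3} (hU : IsOpen U) (hne : U.Nonempty) :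
    ∃ x ∈ U, ∀ A : E3 →ₗ[ℝ] E3, A ≠ 0 →
      (∀ w : E3, (w ∈ V ∨ ∃ g ∈ Γ, w = g x) → (A w ∈ V ∨ ∃ g ∈ Γ, A w = g x)) →
      ∃ g ∈ Γ, ∀ y, A y = g y := by
  classical
  -- a basis in `V`
  obtain ⟨b, hb⟩ : ∃ b : Basis (Fin 3) ℝ E3, ∀ i, b i ∈ V := by
    obtain ⟨S, hSV, hSs, hSi⟩ := exists_linearIndependent ℝ (V : Set E3)
    have hsp : ⊤ ≤ Submodule.span ℝ (Set.range ((↑) : S → E3)) := by
      rw [Subtype.range_coe, hSs, hV]
    let b0 : Basis S ℝ E3 := Basis.mk hSi hsp
    have hfin : Finite S := (V.finite_toSet.subset hSV)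
    have : Fintype S := Fintype.ofFinite S
    have hcard : Fintype.card S = 3 := by
      have := Module.finrank_eq_card_basis b0
      rw [← this]
      simp
    let e : S ≃ Fin 3 := Fintype.equivFinOfCardEq hcard
    refine ⟨b0.reindex e, fun i => ?_⟩
    rw [Basis.reindex_apply, Basis.mk_apply]
    exact hSV (e.symm i).2
  by_contra hcon
  push Not at hcon
  -- the types
  let T := (Fin 3 → {u // u ∈ V} ⊕ Γ) × ({u // u ∈ V} ⊕ Γ)
  let φ : ({u // u ∈ V} ⊕ Γ) → E3 ⊕ (E3 ≃ₗᵢ[ℝ] E3) := Sum.map Subtype.val Subtype.val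
  let S : T → Set E3 := fun τ => {x : E3 | ∃ A : E3 →ₗ[ℝ] E3, A ≠ 0 ∧
      (¬ ∃ g ∈ Γ, ∀ y, A y = g y) ∧
      (∀ i, A (b i) = val (φ (τ.1 i)) x) ∧ A x = val (φ τ.2) x}
  have hcount : Countable T := inferInstance
  have hmeag : IsMeagre (⋃ τ, S τ) := by
    refine isMeagre_iUnion fun τ => ?_
    refine (type_nd Γ b (fun i => φ (τ.1 i)) (φ τ.2) ?_).isMeagre
    intro g hg
    rcases h : τ.2 with u | g'
    · rw [h] at hg
      exact absurd hg (by simp [φ])
    · rw [h] at hg
      have : (g' : E3 ≃ₗᵢ[ℝ] E3) = g := by simpa [φ] using hg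
      rw [← this]
      exact g'.2
  refine not_isMeagre_of_isOpen hU hne (hmeag.mono ?_)
  intro x hx
  obtain ⟨A, hA0, hA1, hA2⟩ := hcon x hx
  have hex : ∀ w : E3, (w ∈ V ∨ ∃ g ∈ Γ, w = g x) → ∃ s : {u // u ∈ V} ⊕ Γ, A w = val (φ s) x := by
    intro w hw
    rcases hA1 w hw with h | ⟨g, hg, h⟩
    · exact ⟨Sum.inl ⟨A w, h⟩, rfl⟩
    · exact ⟨Sum.inr ⟨g, hg⟩, h⟩
  choose σ hσ using fun i => hex (b i) (Or.inl (hb i))
  obtain ⟨σ0, hσ0⟩ := hex x (Or.inr ⟨1, Γ.one_mem, rfl⟩)
  refine Set.mem_iUnion.2 ⟨(σ, σ0), A, hA0, ?_, hσ, hσ0⟩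
  rintro ⟨g, hg, h⟩
  obtain ⟨y, hy⟩ := hA2 g hg
  exact hy (h y)

end Pool.Agent.SymPoly
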