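import Pool.Agent.Lib.MP_742c35_co.Basic

/-!
# JOB PIGEON: choosing an invariant set with prescribed congruences

`T` is a union of orbits of `Γ`, each of size at most `n = |Γ|`. If `|T| > n * (3 n) * (n * (3 n))` there are more than
`(3 n) * (n * (3 n))` orbits; assign to an orbit `O` the pair `(|O| mod n, ∑_{l ∈ O} f l mod 3 n)`; there are `n * (3 n)` values, so
`3 n` orbits have the same value (`Finset.exists_lt_card_fiber_of_mul_lt_card_of_maps_to` and a subset of exactly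
`3 n` of them); `M` = their union.
-/

set_option autoImplicit false

open Set Module
open scoped InnerProductSpace

namespace Pool.Agent.SymPoly

open Classical in
/-- the orbit of a point -/
private noncomputable def orb (Γ : Subgroup (E3 ≃ₗᵢ[ℝ] E3)) [Fintype Γ] (l : E3) : Finset E3 :=
  Finset.univ.image fun g : Γ => (g : E3 ≃ₗᵢ[ℝ] E3) l

private theorem mem_orb {Γ : Subgroup (E3 ≃ₗᵢ[ℝ] E3)} [Fintype Γ] {l a : E3} :
    a ∈ orb Γ l ↔ ∃ g ∈ Γ, g l = a := by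
  unfold orb
  rw [Finset.mem_image]
  constructor
  · rintro ⟨g, -, h⟩
    exact ⟨g, g.2, h⟩
  · rintro ⟨g, hg, h⟩
    exact ⟨⟨g, hg⟩, Finset.mem_univ _, h⟩

private theorem self_mem_orb {Γ : Subgroup (E3 ≃ₗᵢ[ℝ] E3)} [Fintype Γ] (l : E3) :
    l ∈ orb Γ l := mem_orb.2 ⟨1, Γ.one_mem, rfl⟩

private theorem orb_eq_of_mem {Γ : Subgroup (E3 ≃ₗᵢ[ℝ] E3)} [Fintype Γ] {l a : E3}
    (ha : a ∈ orb Γ l) : orb Γ a = orb Γ l := by
  obtain ⟨g, hg, rfl⟩ := mem_orb.1 ha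
  ext b
  rw [mem_orb, mem_orb]
  constructor
  · rintro ⟨k, hk, rfl⟩
    exact ⟨k * g, Γ.mul_mem hk hg, rfl⟩
  · rintro ⟨k, hk, rfl⟩
    refine ⟨k * g⁻¹, Γ.mul_mem hk (Γ.inv_mem hg), ?_⟩
    show k (g⁻¹ (g l)) = k l
    rw [show g⁻¹ (g l) = l from g.symm_apply_apply l]

private theorem card_orb_le {Γ : Subgroup (E3 ≃ₗᵢ[ℝ] E3)} [Fintype Γ] (l : E3) :
    (orb Γ l).card ≤ Nat.card Γ := by
  unfold orb
  refine Finset.card_image_le.trans ?_
  rw [Finset.card_univ, Nat.card_eq_fintype_card]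

theorem exists_invariant_subset (Γ : Subgroup (E3 ≃ₗᵢ[ℝ] E3)) [Finite Γ] (f : E3 → ℕ)
    {T : Finset E3} (hT : Inv Γ T)
    (hcard : Nat.card Γ * (3 * Nat.card Γ) * (Nat.card Γ * (3 * Nat.card Γ)) < T.card) :
    ∃ M : Finset E3, M ⊆ T ∧ Inv Γ M ∧ M.Nonempty ∧ Nat.card Γ ∣ M.card ∧
      3 * Nat.card Γ ∣ ∑ l ∈ M, f l := by
  classical
  have : Fintype Γ := Fintype.ofFinite Γ
  set n : ℕ := Nat.card Γ with hn
  have hn0 : 0 < n := Nat.card_pos
  set 𝒪 : Finset (Finset E3) := T.image (orb Γ) with h𝒪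
  have hsub : ∀ O ∈ 𝒪, O ⊆ T := by
    intro O hO
    obtain ⟨l, hl, rfl⟩ := Finset.mem_image.1 hO
    intro a ha
    obtain ⟨g, hg, rfl⟩ := mem_orb.1 ha
    exact hT g hg l hl
  have hOcard : ∀ O ∈ 𝒪, O.card ≤ n := by
    intro O hO
    obtain ⟨l, hl, rfl⟩ := Finset.mem_image.1 hO
    exact card_orb_le l
  have hOne : ∀ O ∈ 𝒪, O.Nonempty := by
    intro O hO
    obtain ⟨l, hl, rfl⟩ := Finset.mem_image.1 hO
    exact ⟨l, self_mem_orb l⟩
  have hdisj : ∀ O ∈ 𝒪, ∀ O' ∈ 𝒪, O ≠ O' → Disjoint O O' := by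
    intro O hO O' hO' hne
    obtain ⟨l, hl, rfl⟩ := Finset.mem_image.1 hO
    obtain ⟨l', hl', rfl⟩ := Finset.mem_image.1 hO'
    rw [Finset.disjoint_left]
    intro a ha ha'
    exact hne ((orb_eq_of_mem ha).symm.trans (orb_eq_of_mem ha'))
  have hTle : T.card ≤ 𝒪.card * n := by
    have h1 : T ⊆ 𝒪.biUnion id := by
      intro a ha
      rw [Finset.mem_biUnion]
      exact ⟨orb Γ a, Finset.mem_image_of_mem _ ha, self_mem_orb a⟩
    exact (Finset.card_le_card h1).trans (Finset.card_biUnion_le_card_mul _ _ n hOcard)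
  have h𝒪card : (n * (3 * n)) * (3 * n) < 𝒪.card := by
    have h2 : n * ((n * (3 * n)) * (3 * n)) < n * 𝒪.card := by
      calc n * ((n * (3 * n)) * (3 * n)) = n * (3 * n) * (n * (3 * n)) := by ring
        _ < T.card := hcard
        _ ≤ 𝒪.card * n := hTle
        _ = n * 𝒪.card := mul_comm _ _
    exact lt_of_mul_lt_mul_left h2 hn0.le
  set t : Finset (ℕ × ℕ) := Finset.range n ×ˢ Finset.range (3 * n) with ht
  have htcard : t.card = n * (3 * n) := by simp [ht]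
  set c : Finset E3 → ℕ × ℕ := fun O => (O.card % n, (∑ l ∈ O, f l) % (3 * n)) with hc
  obtain ⟨y, hy, hfib⟩ := Finset.exists_lt_card_fiber_of_mul_lt_card_of_maps_to
    (s := 𝒪) (t := t) (f := c) (n := 3 * n) (by
      intro O _
      rw [ht, Finset.mem_product, Finset.mem_range, Finset.mem_range]
      exact ⟨Nat.mod_lt _ hn0, Nat.mod_lt _ (by omega)⟩) (by rw [htcard]; exact h𝒪card)
  obtain ⟨S, hS, hScard⟩ := Finset.exists_subset_card_eq hfib.le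
  have hS𝒪 : ∀ O ∈ S, O ∈ 𝒪 := fun O hO => (Finset.mem_filter.1 (hS hO)).1
  have hSc : ∀ O ∈ S, c O = y := fun O hO => (Finset.mem_filter.1 (hS hO)).2
  have hpd : (S : Set (Finset E3)).PairwiseDisjoint id := by
    intro O hO O' hO' hne
    exact hdisj O (hS𝒪 O hO) O' (hS𝒪 O' hO') hne
  refine ⟨S.biUnion id, ?_, ?_, ?_, ?_, ?_⟩
  · intro a ha
    obtain ⟨O, hO, ha⟩ := Finset.mem_biUnion.1 ha
    exact hsub O (hS𝒪 O hO) ha
  · intro g hg a ha
    obtain ⟨O, hO, ha⟩ := Finset.mem_biUnion.1 ha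
    rw [Finset.mem_biUnion]
    refine ⟨O, hO, ?_⟩
    obtain ⟨l, hl, rfl⟩ := Finset.mem_image.1 (hS𝒪 O hO)
    obtain ⟨k, hk, rfl⟩ := mem_orb.1 ha
    exact mem_orb.2 ⟨g * k, Γ.mul_mem hg hk, rfl⟩
  · have hSne : S.Nonempty := by
      rw [← Finset.card_pos, hScard]
      omega
    obtain ⟨O, hO⟩ := hSne
    obtain ⟨a, ha⟩ := hOne O (hS𝒪 O hO)
    exact ⟨a, Finset.mem_biUnion.2 ⟨O, hO, ha⟩⟩
  · rw [Finset.card_biUnion hpd]
    have h3 : (∑ O ∈ S, (id O).card) ≡ ∑ O ∈ S, y.1 [MOD n] := by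
      refine Nat.ModEq.sum fun O hO => ?_
      have h4 := congrArg Prod.fst (hSc O hO)
      rw [← h4]
      exact (Nat.mod_modEq _ _).symm
    rw [Finset.sum_const, hScard, smul_eq_mul] at h3
    refine (Nat.modEq_zero_iff_dvd).1 (h3.trans ?_)
    rw [Nat.modEq_zero_iff_dvd]
    exact ⟨3 * y.1, by ring⟩
  · rw [Finset.sum_biUnion hpd]
    have h3 : (∑ O ∈ S, ∑ l ∈ id O, f l) ≡ ∑ O ∈ S, y.2 [MOD 3 * n] := by
      refine Nat.ModEq.sum fun O hO => ?_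
      have h4 := congrArg Prod.snd (hSc O hO)
      rw [← h4]
      exact (Nat.mod_modEq _ _).symm
    rw [Finset.sum_const, hScard, smul_eq_mul] at h3
    refine (Nat.modEq_zero_iff_dvd).1 (h3.trans ?_)
    rw [Nat.modEq_zero_iff_dvd]
    exact ⟨y.2, rfl⟩

end Pool.Agent.SymPoly
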