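import Pool.Agent.Lib.MP_742c35_co.Stack
import Pool.Agent.Lib.MP_742c35_co.Generic

/-!
# JOB STEP: stacking a generic orbit over the orbit of a free triangle

Let `l0 ∈ L` be a triangle with trivial stabiliser, `w` the centroid of `tight V l0`. The set `U` of the `x` near `(1 + e) w` with
`1 < ⟪x, l0⟫ < 1 + d`, `⟪x, l⟫ < 1 - d` for `l ∈ L`, `l ≠ l0` is open and nonempty for suitable `d > 0` (`⟪w, l⟫ < 1` for `l ≠ l0`).
Choose `x ∈ U` by `exists_generic` (for `V`, which spans). `X = {g x : g ∈ Γ}`, `lam (g x) = g l0` (well defined because `⟪y, l⟫ > 1` has the only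
solution `l = g l0` in `L` for `y = g x`; `g ↦ g l0` is injective). Apply `DPair.stack`: `V' = V ∪ X`, `|X| = |Γ|`.
`Exact Γ V'`: a linear `A` with `A '' convexHull V' = convexHull V'` is injective (its range contains a neighbourhood of 0), so it
permutes the extreme points `V'` (`extremePoints_convexHull`; `mem_extremePoints` transfers along the linear bijection
`A`), then use the choice of `x`.
`HasTri Γ V' L'`: some `l' ∈ tight L' x` (it spans); it is a triangle by `stack`; if `g l' = l'` then `g x ∈ X` is tight for `l'`, so `g x = x`,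
so `g l0 = l0`, `g = 1`. `HasTri Γ L' V'`: `x` itself: `tight L' x` has at most 3 elements, since `l'` in it is determined by the
pair `tight V l' ⊆ tight V l0`, `|tight V l0| = 3`, with `|tight V' l'| = 3`; it has at least 3 by `three_le` for the dual pair. `Free Γ x` as before.
-/

set_option autoImplicit false

open Set Module
open scoped InnerProductSpace

namespace Pool.Agent.SymPoly

/-- A linear map which maps the hull of the vertex set onto itself permutes the vertices. -/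
private theorem step_perm {V L : Finset E3} (h : DPair V L) (A : E3 →ₗ[ℝ] E3)
    (hA : (fun x => A x) '' convexHull ℝ (V : Set E3) = convexHull ℝ (V : Set E3)) :
    A ≠ 0 ∧ ∀ v ∈ V, A v ∈ V := by
  have hr : LinearMap.range A = ⊤ := by
    have h0 : (LinearMap.range A : Set E3) ∈ nhds (0 : E3) := by
      refine Filter.mem_of_superset h.hull_mem_nhds ?_
      rw [← hA]
      rintro _ ⟨y, -, rfl⟩
      exact ⟨y, rfl⟩
    exact Submodule.eq_top_of_nonempty_interior' _ ⟨0, mem_interior_iff_mem_nhds.2 h0⟩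
  have hsurj : Function.Surjective A := LinearMap.range_eq_top.1 hr
  have hinj : Function.Injective A := LinearMap.injective_iff_surjective.2 hsurj
  refine ⟨?_, ?_⟩
  · rintro rfl
    obtain ⟨y, hy⟩ := exists_ne (0 : E3)
    obtain ⟨z, hz⟩ := hsurj y
    exact hy (by rw [← hz]; simp)
  · intro v hv
    let B : E3 ≃ₗ[ℝ] E3 := LinearEquiv.ofBijective A ⟨hinj, hsurj⟩
    have hB : ∀ y, B y = A y := fun y => rfl
    have h1 := image_extremePoints (𝕜 := ℝ) B (convexHull ℝ (V : Set E3))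
    have h2 : (B '' convexHull ℝ (V : Set E3)) = convexHull ℝ (V : Set E3) := hA
    rw [h2, h.extremePoints_convexHull] at h1
    have : B v ∈ (V : Set E3) := by
      rw [← h1]
      exact ⟨v, hv, rfl⟩
    exact this

private theorem step_region {V L : Finset E3} (h : DPair V L) {l0 : E3} (hl0 : l0 ∈ L)
    (h3 : (tight V l0).card = 3) :
    ∃ d : ℝ, 0 < d ∧ ∃ U : Set E3, IsOpen U ∧ U.Nonempty ∧ ∀ x ∈ U, 1 < ⟪x, l0⟫_ℝ ∧
      ⟪x, l0⟫_ℝ < 1 + d ∧ ∀ l ∈ L, l ≠ l0 → ⟪x, l⟫_ℝ < 1 - d := by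
  classical
  set w : E3 := (1 / 3 : ℝ) • ∑ v ∈ tight V l0, v with hw
  have hw0 : ⟪w, l0⟫_ℝ = 1 := by
    rw [hw, real_inner_smul_left, sum_inner,
      Finset.sum_congr rfl (fun v hv => (mem_tight.1 hv).2)]
    simp [h3]
  have hwl : ∀ l ∈ L, l ≠ l0 → ⟪w, l⟫_ℝ < 1 := by
    intro l hl hne
    by_contra hc
    push Not at hc
    have hs : ∑ v ∈ tight V l0, ⟪v, l⟫_ℝ ≥ 3 := by
      have : ⟪w, l⟫_ℝ = (1 / 3 : ℝ) * ∑ v ∈ tight V l0, ⟪v, l⟫_ℝ := by
        rw [hw, real_inner_smul_left, sum_inner]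
      linarith
    have hle : ∀ v ∈ tight V l0, ⟪v, l⟫_ℝ ≤ 1 := fun v hv => h.le v (mem_tight.1 hv).1 l hl
    have hs' : ∑ v ∈ tight V l0, ⟪v, l⟫_ℝ = ∑ v ∈ tight V l0, (1 : ℝ) := by
      apply le_antisymm
      · exact Finset.sum_le_sum hle
      · simp [h3]; linarith
    have heq := (Finset.sum_eq_sum_iff_of_le hle).1 hs'
    exact hne (DPair.eq_of_tight (h.spanV l0 hl0) heq)
  obtain ⟨d, hd, hd'⟩ : ∃ d : ℝ, 0 < d ∧ ∀ l ∈ L.erase l0, ⟪w, l⟫_ℝ < 1 - d := by
    rcases (L.erase l0).eq_empty_or_nonempty with he | he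
    · exact ⟨1, one_pos, by simp [he]⟩
    · obtain ⟨m, hm, hmax⟩ := (L.erase l0).exists_max_image (fun l => ⟪w, l⟫_ℝ) he
      have hm1 := hwl m (Finset.mem_of_mem_erase hm) (Finset.ne_of_mem_erase hm)
      refine ⟨(1 - ⟪w, m⟫_ℝ) / 2, by linarith, fun l hl => ?_⟩
      have := hmax l hl
      linarith
  refine ⟨d, hd, {x | 1 < ⟪x, l0⟫_ℝ ∧ ⟪x, l0⟫_ℝ < 1 + d ∧ ∀ l ∈ L.erase l0, ⟪x, l⟫_ℝ < 1 - d},
    ?_, ?_, ?_⟩
  · have e : {x : E3 | 1 < ⟪x, l0⟫_ℝ ∧ ⟪x, l0⟫_ℝ < 1 + d ∧ ∀ l ∈ L.erase l0, ⟪x, l⟫_ℝ < 1 - d} =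
        {x : E3 | 1 < ⟪x, l0⟫_ℝ} ∩ ({x : E3 | ⟪x, l0⟫_ℝ < 1 + d} ∩
          ⋂ l ∈ L.erase l0, {x : E3 | ⟪x, l⟫_ℝ < 1 - d}) := by
      ext x; simp
    rw [e]
    refine (isOpen_lt (by fun_prop) (by fun_prop)).inter
      ((isOpen_lt (by fun_prop) (by fun_prop)).inter ?_)
    exact isOpen_biInter_finset fun l _ => isOpen_lt (by fun_prop) (by fun_prop)
  · have ev1 : ∀ᶠ t : ℝ in nhds 1, t < 1 + d := Iio_mem_nhds (by linarith)
    have ev2 : ∀ᶠ t : ℝ in nhds 1, ∀ l ∈ L.erase l0, t * ⟪w, l⟫_ℝ < 1 - d := by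
      rw [Filter.eventually_all_finset]
      intro l hl
      have : Filter.Tendsto (fun t : ℝ => t * ⟪w, l⟫_ℝ) (nhds 1) (nhds (1 * ⟪w, l⟫_ℝ)) :=
        Filter.Tendsto.mul_const _ Filter.tendsto_id
      rw [one_mul] at this
      exact this.eventually (Iio_mem_nhds (hd' l hl))
    have ev3 : ∀ᶠ t : ℝ in nhdsWithin 1 (Set.Ioi 1), 1 < t := self_mem_nhdsWithin
    obtain ⟨t, ht1, ht2, ht3⟩ := (ev3.and ((ev1.filter_mono nhdsWithin_le_nhds).and
      (ev2.filter_mono nhdsWithin_le_nhds))).exists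
    refine ⟨t • w, ?_, ?_, ?_⟩
    · rw [real_inner_smul_left, hw0]; linarith
    · rw [real_inner_smul_left, hw0]; linarith
    · intro l hl
      rw [real_inner_smul_left]
      exact ht3 l hl
  · rintro x ⟨hx1, hx2, hx3⟩
    exact ⟨hx1, hx2, fun l hl hne => hx3 l (Finset.mem_erase.2 ⟨hne, hl⟩)⟩

theorem step {Γ : Subgroup (E3 ≃ₗᵢ[ℝ] E3)} [Finite Γ] {V L : Finset E3} (h : GPair Γ V L)
    (ht : HasTri Γ V L) :
    ∃ V' L' : Finset E3, GPair Γ V' L' ∧ HasTri Γ V' L' ∧ HasTri Γ L' V' ∧ Exact Γ V' ∧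
      V'.card = V.card + Nat.card Γ ∧ alpha V' L' = alpha V L := by
  classical
  obtain ⟨l0, hl0, hT, hfree⟩ := ht
  obtain ⟨d, hd, U, hUo, hUn, hU⟩ := step_region h.dpair hl0 hT
  have hspan : Submodule.span ℝ (V : Set E3) = ⊤ := by
    rw [eq_top_iff, ← h.dpair.spanV l0 hl0]
    exact Submodule.span_mono fun v hv => (mem_tight.1 (Finset.mem_coe.1 hv)).1
  obtain ⟨x, hxU, hgen⟩ := exists_generic Γ hspan hUo hUn
  obtain ⟨hx1, hx2, hx3⟩ := hU x hxU
  have hinner : ∀ g : E3 ≃ₗᵢ[ℝ] E3, ∀ y z : E3, ⟪g y, g z⟫_ℝ = ⟪y, z⟫_ℝ :=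
    fun g y z => g.inner_map_map y z
  have hmulinv : ∀ g : E3 ≃ₗᵢ[ℝ] E3, ∀ y : E3, g (g⁻¹ y) = y := fun g y => g.apply_symm_apply y
  have hinvmul : ∀ g : E3 ≃ₗᵢ[ℝ] E3, ∀ y : E3, g⁻¹ (g y) = y := fun g y => g.symm_apply_apply y
  -- injectivity of `g ↦ g l0` and `g ↦ g x`
  have hfx : Free Γ x := by
    intro g hg hgx
    apply hfree g hg
    by_contra hne
    have h1 := hx3 (g l0) (h.invL g hg l0 hl0) hne
    have h2 : ⟪x, g l0⟫_ℝ = ⟪x, l0⟫_ℝ := by
      conv_lhs => rw [← hgx]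
      exact hinner g x l0
    linarith
  have hinjOf : ∀ y : E3, Free Γ y → ∀ g ∈ Γ, ∀ g' ∈ Γ, g y = g' y → g = g' := by
    intro y hy g hg g' hg' he
    have h1 : (g'⁻¹ * g) y = y := by
      show g'⁻¹ (g y) = y
      rw [he, hinvmul]
    have h2 := hy _ (Γ.mul_mem (Γ.inv_mem hg') hg) h1
    exact (inv_mul_eq_one.1 h2).symm
  have hΓfin : (Γ : Set (E3 ≃ₗᵢ[ℝ] E3)).Finite := Set.toFinite _
  set X : Finset E3 := hΓfin.toFinset.image (fun g => g x) with hX
  have hXmem : ∀ y, y ∈ X ↔ ∃ g ∈ Γ, g x = y := by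
    intro y; simp [hX]
  set lam : E3 → E3 := fun y => if hy : ∃ g ∈ Γ, g x = y then hy.choose l0 else 0 with hlamdef
  have hlam : ∀ g ∈ Γ, lam (g x) = g l0 := by
    intro g hg
    have hy : ∃ g' ∈ Γ, g' x = g x := ⟨g, hg, rfl⟩
    have h1 : lam (g x) = hy.choose l0 := by
      simp only [hlamdef]
      rw [dif_pos hy]
    have h2 : hy.choose = g :=
      hinjOf x hfx _ hy.choose_spec.1 g hg hy.choose_spec.2
    rw [h1, h2]
  obtain ⟨L', hD, hdisj, halpha, h4⟩ := h.dpair.stack X lam (d := d)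
    (by
      intro y hy
      obtain ⟨g, hg, rfl⟩ := (hXmem y).1 hy
      rw [hlam g hg]
      exact h.invL g hg l0 hl0)
    (by
      intro y hy z hz he
      obtain ⟨g, hg, rfl⟩ := (hXmem y).1 hy
      obtain ⟨g', hg', rfl⟩ := (hXmem z).1 hz
      rw [hlam g hg, hlam g' hg'] at he
      rw [hinjOf l0 hfree g hg g' hg' he])
    (by
      intro y hy
      obtain ⟨g, hg, rfl⟩ := (hXmem y).1 hy
      rw [hlam g hg, hinner]
      exact hx1)
    (by
      intro y hy
      obtain ⟨g, hg, rfl⟩ := (hXmem y).1 hy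
      rw [hlam g hg, hinner]
      exact hx2)
    (by
      intro y hy l hl hne
      obtain ⟨g, hg, rfl⟩ := (hXmem y).1 hy
      rw [hlam g hg] at hne
      have h1 : ⟪g x, l⟫_ℝ = ⟪x, g⁻¹ l⟫_ℝ := by
        conv_lhs => rw [← hmulinv g l]
        exact hinner g x _
      rw [h1]
      refine (hx3 _ (h.invL _ (Γ.inv_mem hg) l hl) ?_).le
      intro he
      exact hne (by rw [← he, hmulinv]))
  have hxX : x ∈ X := (hXmem x).2 ⟨1, Γ.one_mem, rfl⟩
  have hlamx : lam x = l0 := by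
    have := hlam 1 Γ.one_mem
    simpa using this
  have hinvX : ∀ g ∈ Γ, ∀ y ∈ X, g y ∈ X := by
    intro g hg y hy
    obtain ⟨g', hg', rfl⟩ := (hXmem y).1 hy
    exact (hXmem _).2 ⟨g * g', Γ.mul_mem hg hg', rfl⟩
  have hinvV' : Inv Γ (V ∪ X) := by
    intro g hg a ha
    rcases Finset.mem_union.1 ha with ha | ha
    · exact Finset.mem_union_left _ (h.invV g hg a ha)
    · exact Finset.mem_union_right _ (hinvX g hg a ha)
  have hxV' : x ∈ V ∪ X := Finset.mem_union_right _ hxX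
  refine ⟨V ∪ X, L', ⟨hD, hinvV', hD.inv_of_inv hinvV'⟩, ?_, ?_, ?_, ?_, ?_⟩
  · -- triangle
    have hne : (tight L' x).Nonempty := by
      rw [Finset.nonempty_iff_ne_empty]
      intro he
      have h1 := hD.spanL x hxV'
      rw [he] at h1
      simp at h1
    obtain ⟨l', hl'⟩ := hne
    obtain ⟨hl'1, hl'2⟩ := mem_tight.1 hl'
    rw [real_inner_comm] at hl'2
    obtain ⟨hc, hu, -⟩ := h4 l' hl'1 x hxX hl'2
    refine ⟨l', hl'1, hc, ?_⟩
    intro g hg hgl
    apply hfx g hg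
    apply hu (g x) (hinvX g hg x hxX)
    conv_lhs => rw [← hgl]
    rw [hinner]
    exact hl'2
  · -- 3-valent vertex
    refine ⟨x, hxV', ?_, hfx⟩
    apply le_antisymm _ (hD.symm.three_le hxV')
    have hcard : ((tight V l0).powersetCard 2).card = 3 := by
      rw [Finset.card_powersetCard, hT]; rfl
    rw [← hcard]
    have hkey : ∀ l ∈ tight L' x, x ∈ tight (V ∪ X) l ∧ (tight (V ∪ X) l).card = 3 ∧
        (tight (V ∪ X) l).erase x ⊆ tight V l0 := by
      intro l hl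
      obtain ⟨hl1, hl2⟩ := mem_tight.1 hl
      rw [real_inner_comm] at hl2
      obtain ⟨hc, hu, hv⟩ := h4 l hl1 x hxX hl2
      refine ⟨mem_tight.2 ⟨hxV', hl2⟩, hc, ?_⟩
      intro v hv'
      obtain ⟨hvx, hvt⟩ := Finset.mem_erase.1 hv'
      obtain ⟨hvV, hvl⟩ := mem_tight.1 hvt
      rcases Finset.mem_union.1 hvV with hvV | hvX
      · rw [← hlamx]
        exact hv v hvV hvl
      · exact absurd (hu v hvX hvl) hvx
    apply Finset.card_le_card_of_injOn (fun l => (tight (V ∪ X) l).erase x)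
    · intro l hl
      obtain ⟨k1, k2, k3⟩ := hkey l hl
      rw [Finset.mem_coe, Finset.mem_powersetCard]
      refine ⟨k3, ?_⟩
      rw [Finset.card_erase_of_mem k1, k2]
    · intro l hl m hm he
      obtain ⟨k1, -, -⟩ := hkey l hl
      obtain ⟨m1, -, -⟩ := hkey m hm
      have he' : tight (V ∪ X) l = tight (V ∪ X) m := by
        rw [← Finset.insert_erase k1, ← Finset.insert_erase m1]
        simp only at he
        rw [he]
      refine DPair.eq_of_tight (A := V ∪ X) (hD.spanV m (mem_tight.1 hm).1) ?_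
      intro a ha
      rw [← he'] at ha
      exact (mem_tight.1 ha).2
  · -- exactness
    intro A hA
    obtain ⟨hA0, hAV⟩ := step_perm hD A hA
    refine hgen A hA0 ?_
    intro w hw
    have hw' : w ∈ V ∪ X := by
      rcases hw with hw | ⟨g, hg, rfl⟩
      · exact Finset.mem_union_left _ hw
      · exact Finset.mem_union_right _ ((hXmem _).2 ⟨g, hg, rfl⟩)
    rcases Finset.mem_union.1 (hAV w hw') with h1 | h1
    · exact Or.inl h1
    · obtain ⟨g, hg, he⟩ := (hXmem _).1 h1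
      exact Or.inr ⟨g, hg, he.symm⟩
  · -- number of vertices
    rw [Finset.card_union_of_disjoint hdisj]
    congr 1
    rw [hX, Finset.card_image_of_injOn]
    · rw [← Set.ncard_eq_toFinset_card _ hΓfin]
      exact Nat.card_coe_set_eq _ |>.symm
    · intro g hg g' hg' he
      exact hinjOf x hfx g (by simpa using hg) g' (by simpa using hg') he
  · -- alpha
    have hz : ∑ y ∈ X, ((tight V (lam y)).card - 3) = 0 := by
      apply Finset.sum_eq_zero
      intro y hy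
      obtain ⟨g, hg, rfl⟩ := (hXmem y).1 hy
      rw [hlam g hg]
      have : (tight V (g l0)).card ≤ (tight V l0).card := by
        apply Finset.card_le_card_of_injOn (fun v => g⁻¹ v)
        · intro v hv
          obtain ⟨hv1, hv2⟩ := mem_tight.1 (Finset.mem_coe.1 hv)
          refine Finset.mem_coe.2 (mem_tight.2 ⟨h.invV _ (Γ.inv_mem hg) v hv1, ?_⟩)
          rw [← hv2]
          conv_rhs => rw [← hmulinv g v]
          exact (hinner g _ _).symm
        · intro v _ v' _ he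
          exact (g⁻¹).injective he
      omega
    omega

end Pool.Agent.SymPoly
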