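import Pool.Agent.Lib.MP_742c35_co.Basic

/-!
# JOB TRANS: translations, invariant interior point

* `fvec_translate`: `F ↦ F + c` is a bijection `faces P k → faces (P + c) k`.
* `exists_fixed_interior`: average `(|Γ|)⁻¹ ∑ g p` of the orbit of an interior point `p` (the interior is convex and invariant).
-/

set_option autoImplicit false

open Set Module
open scoped InnerProductSpace Pointwise

namespace Pool.Agent.SymPoly

private theorem exposed_translate {P F : Set E3} (c : E3) (h : IsExposed ℝ P F) :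
    IsExposed ℝ ((fun x => x + c) '' P) ((fun x => x + c) '' F) := by
  intro hne
  obtain ⟨x0, hx0⟩ := hne
  obtain ⟨y0, hy0, -⟩ := hx0
  obtain ⟨l, hl⟩ := h ⟨y0, hy0⟩
  refine ⟨l, ?_⟩
  subst hl
  ext z
  constructor
  · rintro ⟨x, ⟨hxP, hx⟩, rfl⟩
    refine ⟨⟨x, hxP, rfl⟩, ?_⟩
    rintro _ ⟨y, hy, rfl⟩
    have := hx y hy
    simp only [map_add]
    linarith
  · rintro ⟨⟨x, hxP, rfl⟩, hx⟩
    refine ⟨x, ⟨hxP, fun y hy => ?_⟩, rfl⟩
    have := hx (y + c) ⟨y, hy, rfl⟩
    simp only [map_add] at this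
    linarith

private theorem vectorSpan_translate (F : Set E3) (c : E3) :
    vectorSpan ℝ ((fun x => x + c) '' F) = vectorSpan ℝ F := by
  have : (fun x : E3 => x + c) '' F = (c +ᵥ F : Set E3) := by
    ext z
    constructor
    · rintro ⟨x, hx, rfl⟩
      exact ⟨x, hx, by simp [add_comm]⟩
    · rintro ⟨x, hx, rfl⟩
      exact ⟨x, hx, by simp [add_comm]⟩
  rw [this, vectorSpan_vadd]

private theorem faces_translate_sub (P : Set E3) (c : E3) (k : ℕ) :
    (fun F : Set E3 => (fun x => x + c) '' F) '' faces P k ⊆ faces ((fun x => x + c) '' P) k := by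
  rintro _ ⟨F, ⟨hF, hne, hk⟩, rfl⟩
  exact ⟨exposed_translate c hF, hne.image _, by
    show finrank ℝ (vectorSpan ℝ ((fun x => x + c) '' F)) = k
    rw [vectorSpan_translate]; exact hk⟩

private theorem image_translate_back (F : Set E3) (c : E3) :
    (fun x => x + c) '' ((fun x => x + -c) '' F) = F := by
  rw [Set.image_image]
  simp

private theorem faces_translate (P : Set E3) (c : E3) (k : ℕ) :
    faces ((fun x => x + c) '' P) k = (fun F : Set E3 => (fun x => x + c) '' F) '' faces P k := by
  refine Subset.antisymm ?_ (faces_translate_sub P c k)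
  intro F hF
  refine ⟨(fun x => x + -c) '' F, ?_, image_translate_back F c⟩
  have := faces_translate_sub ((fun x => x + c) '' P) (-c) k ⟨F, hF, rfl⟩
  have h2 : (fun x => x + -c) '' ((fun x => x + c) '' P) = P := by
    rw [Set.image_image]
    simp
  rw [h2] at this
  exact this

private theorem ncard_faces_translate (P : Set E3) (c : E3) (k : ℕ) :
    (faces ((fun x => x + c) '' P) k).ncard = (faces P k).ncard := by
  rw [faces_translate]
  exact Set.ncard_image_of_injective _
    (Set.image_injective.mpr (add_left_injective c))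

theorem fvec_translate (P : Set E3) (c : E3) : fvec ((fun x => x + c) '' P) = fvec P := by
  simp only [fvec, ncard_faces_translate]

theorem exists_fixed_interior (Γ : Subgroup (E3 ≃ₗᵢ[ℝ] E3)) [Finite Γ] {P : Set E3}
    (hP : Convex ℝ P) (hne : (interior P).Nonempty) (hinv : ∀ g ∈ Γ, (fun x => g x) '' P = P) :
    ∃ c ∈ interior P, ∀ g ∈ Γ, g c = c := by
  classical
  obtain ⟨p, hp⟩ := hne
  have : Fintype Γ := Fintype.ofFinite Γ
  have hint : ∀ g ∈ Γ, g p ∈ interior P := by
    intro g hg
    have h1 : (g.toHomeomorph : E3 → E3) '' interior P = interior ((g.toHomeomorph : E3 → E3) '' P) :=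
      g.toHomeomorph.image_interior P
    have h2 : ((g.toHomeomorph : E3 → E3) '' P) = P := hinv g hg
    rw [h2] at h1
    rw [← h1]
    exact ⟨p, hp, rfl⟩
  have hN : (0 : ℝ) < (Fintype.card Γ : ℝ) := by exact_mod_cast Fintype.card_pos
  refine ⟨∑ g : Γ, ((Fintype.card Γ : ℝ))⁻¹ • (g : E3 ≃ₗᵢ[ℝ] E3) p, ?_, ?_⟩
  · refine hP.interior.sum_mem (fun _ _ => le_of_lt (inv_pos.mpr hN)) ?_ (fun g _ => hint g g.2)
    rw [Finset.sum_const, Finset.card_univ, nsmul_eq_mul]
    field_simp
  · intro g hg
    rw [map_sum]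
    refine Fintype.sum_equiv (Equiv.mulLeft (⟨g, hg⟩ : Γ)) _ _ ?_
    intro x
    simp [map_smul]

end Pool.Agent.SymPoly
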