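import Pool.Agent.Lib.MP_742c35_co.Boost
import Pool.Agent.Lib.MP_742c35_co.Step
import Pool.Agent.Lib.MP_742c35_co.ExactDual
import Pool.Agent.Lib.MP_742c35_co.Fix
import Pool.Agent.Lib.MP_742c35_co.Pigeon
import Pool.Agent.Lib.MP_742c35_co.Arith
import Pool.Agent.Lib.MP_742c35_co.Edges
import Pool.Agent.Lib.MP_742c35_co.Trans

/-!
# Assembly
-/

set_option autoImplicit false

open Set Module
open scoped InnerProductSpace

namespace Pool.Agent.SymPoly

section sets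

variable (Γ : Subgroup (E3 ≃ₗᵢ[ℝ] E3))

/-- Realised pairs `(α, β)`. -/
private def RR : Set (ℕ × ℕ) :=
  {p | ∃ V L : Finset E3, GPair Γ V L ∧ alpha V L = p.1 ∧ alpha L V = p.2}

private def RR0 : Set (ℕ × ℕ) :=
  {p | ∃ V L : Finset E3, GPair Γ V L ∧ Exact Γ V ∧ alpha V L = p.1 ∧ alpha L V = p.2}

private def TT : Set (ℕ × ℕ) :=
  {p | ∃ V L : Finset E3, GPair Γ V L ∧ HasTri Γ V L ∧ alpha V L = p.1 ∧ alpha L V = p.2}

private def TT' : Set (ℕ × ℕ) :=
  {p | ∃ V L : Finset E3, GPair Γ V L ∧ HasTri Γ L V ∧ alpha V L = p.1 ∧ alpha L V = p.2}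

private def GG : Set (ℕ × ℕ) :=
  {p | ∃ V L : Finset E3, GPair Γ V L ∧ HasTri Γ V L ∧ HasTri Γ L V ∧ alpha V L = p.1 ∧
    alpha L V = p.2}

variable {Γ}

private theorem card_pos [Finite Γ] : 0 < Nat.card Γ := Nat.card_pos

private theorem step_beta {V L V' L' : Finset E3} (h : DPair V L) (h' : DPair V' L') {k : ℕ}
    (hc : V'.card = V.card + k) (ha : alpha V' L' = alpha V L) :
    alpha L' V' = alpha L V + 3 * k := by
  have e1 := h.euler
  have e2 := h.euler'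
  have e3 := h'.euler
  have e4 := h'.euler'
  omega

private theorem F1 [Finite Γ] (a b : ℕ) (h : (a, b) ∈ TT Γ) :
    (a, b + 3 * Nat.card Γ) ∈ GG Γ ∧ (a, b + 3 * Nat.card Γ) ∈ RR0 Γ := by
  obtain ⟨V, L, hG, hT, ha, hb⟩ := h
  obtain ⟨V', L', hG', hT', hT'', hE, hc, ha'⟩ := step hG hT
  have hb' := step_beta hG.dpair hG'.dpair hc ha'
  simp only at ha hb
  constructor
  · exact ⟨V', L', hG', hT', hT'', by rw [ha', ha], by rw [hb', hb]⟩
  · exact ⟨V', L', hG', hE, by rw [ha', ha], by rw [hb', hb]⟩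

private theorem F1' [Finite Γ] (a b : ℕ) (h : (a, b) ∈ TT' Γ) :
    (a + 3 * Nat.card Γ, b) ∈ GG Γ ∧ (a + 3 * Nat.card Γ, b) ∈ RR0 Γ := by
  obtain ⟨V, L, hG, hT, ha, hb⟩ := h
  obtain ⟨V', L', hG', hT', hT'', hE, hc, ha'⟩ := step hG.symm hT
  have hb' := step_beta hG.symm.dpair hG'.dpair hc ha'
  simp only at ha hb
  constructor
  · exact ⟨L', V', hG'.symm, hT'', hT', by rw [hb', ha], by rw [ha', hb]⟩
  · exact ⟨L', V', hG'.symm, Exact.dual hG'.dpair hE, by rw [hb', ha], by rw [ha', hb]⟩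

private theorem free_or {l : E3} {g : E3 ≃ₗᵢ[ℝ] E3} (hg : g ∈ Γ) (hl : Thin Γ l) :
    Thin Γ (g l) := by
  intro a ha b hb hal hbl ha1 hb1
  have key : ∀ x ∈ Γ, x (g l) = g l → (g⁻¹ * x * g) l = l := by
    intro x _ hx
    simp only [LinearIsometryEquiv.coe_mul, Function.comp_apply, hx]
    exact g.symm_apply_apply l
  have ne1 : ∀ x : E3 ≃ₗᵢ[ℝ] E3, x ≠ 1 → g⁻¹ * x * g ≠ 1 := by
    intro x hx h
    apply hx
    have : x = g * (g⁻¹ * x * g) * g⁻¹ := by group
    rw [this, h]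
    group
  have h := hl (g⁻¹ * a * g) (Γ.mul_mem (Γ.mul_mem (Γ.inv_mem hg) ha) hg) (g⁻¹ * b * g)
    (Γ.mul_mem (Γ.mul_mem (Γ.inv_mem hg) hb) hg) (key a ha hal) (key b hb hbl) (ne1 a ha1)
    (ne1 b hb1)
  have h2 : g * (g⁻¹ * a * g) * g⁻¹ = g * (g⁻¹ * b * g) * g⁻¹ := by rw [h]
  simpa [mul_assoc] using h2

private theorem card_tight_apply {V : Finset E3} (hV : Inv Γ V) {g : E3 ≃ₗᵢ[ℝ] E3} (hg : g ∈ Γ)
    (l : E3) : (tight V (g l)).card = (tight V l).card := by
  symm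
  apply Finset.card_bij (fun a _ => g a)
  · intro a ha
    rw [mem_tight] at ha ⊢
    exact ⟨hV g hg a ha.1, by rw [LinearIsometryEquiv.inner_map_map]; exact ha.2⟩
  · intro a _ b _ hab
    exact g.injective hab
  · intro b hb
    rw [mem_tight] at hb
    refine ⟨g⁻¹ b, ?_, ?_⟩
    · rw [mem_tight]
      refine ⟨hV g⁻¹ (Γ.inv_mem hg) b hb.1, ?_⟩
      have : ⟪g⁻¹ b, l⟫_ℝ = ⟪g (g⁻¹ b), g l⟫_ℝ := (g.inner_map_map _ _).symm
      rw [this]
      have h2 : g (g⁻¹ b) = b := g.apply_symm_apply b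
      rw [h2]
      exact hb.2
    · exact g.apply_symm_apply b

/-- The common part of `F2` and `F3`. -/
private theorem boost_main [Finite Γ] {V L : Finset E3} (h : GPair Γ V L) {T : Finset E3}
    (hTL : T ⊆ L) (hT : Inv Γ T) (hthin : ∀ l ∈ T, Thin Γ l)
    (hcard : Nat.card Γ * (3 * Nat.card Γ) * (Nat.card Γ * (3 * Nat.card Γ)) < T.card) :
    ∃ M : Finset E3, M ⊆ T ∧ ∃ V' L' : Finset E3, GPair Γ V' L' ∧ HasTri Γ V' L' ∧
      Nat.card Γ ∣ M.card ∧ V'.card = V.card + M.card ∧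
      3 * Nat.card Γ ∣ ∑ l ∈ M, ((tight V l).card - 3) ∧
      alpha V' L' + ∑ l ∈ M, ((tight V l).card - 3) = alpha V L := by
  obtain ⟨M, hMT, hMinv, ⟨l0, hl0⟩, hd1, hd2⟩ :=
    exists_invariant_subset Γ (fun l => (tight V l).card - 3) hT hcard
  obtain ⟨V', L', hG', hT', hc, ha⟩ := boost h (hMT.trans hTL) hMinv ⟨l0, hl0, hthin l0 (hMT hl0)⟩
  exact ⟨M, hMT, V', L', hG', hT', hd1, hc, hd2, ha⟩

private theorem F2 [Finite Γ] : ∃ K : ℕ, ∀ a b, (a, b) ∈ RR Γ → K ≤ a + b →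
      ∃ a' b', (a', b') ∈ TT Γ ∧ a' ≡ a [MOD 3 * Nat.card Γ] ∧ b' ≡ b [MOD 3 * Nat.card Γ] := by
  classical
  set n := Nat.card Γ with hn
  set B := n * (3 * n) * (n * (3 * n)) with hB
  refine ⟨3 * (B + 2 * n + 1), ?_⟩
  rintro a b ⟨V, L, hG, ha, hb⟩ hK
  simp only at ha hb
  have e1 := hG.dpair.euler
  have e2 := hG.dpair.euler'
  have hfix := card_not_thin_le hG
  rw [← hn] at hfix
  set T : Finset E3 := L.filter fun l => Thin Γ l with hT
  have hsum : L.card ≤ T.card + 2 * n := by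
    refine le_trans (le_of_eq ?_) (Nat.add_le_add_left hfix T.card)
    rw [← Finset.card_filter_add_card_filter_not (s := L) (fun l => Thin Γ l)]
  have hTinv : Inv Γ T := by
    intro g hg l hl
    rw [hT, Finset.mem_filter] at hl ⊢
    exact ⟨hG.invL g hg l hl.1, free_or hg hl.2⟩
  obtain ⟨M, hMT, V', L', hG', hT', hd1, hc, hd2, ha'⟩ :=
    boost_main hG (T := T) (Finset.filter_subset _ _) hTinv
      (fun l hl => (Finset.mem_filter.1 hl).2)
      (by rw [← hn, ← hB]; omega)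
  have e3 := hG'.dpair.euler
  have e4 := hG'.dpair.euler'
  rw [← hn] at hd1 hd2
  obtain ⟨c, hc1⟩ := hd1
  obtain ⟨s, hs1⟩ := hd2
  rw [hs1] at ha'
  refine ⟨alpha V' L', alpha L' V', ⟨V', L', hG', hT', rfl, rfl⟩, ?_, ?_⟩
  · rw [← ha, ← ha']
    exact (Nat.modEq_iff_dvd' (Nat.le_add_right _ _)).2 ⟨s, Nat.add_sub_cancel_left _ _⟩
  · have h5 : 3 * n * (c + 2 * s) = 3 * (n * c) + 2 * (3 * n * s) := by ring
    have h4 : alpha L' V' = b + 3 * n * (c + 2 * s) := by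
      rw [h5, ← hc1]
      generalize 3 * n * s = y at *
      omega
    rw [h4]
    exact ((Nat.modEq_iff_dvd' (Nat.le_add_right _ _)).2
      ⟨c + 2 * s, Nat.add_sub_cancel_left _ _⟩).symm

private theorem F3 [Finite Γ] (a : ℕ) : ∃ K : ℕ, ∀ b, K ≤ b → (a, b) ∈ RR Γ →
    ∃ j : ℕ, (a, b + j * (3 * Nat.card Γ)) ∈ TT Γ := by
  classical
  set n := Nat.card Γ with hn
  set B := n * (3 * n) * (n * (3 * n)) with hB
  refine ⟨3 * (B + 2 * n + a + 1), ?_⟩
  rintro b hK ⟨V, L, hG, ha, hb⟩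
  simp only at ha hb
  have e1 := hG.dpair.euler
  have e2 := hG.dpair.euler'
  have hfix := card_not_thin_le hG
  rw [← hn] at hfix
  set T0 : Finset E3 := L.filter fun l => Thin Γ l with hT0
  set T : Finset E3 := T0.filter fun l => (tight V l).card = 3 with hT
  have hsum : L.card ≤ T0.card + 2 * n := by
    refine le_trans (le_of_eq ?_) (Nat.add_le_add_left hfix T0.card)
    rw [← Finset.card_filter_add_card_filter_not (s := L) (fun l => Thin Γ l)]
  have hsum2 : T.card + (T0.filter fun l => ¬ (tight V l).card = 3).card = T0.card :=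
    Finset.card_filter_add_card_filter_not _
  have hnt : (T0.filter fun l => ¬ (tight V l).card = 3).card ≤ a := by
    rw [← ha, alpha, Finset.card_eq_sum_ones]
    refine le_trans (Finset.sum_le_sum (g := fun l => (tight V l).card - 3) ?_)
      (Finset.sum_le_sum_of_subset
        (Finset.Subset.trans (Finset.filter_subset _ _) (Finset.filter_subset _ _)))
    intro l hl
    rw [Finset.mem_filter, hT0, Finset.mem_filter] at hl
    have := hG.dpair.three_le hl.1.1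
    have := hl.2
    omega
  have hTinv : Inv Γ T := by
    intro g hg l hl
    rw [hT, Finset.mem_filter, hT0, Finset.mem_filter] at hl ⊢
    exact ⟨⟨hG.invL g hg l hl.1.1, free_or hg hl.1.2⟩, by
      rw [card_tight_apply hG.invV hg]; exact hl.2⟩
  obtain ⟨M, hMT, V', L', hG', hT', hd1, hc, hd2, ha'⟩ :=
    boost_main hG (T := T)
      (Finset.Subset.trans (Finset.filter_subset _ _) (Finset.filter_subset _ _)) hTinv
      (fun l hl => (Finset.mem_filter.1 (Finset.mem_filter.1 hl).1).2)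
      (by rw [← hn, ← hB]; omega)
  have hzero : ∑ l ∈ M, ((tight V l).card - 3) = 0 := by
    apply Finset.sum_eq_zero
    intro l hl
    have := (Finset.mem_filter.1 (hMT hl)).2
    omega
  rw [hzero, add_zero] at ha'
  obtain ⟨c, hc1⟩ := hd1
  have hb' := step_beta hG.dpair hG'.dpair hc ha'
  refine ⟨c, V', L', hG', hT', by rw [ha', ha], ?_⟩
  simp only
  rw [hb', hb, hc1]
  ring

private theorem RR_swap {a b : ℕ} (h : (a, b) ∈ RR Γ) : (b, a) ∈ RR Γ := by
  obtain ⟨V, L, hG, ha, hb⟩ := h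
  exact ⟨L, V, hG.symm, hb, ha⟩

private theorem F3' [Finite Γ] (b : ℕ) : ∃ K : ℕ, ∀ a, K ≤ a → (a, b) ∈ RR Γ →
    ∃ j : ℕ, (a + j * (3 * Nat.card Γ), b) ∈ TT' Γ := by
  obtain ⟨K, hK⟩ := F3 (Γ := Γ) b
  refine ⟨K, fun a ha hab => ?_⟩
  obtain ⟨j, V, L, hG, hT, h1, h2⟩ := hK a ha (RR_swap hab)
  exact ⟨j, L, V, hG.symm, hT, h2, h1⟩

private theorem finite_diff [Finite Γ] : (RR Γ \ RR0 Γ).Finite := by
  apply arith_main (3 * Nat.card Γ) (by have := card_pos (Γ := Γ); omega) (RR Γ) (RR0 Γ) (TT Γ)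
    (TT' Γ) (GG Γ) F1 F1' ?_ ?_ F2 F3 F3'
  · rintro p ⟨V, L, hG, h1, h2, h3, h4⟩
    exact ⟨V, L, hG, h1, h3, h4⟩
  · rintro p ⟨V, L, hG, h1, h2, h3, h4⟩
    exact ⟨V, L, hG, h2, h3, h4⟩

end sets

/-- The f-vector in terms of `(α, β)`. -/
private def psi (p : ℕ × ℕ) : ℕ × ℕ × ℕ :=
  ((2 * p.1 + p.2 + 12) / 3, p.1 + p.2 + 6, (p.1 + 2 * p.2 + 12) / 3)

private theorem fvec_eq_psi {V L : Finset E3} (h : DPair V L) :
    fvec (convexHull ℝ (V : Set E3)) = psi (alpha V L, alpha L V) := by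
  have e1 := h.euler
  have e2 := h.euler'
  have f0 := h.ncard_faces_zero
  have f1 := h.ncard_faces_one
  have f2 := h.ncard_faces_two
  unfold fvec psi
  simp only [Prod.mk.injEq]
  refine ⟨?_, ?_, ?_⟩ <;> omega

section groups

/-- The star monoid isomorphism between matrices and continuous linear maps. -/
private noncomputable def starEquiv :
    Matrix (Fin 3) (Fin 3) ℝ ≃⋆* (E3 →L[ℝ] E3) :=
  { toMulEquiv := ((Matrix.toEuclideanCLM (n := Fin 3) (𝕜 := ℝ)) :
      Matrix (Fin 3) (Fin 3) ℝ ≃* (E3 →L[ℝ] E3))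
    map_star' := fun a => map_star (Matrix.toEuclideanCLM (n := Fin 3) (𝕜 := ℝ)) a }

/-- The linear isometry of an orthogonal matrix. -/
private noncomputable def isoOf :
    Matrix.orthogonalGroup (Fin 3) ℝ ≃* (E3 ≃ₗᵢ[ℝ] E3) :=
  (Unitary.mapEquiv starEquiv).toMulEquiv.trans Unitary.linearIsometryEquiv

private theorem isoOf_apply (g : Matrix.orthogonalGroup (Fin 3) ℝ) (x : E3) :
    isoOf g x = Matrix.toEuclideanLin (g : Matrix (Fin 3) (Fin 3) ℝ) x := rfl

/-- The isometry group of a matrix group. -/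
private noncomputable def gam (G : Subgroup (Matrix.orthogonalGroup (Fin 3) ℝ)) :
    Subgroup (E3 ≃ₗᵢ[ℝ] E3) := G.map isoOf.toMonoidHom

private theorem mem_gam {G : Subgroup (Matrix.orthogonalGroup (Fin 3) ℝ)} {h : E3 ≃ₗᵢ[ℝ] E3} :
    h ∈ gam G ↔ ∃ g ∈ G, isoOf g = h := Iff.rfl

private theorem finite_gam {G : Subgroup (Matrix.orthogonalGroup (Fin 3) ℝ)} (hG : Finite G) :
    Finite (gam G) := by
  have : (gam G : Set (E3 ≃ₗᵢ[ℝ] E3)).Finite :=
    (Set.toFinite (G : Set (Matrix.orthogonalGroup (Fin 3) ℝ))).image _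
  exact this.to_subtype

private theorem image_eq_of_mats {G : Subgroup (Matrix.orthogonalGroup (Fin 3) ℝ)} {P : Set E3}
    (h : mats G ⊆ Symm P) : ∀ g ∈ gam G, (fun x => g x) '' P = P := by
  intro g hg
  obtain ⟨g0, hg0, rfl⟩ := mem_gam.1 hg
  exact h ⟨g0, hg0, rfl⟩

private theorem image_hull_of_inv {Γ : Subgroup (E3 ≃ₗᵢ[ℝ] E3)} {V : Finset E3} (hV : Inv Γ V)
    {g : E3 ≃ₗᵢ[ℝ] E3} (hg : g ∈ Γ) :
    (fun x => g x) '' convexHull ℝ (V : Set E3) = convexHull ℝ (V : Set E3) := by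
  have h1 : (fun x => g x) '' (V : Set E3) = (V : Set E3) := by
    apply Set.Subset.antisymm
    · rintro _ ⟨v, hv, rfl⟩
      exact hV g hg v hv
    · intro v hv
      exact ⟨g⁻¹ v, hV g⁻¹ (Γ.inv_mem hg) v hv, g.apply_symm_apply v⟩
  have h2 := (g.toLinearEquiv : E3 →ₗ[ℝ] E3).image_convexHull (V : Set E3)
  have h3 : (⇑(g.toLinearEquiv : E3 →ₗ[ℝ] E3) : E3 → E3) = fun x => g x := rfl
  rw [h3, h1] at h2
  exact h2

private theorem symm_eq_mats {G : Subgroup (Matrix.orthogonalGroup (Fin 3) ℝ)} {V : Finset E3}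
    (hE : Exact (gam G) V) (hV : Inv (gam G) V) :
    Symm (convexHull ℝ (V : Set E3)) = mats G := by
  ext A
  constructor
  · intro hA
    obtain ⟨g, hg, hgA⟩ := hE (Matrix.toEuclideanLin A) hA
    obtain ⟨g0, hg0, rfl⟩ := mem_gam.1 hg
    refine ⟨g0, hg0, ?_⟩
    apply Matrix.toEuclideanLin.injective
    ext1 x
    rw [hgA x, isoOf_apply]
  · rintro ⟨g0, hg0, rfl⟩
    exact image_hull_of_inv hV (mem_gam.2 ⟨g0, hg0, rfl⟩)

/-- The extreme points of an invariant polytope with `0` in the interior. -/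
private theorem exists_gpair {Γ : Subgroup (E3 ≃ₗᵢ[ℝ] E3)} {P : Set E3} (hP : IsPolytope3 P)
    (h0 : (0 : E3) ∈ interior P) (hinv : ∀ g ∈ Γ, (fun x => g x) '' P = P) :
    ∃ V L : Finset E3, GPair Γ V L ∧ P = convexHull ℝ (V : Set E3) := by
  obtain ⟨⟨S, hS⟩, -⟩ := hP
  have hsub : P.extremePoints ℝ ⊆ (S : Set E3) := by
    rw [hS]
    exact extremePoints_convexHull_subset
  have hfin : (P.extremePoints ℝ).Finite := S.finite_toSet.subset hsub
  set V : Finset E3 := hfin.toFinset with hV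
  have hVc : (V : Set E3) = P.extremePoints ℝ := hfin.coe_toFinset
  have hcomp : IsCompact P := by
    rw [hS]
    exact S.finite_toSet.isCompact_convexHull ℝ
  have hconv : Convex ℝ P := by
    rw [hS]
    exact convex_convexHull ℝ _
  have hPV : P = convexHull ℝ (V : Set E3) := by
    have h1 := closure_convexHull_extremePoints hcomp hconv
    rw [← hVc, (V.finite_toSet.isCompact_convexHull ℝ).isClosed.closure_eq] at h1
    exact h1.symm
  have hnhds : convexHull ℝ (V : Set E3) ∈ nhds (0 : E3) := by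
    rw [← hPV]
    exact mem_interior_iff_mem_nhds.1 h0
  obtain ⟨L, hL⟩ := exists_dpair hnhds (fun v hv => by
    rw [← hPV, ← hVc]
    exact hv)
  have hVinv : Inv Γ V := by
    intro g hg v hv
    have hv' : v ∈ P.extremePoints ℝ := by rw [← hVc]; exact hv
    have h1 : g v ∈ P.extremePoints ℝ := by
      rw [← hinv g hg]
      have h2 := image_extremePoints (g.toLinearEquiv) P
      have h3 : (g.toLinearEquiv : E3 → E3) = fun x => g x := rfl
      rw [h3] at h2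
      rw [← h2]
      exact ⟨v, hv', rfl⟩
    rw [← hVc] at h1
    exact h1
  exact ⟨V, L, ⟨hL, hVinv, hL.inv_of_inv hVinv⟩, hPV⟩

/-- For every finite subgroup `G` of `O(3)`, the set of f-vectors of `G`-invariant 3-polytopes
which are not f-vectors of 3-polytopes with linear symmetry group `G` is finite. -/
theorem finite_FG_diff (G : Subgroup (Matrix.orthogonalGroup (Fin 3) ℝ)) (hG : Finite G) :
    (FG G \ FGbar G).Finite := by
  have : Finite (gam G) := finite_gam hG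
  refine ((finite_diff (Γ := gam G)).image psi).subset ?_
  rintro f ⟨⟨P, hP, hsymm, hf⟩, hbar⟩
  obtain ⟨S, hS⟩ := hP.1
  have hconv : Convex ℝ P := by
    rw [hS]
    exact convex_convexHull ℝ _
  have hinvP := image_eq_of_mats hsymm
  obtain ⟨c, hc, hcfix⟩ := exists_fixed_interior (gam G) hconv hP.2 hinvP
  set Q : Set E3 := (fun x => x + (-c)) '' P with hQ
  have hint : interior Q = (fun x => x + (-c)) '' interior P :=
    ((Homeomorph.addRight (-c)).image_interior P).symm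
  have hQpoly : IsPolytope3 Q := by
    classical
    refine ⟨⟨S.image fun x => x + (-c), ?_⟩, ?_⟩
    · rw [hQ, hS, Finset.coe_image]
      exact (AffineMap.image_convexHull (AffineMap.id ℝ E3 + AffineMap.const ℝ E3 (-c)) _)
    · rw [hint]
      exact hP.2.image _
  have hQ0 : (0 : E3) ∈ interior Q := by
    rw [hint]
    exact ⟨c, hc, by simp⟩
  have hQinv : ∀ g ∈ gam G, (fun x => g x) '' Q = Q := by
    intro g hg
    rw [hQ, Set.image_image]
    have h1 : (fun x => g (x + (-c))) = fun x => (g x) + (-c) := by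
      funext x
      rw [map_add, map_neg, hcfix g hg]
    rw [h1]
    conv_rhs => rw [← hinvP g hg, Set.image_image]
  obtain ⟨V, L, hVL, hQV⟩ := exists_gpair hQpoly hQ0 hQinv
  have hfQ : f = psi (alpha V L, alpha L V) := by
    rw [← hf, ← fvec_translate P (-c), ← hQ, hQV, fvec_eq_psi hVL.dpair]
  refine ⟨(alpha V L, alpha L V), ⟨⟨V, L, hVL, rfl, rfl⟩, ?_⟩, hfQ.symm⟩
  rintro ⟨V', L', hG', hE', ha, hb⟩
  simp only at ha hb
  apply hbar
  refine ⟨convexHull ℝ (V' : Set E3), ⟨⟨V', rfl⟩, ?_⟩, symm_eq_mats hE' hG'.invV, ?_⟩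
  · exact ⟨0, mem_interior_iff_mem_nhds.2 hG'.dpair.hull_mem_nhds⟩
  · rw [fvec_eq_psi hG'.dpair, ha, hb, hfQ]

end groups

end Pool.Agent.SymPoly
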