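import Pool.Agent.Lib.MP_742c35_co.Euler
import Pool.Agent.Lib.MP_742c35_co.ExistA

/-!
# JOB STACK: stacking new vertices over facets
-/

set_option autoImplicit false

open Set Module
open scoped InnerProductSpace

namespace Pool.Agent.SymPoly

/-- A unique maximiser of a linear functional is an extreme point. -/
private theorem ext_of_unique_max {W : Finset E3} {w0 y : E3} {c : ℝ} (hw0 : w0 ∈ W)
    (hc : ⟪w0, y⟫_ℝ = c) (hlt : ∀ w ∈ W, w ≠ w0 → ⟪w, y⟫_ℝ < c) :
    w0 ∈ (convexHull ℝ (W : Set E3)).extremePoints ℝ := by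
  have hconv : Convex ℝ {z : E3 | z = w0 ∨ ⟪z, y⟫_ℝ < c} := by
    rw [convex_iff_forall_pos]
    intro a ha b hb s t hs ht hst
    rcases ha with ha | ha <;> rcases hb with hb | hb
    · left
      rw [ha, hb, ← add_smul, hst, one_smul]
    · right
      rw [ha, inner_add_left, real_inner_smul_left, real_inner_smul_left, hc]
      have h1 : t * ⟪b, y⟫_ℝ < t * c := mul_lt_mul_of_pos_left hb ht
      have h2 : s * c + t * c = c := by rw [← add_mul, hst, one_mul]
      linarith
    · right
      rw [hb, inner_add_left, real_inner_smul_left, real_inner_smul_left, hc]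
      have h1 : s * ⟪a, y⟫_ℝ < s * c := mul_lt_mul_of_pos_left ha hs
      have h2 : s * c + t * c = c := by rw [← add_mul, hst, one_mul]
      linarith
    · right
      rw [inner_add_left, real_inner_smul_left, real_inner_smul_left]
      have h1 : s * ⟪a, y⟫_ℝ < s * c := mul_lt_mul_of_pos_left ha hs
      have h3 : t * ⟪b, y⟫_ℝ < t * c := mul_lt_mul_of_pos_left hb ht
      have h2 : s * c + t * c = c := by rw [← add_mul, hst, one_mul]
      linarith
  have hsub : convexHull ℝ (W : Set E3) ⊆ {z : E3 | z = w0 ∨ ⟪z, y⟫_ℝ < c} := by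
    refine convexHull_min ?_ hconv
    intro w hw
    by_cases h : w = w0
    · exact Or.inl h
    · exact Or.inr (hlt w hw h)
  refine mem_extremePoints.2 ⟨subset_convexHull ℝ _ hw0, ?_⟩
  intro a ha b hb hab
  obtain ⟨s, t, hs, ht, hst, hsum⟩ := hab
  have hin : s * ⟪a, y⟫_ℝ + t * ⟪b, y⟫_ℝ = c := by
    rw [← hc, ← hsum, inner_add_left, real_inner_smul_left, real_inner_smul_left]
  have hle : ∀ z, (z = w0 ∨ ⟪z, y⟫_ℝ < c) → ⟪z, y⟫_ℝ ≤ c := by
    intro z hz
    rcases hz with hz | hz
    · rw [hz, hc]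
    · exact hz.le
  have h2 : s * c + t * c = c := by rw [← add_mul, hst, one_mul]
  have ha' := hsub ha
  have hb' := hsub hb
  have hA := mul_le_mul_of_nonneg_left (hle a ha') hs.le
  have hB := mul_le_mul_of_nonneg_left (hle b hb') ht.le
  constructor
  · rcases ha' with h | h
    · exact h
    · exfalso
      have := mul_lt_mul_of_pos_left h hs
      linarith
  · rcases hb' with h | h
    · exact h
    · exfalso
      have := mul_lt_mul_of_pos_left h ht
      linarith

/-- A functional which is at most one on `V` is at most one on the hull. -/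
private theorem le_one_of_mem_hull {V : Finset E3} {y l : E3}
    (hy : y ∈ convexHull ℝ (V : Set E3)) (hl : ∀ v ∈ V, ⟪v, l⟫_ℝ ≤ 1) : ⟪y, l⟫_ℝ ≤ 1 := by
  have hconv : Convex ℝ {z : E3 | ⟪z, l⟫_ℝ ≤ 1} := by
    intro a ha b hb s t hs ht hst
    have ha' : ⟪a, l⟫_ℝ ≤ 1 := ha
    have hb' : ⟪b, l⟫_ℝ ≤ 1 := hb
    show ⟪s • a + t • b, l⟫_ℝ ≤ 1
    rw [inner_add_left, real_inner_smul_left, real_inner_smul_left]
    nlinarith [mul_le_mul_of_nonneg_left ha' hs, mul_le_mul_of_nonneg_left hb' ht]
  exact convexHull_min (fun v hv => hl v hv) hconv hy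

/-- Moving slightly from `z` in direction `u` stays in the polytope, if `u` is
not increasing for the tight constraints at `z`. -/
private theorem move {V L : Finset E3} (h : DPair V L) {z u : E3}
    (hz : ∀ l ∈ L, ⟪z, l⟫_ℝ < 1 ∨ (⟪z, l⟫_ℝ = 1 ∧ ⟪u, l⟫_ℝ ≤ 0)) :
    ∃ t : ℝ, 0 < t ∧ z + t • u ∈ convexHull ℝ (V : Set E3) := by
  have hev : ∀ᶠ t : ℝ in nhdsWithin 0 (Set.Ioi 0), ∀ l ∈ L, ⟪z + t • u, l⟫_ℝ ≤ 1 := by
    rw [Filter.eventually_all_finset]
    intro l hl
    rcases hz l hl with h1 | ⟨h1, h2⟩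
    · have hcont : Filter.Tendsto (fun t : ℝ => ⟪z + t • u, l⟫_ℝ) (nhds 0)
          (nhds ⟪z + (0 : ℝ) • u, l⟫_ℝ) := by
        apply Continuous.tendsto
        fun_prop
      have h0 : ⟪z + (0 : ℝ) • u, l⟫_ℝ < 1 := by simpa using h1
      have := hcont.eventually_lt_const h0
      exact (this.filter_mono nhdsWithin_le_nhds).mono fun t ht => le_of_lt ht
    · filter_upwards [self_mem_nhdsWithin] with t ht
      have ht' : (0 : ℝ) < t := ht
      rw [inner_add_left, real_inner_smul_left, h1]
      nlinarith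
  obtain ⟨t, ht, ht0⟩ := (hev.and self_mem_nhdsWithin).exists
  exact ⟨t, ht0, h.hullV _ ht⟩

open Classical in
theorem DPair.stack {V L : Finset E3} (h : DPair V L) (X : Finset E3) (lam : E3 → E3)
    (hlam : ∀ x ∈ X, lam x ∈ L) (hinj : ∀ x ∈ X, ∀ y ∈ X, lam x = lam y → x = y) {d : ℝ}
    (h1 : ∀ x ∈ X, 1 < ⟪x, lam x⟫_ℝ) (h2 : ∀ x ∈ X, ⟪x, lam x⟫_ℝ < 1 + d)
    (h3 : ∀ x ∈ X, ∀ l ∈ L, l ≠ lam x → ⟪x, l⟫_ℝ ≤ 1 - d) :
    ∃ L' : Finset E3, DPair (V ∪ X) L' ∧ Disjoint V X ∧
      alpha (V ∪ X) L' + ∑ x ∈ X, ((tight V (lam x)).card - 3) = alpha V L ∧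
      (∀ l ∈ L', ∀ x ∈ X, ⟪x, l⟫_ℝ = 1 → (tight (V ∪ X) l).card = 3 ∧
        (∀ x' ∈ X, ⟪x', l⟫_ℝ = 1 → x' = x) ∧ ∀ v ∈ V, ⟪v, l⟫_ℝ = 1 → v ∈ tight V (lam x)) := by
  have hd : ∀ x ∈ X, 0 < d := fun x hx => by linarith [h1 x hx, h2 x hx]
  have hdisj : Disjoint V X := by
    rw [Finset.disjoint_left]
    intro v hv hx
    have := h.le v hv (lam v) (hlam v hx)
    linarith [h1 v hx]
  -- interior
  have h0 : convexHull ℝ ((V ∪ X : Finset E3) : Set E3) ∈ nhds (0 : E3) :=
    Filter.mem_of_superset h.hull_mem_nhds (convexHull_mono (by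
      intro v hv
      exact Finset.mem_coe.2 (Finset.mem_union_left _ hv)))
  -- extreme points
  have hextX : ∀ x ∈ X, x ∈ (convexHull ℝ ((V ∪ X : Finset E3) : Set E3)).extremePoints ℝ := by
    intro x hx
    refine ext_of_unique_max (y := lam x) (c := ⟪x, lam x⟫_ℝ) (Finset.mem_union_right _ hx) rfl ?_
    intro w hw hne
    rcases Finset.mem_union.1 hw with hw | hw
    · have := h.le w hw (lam x) (hlam x hx)
      linarith [h1 x hx]
    · have hne' : lam x ≠ lam w := fun he => hne (hinj x hx w hw he).symm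
      have := h3 w hw (lam x) (hlam x hx) hne'
      linarith [h1 x hx, hd x hx]
  have hextV : ∀ v ∈ V, v ∈ (convexHull ℝ ((V ∪ X : Finset E3) : Set E3)).extremePoints ℝ := by
    intro v hv
    have hcard : 3 ≤ (tight L v).card := h.symm.three_le hv
    refine ext_of_unique_max (y := ∑ l ∈ tight L v, l) (c := ((tight L v).card : ℝ))
      (Finset.mem_union_left _ hv) ?_ ?_
    · rw [inner_sum]
      rw [Finset.sum_congr rfl (g := fun _ => (1 : ℝ))]
      · simp
      · intro l hl
        rw [real_inner_comm]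
        exact (mem_tight.1 hl).2
    · intro w hw hne
      rw [inner_sum]
      have hone : ((tight L v).card : ℝ) = ∑ l ∈ tight L v, (1 : ℝ) := by simp
      rcases Finset.mem_union.1 hw with hw | hw
      · rw [hone]
        apply Finset.sum_lt_sum
        · intro l hl
          exact h.le w hw l (mem_tight.1 hl).1
        · by_contra hcon
          push Not at hcon
          apply hne
          have hall : ∀ a ∈ tight L v, ⟪a, w⟫_ℝ = 1 := by
            intro a ha
            have h4 := hcon a ha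
            have h5 := h.le w hw a (mem_tight.1 ha).1
            rw [real_inner_comm]
            exact le_antisymm h5 h4
          exact DPair.eq_of_tight (h.spanL v hv) hall
      · by_cases hmem : lam w ∈ tight L v
        · rw [← Finset.add_sum_erase _ _ hmem]
          have hle : ∑ l ∈ (tight L v).erase (lam w), ⟪w, l⟫_ℝ
              ≤ ∑ l ∈ (tight L v).erase (lam w), (1 - d) := by
            apply Finset.sum_le_sum
            intro l hl
            rw [Finset.mem_erase] at hl
            exact h3 w hw l (mem_tight.1 hl.2).1 hl.1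
          rw [Finset.sum_const, Finset.card_erase_of_mem hmem, nsmul_eq_mul] at hle
          have hc : (((tight L v).card - 1 : ℕ) : ℝ) = ((tight L v).card : ℝ) - 1 := by
            rw [Nat.cast_sub (by omega)]
            simp
          rw [hc] at hle
          have h4 := h2 w hw
          have h5 := hd w hw
          have h6 : (3 : ℝ) ≤ ((tight L v).card : ℝ) := by exact_mod_cast hcard
          nlinarith
        · rw [hone]
          apply Finset.sum_lt_sum_of_nonempty
          · exact Finset.card_pos.1 (by omega)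
          · intro l hl
            have hne' : l ≠ lam w := fun he => hmem (he ▸ hl)
            have := h3 w hw l (mem_tight.1 hl).1 hne'
            linarith [hd w hw]
  obtain ⟨L', h'⟩ := exists_dpair h0 (by
    intro v hv
    rcases Finset.mem_union.1 hv with hv | hv
    · exact hextV v hv
    · exact hextX v hv)
  have hleV : ∀ l ∈ L', ∀ v ∈ V, ⟪v, l⟫_ℝ ≤ 1 := fun l hl v hv =>
    h'.le v (Finset.mem_union_left _ hv) l hl
  -- the interior points
  have hint : ∀ z : E3, (∀ l ∈ L, ⟪z, l⟫_ℝ < 1) → ∀ l ∈ L', ⟪z, l⟫_ℝ < 1 := by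
    intro z hz l hl
    obtain ⟨t, ht, hmem⟩ := move h (z := z) (u := z) (fun l' hl' => Or.inl (hz l' hl'))
    have := le_one_of_mem_hull hmem (hleV l hl)
    rw [inner_add_left, real_inner_smul_left] at this
    by_contra hcon
    push Not at hcon
    nlinarith
  have hc1 : ∀ l ∈ L', ∀ x ∈ X, ⟪x, l⟫_ℝ = 1 → ∀ x' ∈ X, ⟪x', l⟫_ℝ = 1 → x' = x := by
    intro l hl x hx hxl x' hx' hxl'
    by_contra hne
    have hne' : lam x' ≠ lam x := fun he => hne (hinj x' hx' x hx he)
    have hz : ∀ l'' ∈ L, ⟪(1 / 2 : ℝ) • (x + x'), l''⟫_ℝ < 1 := by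
      intro l'' hl''
      rw [real_inner_smul_left, inner_add_left]
      by_cases e1 : l'' = lam x
      · have e2 : l'' ≠ lam x' := fun e => hne' (e.symm.trans e1)
        have h5 := h3 x' hx' l'' hl'' e2
        have h6 := h2 x hx
        rw [← e1] at h6
        linarith
      · have h5 := h3 x hx l'' hl'' e1
        by_cases e2 : l'' = lam x'
        · have h6 := h2 x' hx'
          rw [← e2] at h6
          linarith
        · have h7 := h3 x' hx' l'' hl'' e2
          linarith [hd x hx]
    have h8 := hint _ hz l hl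
    rw [real_inner_smul_left, inner_add_left, hxl, hxl'] at h8
    linarith
  have hc2 : ∀ l ∈ L', ∀ x ∈ X, ⟪x, l⟫_ℝ = 1 → ∀ v ∈ V, ⟪v, l⟫_ℝ = 1 → v ∈ tight V (lam x) := by
    intro l hl x hx hxl v hv hvl
    by_contra hnot
    have hlt : ⟪v, lam x⟫_ℝ < 1 := by
      refine lt_of_le_of_ne (h.le v hv _ (hlam x hx)) ?_
      intro he
      exact hnot (mem_tight.2 ⟨hv, he⟩)
    have hgt := h1 x hx
    set p := ⟪v, lam x⟫_ℝ with hp
    set q := ⟪x, lam x⟫_ℝ with hq
    have hqp : 0 < q - p := by linarith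
    set θ := (1 - p) / (q - p) with hθ
    have hθ0 : 0 < θ := div_pos (by linarith) hqp
    have hθ1 : θ < 1 := by
      rw [hθ, div_lt_one hqp]
      linarith
    have hθe : (1 - θ) * p + θ * q = 1 := by
      have : θ * (q - p) = 1 - p := by
        rw [hθ]
        field_simp
      linarith
    set z : E3 := (1 - θ) • v + θ • x with hz
    have hzin : ∀ y : E3, ⟪z, y⟫_ℝ = (1 - θ) * ⟪v, y⟫_ℝ + θ * ⟪x, y⟫_ℝ := by
      intro y
      rw [hz, inner_add_left, real_inner_smul_left, real_inner_smul_left]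
    have hzl : ⟪z, l⟫_ℝ = 1 := by
      rw [hzin, hvl, hxl]
      ring
    have hzlam : ⟪z, lam x⟫_ℝ = 1 := by
      rw [hzin, ← hp, ← hq, hθe]
    have hall : ∀ w ∈ tight V (lam x), ⟪w, l⟫_ℝ = 1 := by
      intro w hw
      have hw' := mem_tight.1 hw
      obtain ⟨t, ht, hmem⟩ := move h (z := z) (u := z - w) (by
        intro l'' hl''
        by_cases e : l'' = lam x
        · right
          rw [e]
          refine ⟨hzlam, ?_⟩
          rw [inner_sub_left, hzlam, hw'.2]
          simp
        · left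
          rw [hzin]
          have h5 := h.le v hv l'' hl''
          have h6 := h3 x hx l'' hl'' e
          have h7 := hd x hx
          nlinarith)
      have h8 := le_one_of_mem_hull hmem (hleV l hl)
      rw [inner_add_left, real_inner_smul_left, inner_sub_left, hzl] at h8
      have h9 := hleV l hl w hw'.1
      refine le_antisymm h9 ?_
      by_contra hcon
      push Not at hcon
      nlinarith
    have heq : l = lam x := DPair.eq_of_tight (h.spanV _ (hlam x hx)) hall
    rw [heq] at hxl
    linarith [h1 x hx]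
  have hc3 : ∀ l ∈ L', ∀ x ∈ X, ⟪x, l⟫_ℝ = 1 → (tight (V ∪ X) l).card = 3 := by
    intro l hl x hx hxl
    have hge : 3 ≤ (tight (V ∪ X) l).card := h'.three_le hl
    have hne : l ≠ lam x := by
      intro he
      rw [he] at hxl
      linarith [h1 x hx]
    have hle : (tight (V ∪ X) l).card ≤ 3 := by
      have hsub : tight (V ∪ X) l ⊆ insert x (tight V l ∩ tight V (lam x)) := by
        intro w hw
        have hw' := mem_tight.1 hw
        rcases Finset.mem_union.1 hw'.1 with hw1 | hw1
        · exact Finset.mem_insert_of_mem (Finset.mem_inter.2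
            ⟨mem_tight.2 ⟨hw1, hw'.2⟩, hc2 l hl x hx hxl w hw1 hw'.2⟩)
        · rw [hc1 l hl x hx hxl w hw1 hw'.2]
          exact Finset.mem_insert_self _ _
      have := (Finset.card_le_card hsub).trans (Finset.card_insert_le _ _)
      have h4 := h.card_le_two hne
      omega
    omega
  -- facets of the new polytope not tight at any new vertex
  have hfilter : L'.filter (fun l => ¬ ∃ x ∈ X, ⟪x, l⟫_ℝ = 1) = L \ X.image lam := by
    ext l
    simp only [Finset.mem_filter, Finset.mem_sdiff, Finset.mem_image, not_exists, not_and]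
    constructor
    · rintro ⟨hl, hnx⟩
      have ht : tight (V ∪ X) l = tight V l := by
        ext w
        rw [mem_tight, mem_tight, Finset.mem_union]
        constructor
        · rintro ⟨hw | hw, hw2⟩
          · exact ⟨hw, hw2⟩
          · exact absurd hw2 (hnx w hw)
        · rintro ⟨hw, hw2⟩
          exact ⟨Or.inl hw, hw2⟩
      refine ⟨(h.mem_iff l).2 ⟨hleV l hl, ?_⟩, ?_⟩
      · have := h'.spanV l hl
        rwa [ht] at this
      · intro x hx he
        have := h'.le x (Finset.mem_union_right _ hx) l hl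
        rw [← he] at this
        linarith [h1 x hx]
    · rintro ⟨hl, hnx⟩
      have hlt : ∀ x ∈ X, ⟪x, l⟫_ℝ < 1 := by
        intro x hx
        have := h3 x hx l hl (fun he => hnx x hx he.symm)
        linarith [hd x hx]
      refine ⟨(h'.mem_iff l).2 ⟨?_, ?_⟩, fun x hx => (hlt x hx).ne⟩
      · intro v hv
        rcases Finset.mem_union.1 hv with hv | hv
        · exact h.le v hv l hl
        · exact (hlt v hv).le
      · rw [eq_top_iff, ← h.spanV l hl]
        apply Submodule.span_mono
        intro w hw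
        have hw' := mem_tight.1 (Finset.mem_coe.1 hw)
        exact Finset.mem_coe.2 (mem_tight.2 ⟨Finset.mem_union_left _ hw'.1, hw'.2⟩)
  have htight : ∀ l ∈ L \ X.image lam, tight (V ∪ X) l = tight V l := by
    intro l hl
    rw [← hfilter, Finset.mem_filter] at hl
    ext w
    rw [mem_tight, mem_tight, Finset.mem_union]
    constructor
    · rintro ⟨hw | hw, hw2⟩
      · exact ⟨hw, hw2⟩
      · exact absurd ⟨w, hw, hw2⟩ hl.2
    · rintro ⟨hw, hw2⟩
      exact ⟨Or.inl hw, hw2⟩
  have halpha : alpha (V ∪ X) L' = ∑ l ∈ L \ X.image lam, ((tight V l).card - 3) := by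
    unfold alpha
    rw [← Finset.sum_filter_add_sum_filter_not L' (fun l => ∃ x ∈ X, ⟪x, l⟫_ℝ = 1), hfilter]
    rw [Finset.sum_eq_zero, zero_add]
    · refine Finset.sum_congr rfl fun l hl => ?_
      rw [htight l hl]
    · intro l hl
      rw [Finset.mem_filter] at hl
      obtain ⟨hl1, x, hx, hxl⟩ := hl
      have := hc3 l hl1 x hx hxl
      omega
  refine ⟨L', h', hdisj, ?_, fun l hl x hx hxl =>
    ⟨hc3 l hl x hx hxl, hc1 l hl x hx hxl, hc2 l hl x hx hxl⟩⟩
  rw [halpha]
  have himg : ∑ l ∈ X.image lam, ((tight V l).card - 3) = ∑ x ∈ X, ((tight V (lam x)).card - 3) :=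
    Finset.sum_image (fun x hx y hy he => hinj x hx y hy he)
  rw [← himg]
  unfold alpha
  exact Finset.sum_sdiff (Finset.image_subset_iff.2 hlam)

end Pool.Agent.SymPoly
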